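import Pool.Agent.MP_c69980_ag.G3G.Base
import Pool.Agent.MP_c69980_ag.G3.Amb
import Pool.Agent.MP_c69980_ag.I2.SpecB

/-!
From the function field of the surface to monomial charts, dictionaries and tubes.
-/

set_option autoImplicit false

noncomputable section

namespace Pool.Agent.MP_c69980_ag.G3G

open MvPolynomial Metric Filter Topology Set
open H60 H4 E1 G3
open I2 (Sf Br Gm Par Sp PP CC G0 CP Ov GenO BrStmt ParStmt MaxStmt CPStmt)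
open Pool.Agent.MP_f3836a_nt.PK (Place IsFF PlA PlB)

section

variable {n : ℕ}

/-- `g` is a biholomorphic map from `O` onto an open part of `W`. -/
structure Bi (W : Set (PS n)) (O : Set C2) (g : C2 → V n) : Prop where
  op : IsOpen O
  an : AnalyticOnNhd ℂ g O
  mem : ∀ q ∈ O, g q ∈ Cone W
  inj : ∀ q ∈ O, ∀ q' ∈ O, Pp (g q) (g q') → q = q'
  loc : ∀ q ∈ O, ∃ ψ : V n → C2, AnalyticAt ℂ ψ (g q) ∧ ψ (g q) = q ∧
    ∀ᶠ y in 𝓝 (g q), y ∈ Cone W → Pp y (g (ψ y))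

lemma Bi.mono {W : Set (PS n)} {O O' : Set C2} {g : C2 → V n} (h : Bi W O g) (o : IsOpen O')
    (s : O' ⊆ O) : Bi W O' g :=
  ⟨o, h.an.mono s, fun q hq => h.mem q (s hq), fun q hq q' hq' => h.inj q (s hq) q' (s hq'),
    fun q hq => h.loc q (s hq)⟩

lemma cone_pp {W : Set (PS n)} {y w : V n} (h : Pp w y) (hy : y ∈ Cone W) : w ∈ Cone W := by
  obtain ⟨c, c0, rfl⟩ := h
  obtain ⟨y0, hy⟩ := hy
  refine ⟨smul_ne_zero c0 y0, ?_⟩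
  rwa [(Projectivization.mk_eq_mk_iff' ℂ _ _ (smul_ne_zero c0 y0) y0).2 ⟨c, rfl⟩]

lemma Bi.smul {W : Set (PS n)} {O : Set C2} {g : C2 → V n} (h : Bi W O g) {κ : C2 → ℂ}
    (hκ : AnalyticOnNhd ℂ κ O) (h0 : ∀ q ∈ O, κ q ≠ 0) : Bi W O fun q => κ q • g q := by
  refine ⟨h.op, fun q hq => (hκ q hq).smul (h.an q hq),
    fun q hq => cone_pp (Pp.smul (h0 q hq) _) (h.mem q hq), fun q hq q' hq' e => h.inj q hq q' hq'
      ((Pp.smul (h0 q hq) _).symm.trans (e.trans (Pp.smul (h0 q' hq') _))), fun q hq => ?_⟩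
  obtain ⟨ψ, h1, h2, h3⟩ := h.loc q hq
  have e : (κ q)⁻¹ • κ q • g q = g q := inv_smul_smul₀ (h0 q hq) _
  have a : AnalyticAt ℂ (fun y : V n => (κ q)⁻¹ • y) (κ q • g q) :=
    (analyticAt_const (v := (κ q)⁻¹)).smul (analyticAt_id (𝕜 := ℂ))
  have c : Tendsto (fun y : V n => (κ q)⁻¹ • y) (𝓝 (κ q • g q)) (𝓝 (g q)) := by
    simpa [ContinuousAt, e] using a.continuousAt
  have c2 : Tendsto ψ (𝓝 (g q)) (𝓝 q) := by simpa [ContinuousAt, h2] using h1.continuousAt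
  refine ⟨fun y => ψ ((κ q)⁻¹ • y), h1.comp_of_eq a e, by simp only [e, h2], ?_⟩
  filter_upwards [c.eventually h3, (c2.comp c).eventually (h.op.mem_nhds hq)] with y k1 k2 hy
  have i0 := inv_ne_zero (h0 q hq)
  exact ((Pp.smul i0 y).symm.trans (k1 (cone_pp (Pp.smul i0 y) hy))).trans
    (Pp.smul (h0 _ k2) _).symm

/-- The surface `F` is `W`. -/
structure FIs (W : Set (PS n)) (A : Amb (Wg n)) (F : Srf A) : Prop where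
  w : F.W = prj '' Cone W
  ch : ∀ Y q, F.Ch Y q ↔ ∃ O g, Bi W O g ∧ q ∈ O ∧ ∀ᶠ x in 𝓝 q, Y x = prj (g x)

/-- `X` is a cone over `W`. -/
def XC (W : Set (PS n)) (X : Set (Pt n)) : Prop :=
  ∀ x ∈ X, x.2 ∈ Cone W ∧ ∀ c : ℂ, c ≠ 0 → (x.1, c • x.2) ∈ X

end

/-- The chart with the two coordinates exchanged. -/
def MC.sw {M : Type} (m : ℕ) (N : MC M) : MC M :=
  ⟨fun q => N.Y q.swap, N.r, N.b, N.a, 1, fun l q => N.φ l q.swap * (-(N.a : ℂ) / N.b) ^ m⟩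

/-- A surface with a normal crossings boundary, logarithmic forms and a unit `τ`. -/
structure GD (K : Type) [Field K] [Algebra ℂ K] (N : ℕ) extends Sf K N where
  Uo : Set (PS (N + 1))
  m : ℕ
  h : Fin 3 → K
  τ : K
  sub : Uo ⊆ W
  ld : LDat Uo z W z id m D h
  t0 : τ ≠ 0
  un : ∀ y ∈ Cone Uo, Un z y τ
  mor : ∀ y ∈ Cone W, Reg z y τ ∨ Reg z y τ⁻¹

section

variable {K : Type} [Field K] [Algebra ℂ K] {N : ℕ}

/-- The family `A` comes from the data `d`. -/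
structure Lnk (d : GD K N) (A : Amb (Wg (N + 1))) (X : Set (Pt (N + 1)))
    (Φ : Fin 3 → Pt (N + 1) → V (N + 1) → ℂ) : Prop where
  amb : IsAmb A X d.Uo d.m Φ
  xl : ∀ t y, (t, y) ∈ X ↔ y ∈ Cone d.W ∧ Reg d.z y d.τ ∧ vl d.z d.τ y = tau A t
  kl : ∀ a j O Y, Chart X a j O Y → ∀ p ∈ O, ∀ (c α β : ℂ) (i : Fin 3) (f g : K), c ≠ 0 →
    Reg d.z (Y p) f → Reg d.z (Y p) g → Wd d.D f g ≠ 0 →
    Reg d.z (Y p) (d.h i / Wd d.D f g ^ d.m) →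
    Φ i (p.1, c • Y p) (α • dz Y p + β • Y p) = (α / c) ^ d.m *
      (vl d.z (d.h i / Wd d.D f g ^ d.m) (Y p) *
        jb (fun q => vl d.z f (Y q)) (fun q => vl d.z g (Y q)) p ^ d.m)

/-- Boundary curves. -/
def Bd (d : GD K N) (C : CC d.z) : Prop := {y : PP d.z | y.On C ∧ y.z ∈ Cone d.Uo}.Finite

/-- The point `x` is a zero of `τ`. -/
def Ze (d : GD K N) (x : PP d.z) : Prop := d.τ ∈ x.ctr.O ∧ vl d.z d.τ x.z = 0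

/-- The points of a curve. -/
def cb {ξ : Fin (N + 1) → K} (C : CC ξ) : Set (Wg (N + 1)) :=
  (fun x : PP ξ => prj x.z) '' {x | x.On C}

/-- Local algebra at a zero of `τ`. -/
structure LA (d : GD K N) (x : PP d.z) (p q ε : K) (a b c : ℕ) : Prop where
  gm : Gm d.toSf x p q
  a0 : 0 < a
  c1 : c ≤ 1
  bc : 0 < b → c = 1
  un : ε ∈ x.ctr.O ∧ vl d.z ε x.z ≠ 0
  eq : d.τ = ε * p ^ a * q ^ b
  opn : ∃ δ : ℝ, 0 < δ ∧ ∀ y ∈ Cone d.W, d2 y x.z < δ →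
    (y ∈ Cone d.Uo ↔ vl d.z p y * vl d.z q y ^ c ≠ 0)
  wd : Wd d.D p q ≠ 0
  frm : ∀ l, (p * q ^ c) ^ d.m * d.h l / Wd d.D p q ^ d.m ∈ x.ctr.O
  bd : c = 1 → ∀ C : CC d.z, x.On C → C.res q = 0 → Bd d C

/-- The unit is absorbed in the first coordinate. -/
structure Mo (S : Sf K N) (x : PP S.z) (p q ε : K) (a : ℕ) (g : C2 → V (N + 1)) (J : C2 → ℂ)
    (r : ℝ) : Prop where
  r0 : 0 < r
  bi : Bi S.W (ball 0 r) g
  zero : Pp (g 0) x.z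
  an : AnalyticOnNhd ℂ J (ball 0 r)
  val : ∀ y ∈ ball (0 : C2) r, J y ≠ 0 ∧ Reg S.z (g y) p ∧ Reg S.z (g y) q ∧ Reg S.z (g y) ε ∧
    vl S.z p (g y) = y.1 * J y ∧ vl S.z q (g y) = y.2 ∧ vl S.z ε (g y) * J y ^ a = 1

/-- The chart `T` at `x` is adapted to the curve `C`. -/
structure Ad (d : GD K N) (x : PP d.z) (C : CC d.z) (T : MC (Wg (N + 1))) : Prop where
  on : x.On C
  dvr : IsDiscreteValuationRing (C.loc x)
  a : (T.a : ℤ) = C.v d.τ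
  zero : T.Y 0 = prj x.z
  ax : ∀ y ∈ ball (0 : C2) T.r, T.Y y ∈ cb C ↔ y.1 = 0
  ex : ∃ (p q ε : K) (g : C2 → V (N + 1)) (J : ℂ → ℂ), Sp d.toSf x C p q ∧ ε ∈ x.ctr.O ∧
    vl d.z ε x.z ≠ 0 ∧ d.τ = ε * p ^ T.a * q ^ T.b ∧ Bi d.W (ball 0 T.r) g ∧ 0 < T.r ∧
    (∀ y, T.Y y = prj (g y)) ∧ AnalyticAt ℂ J 0 ∧ J 0 ≠ 0 ∧
    ∀ᶠ w in 𝓝 (0 : ℂ), vl d.z q (g (0, w)) = w * J w

/-- All the local data at a zero of `τ`. -/
structure Loc (d : GD K N) {A : Amb (Wg (N + 1))} (F : Srf A) (x : PP d.z) (δ : ℝ) (C : CC d.z)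
    (T : MC (Wg (N + 1))) : Prop where
  pos : 0 < C.v d.τ
  ok : T.OK F
  ad : Ad d x C T
  sm : ∀ y ∈ ball (0 : C2) T.r, dist (T.Y y) (prj x.z) < δ
  on : ∀ C' : CC d.z, 0 < C'.v d.τ → C' ≠ C → x.On C' →
    0 < T.b ∧ (T.sw A.m).OK F ∧ Ad d x C' (T.sw A.m)
  off : ∀ C' : CC d.z, 0 < C'.v d.τ → ¬x.On C' → ∀ y ∈ ball (0 : C2) T.r, T.Y y ∉ cb C'
  nb : 0 < T.b → ∃ C' : CC d.z, 0 < C'.v d.τ ∧ C' ≠ C ∧ x.On C'
  two : ∀ C' C'' : CC d.z, 0 < C'.v d.τ → 0 < C''.v d.τ → C' ≠ C → C'' ≠ C → x.On C' → x.On C'' →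
    C' = C''
  bd : T.c = 1 → ∃ C' : CC d.z, C' ≠ C ∧ x.On C' ∧ Bd d C'

/-- The geometry `G` comes from the data `d`. -/
structure GK (d : GD K N) {A : Amb (Wg (N + 1))} (G : Geo A) (cv : G.ι → CC d.z) : Prop where
  fis : FIs d.W A G.F
  pos : ∀ i, 0 < (cv i).v d.τ
  cb : ∀ i, G.Cb i = cb (cv i)
  ad : ∀ i (x : PP d.z), x.On (cv i) → Ad d x (cv i) (G.ch i (prj x.z))

/-- The places of the points of a curve. -/
structure PL (S : Sf K N) (C : CC S.z) (pl : Wg (N + 1) → Place ℂ C.κ) : Prop where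
  ov : ∀ x : PP S.z, x.On C → Ov C x (pl (prj x.z))
  val : ∀ x : PP S.z, x.On C → ∀ a ∈ x.ctr.O, ev (pl (prj x.z)) (C.res a) = vl S.z a x.z
  ord : ∀ x : PP S.z, x.On C → ∀ f : C.κ, (pl (prj x.z)).ord f = C.ordAt x f

/-- The bad points of a uniformiser, of a coordinate and of the lifts of the generators. -/
structure Bad (d : GD K N) (C : CC d.z) (Z : Set (PP d.z)) (j : Fin (N + 1)) (φ : K) : Prop where
  fin : Z.Finite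
  v : φ ≠ 0 ∧ C.v φ = 1
  loc : ∀ x : PP d.z, x.On C → x ∉ Z → x.z j ≠ 0 ∧ φ ∈ x.ctr.O ∧
    (∀ C' : CC d.z, x.On C' → C' ≠ C → C'.v φ = 0) ∧ d.τ / φ ^ (C.v d.τ).toNat ∈ x.ctr.O ∧
    vl d.z (d.τ / φ ^ (C.v d.τ).toNat) x.z ≠ 0
  lift : ∀ ζ : C.κ, IntermediateField.adjoin ℂ {ζ} = ⊤ → ∃ f ∈ C.O, C.res f = ζ ∧
    ∀ x : PP d.z, x.On C → x ∉ Z → ∀ P, Ov C x P → ζ ∈ P.V → f ∈ x.ctr.O

/-- The coordinates on a tube. -/
def Gt (z : Fin (N + 1) → K) (φ f R : K) (R₀ : ℂ → ℂ) (a : ℕ) (y : V (N + 1)) : C2 :=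
  (vl z φ y * Complex.exp (Complex.log (vl z R y / R₀ (vl z f y)) / a), vl z f y)

end

/-- Quantification over all surfaces. -/
def AllS (Φ : ∀ (K : Type) [Field K] [Algebra ℂ K] (N : ℕ) (_ : Sf K N), Prop) : Prop :=
  ∀ (K : Type) [Field K] [Algebra ℂ K] (N : ℕ) (S : Sf K N), Br S → (∀ C : CC S.z, CP C) → Φ K N S

/-- Quantification over all data. -/
def AllK (Φ : ∀ (K : Type) [Field K] [Algebra ℂ K] (N : ℕ) (_ : GD K N), Prop) : Prop :=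
  ∀ (K : Type) [Field K] [Algebra ℂ K] (N : ℕ) (d : GD K N), Br d.toSf →
    (∀ C : CC d.z, CP C) → Φ K N d

/-- Quantification over all data and families. -/
def AllL (Φ : ∀ (K : Type) [Field K] [Algebra ℂ K] (N : ℕ) (_ : GD K N)
    (_ : Amb (Wg (N + 1))), Prop) : Prop :=
  AllK fun K _ _ N d => ∀ A X Ψ, Lnk d A X Ψ → Φ K N d A

/-! ### Rows Inv, Imm, Rx, Srf, Sw, Glu: charts -/

def InvStmt : Prop := ∀ (n : ℕ) (W : Set (PS n)) (O : Set C2) (g : C2 → V n) (q : C2)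
  (G : C2 → C2), Bi W O g → q ∈ O → AnalyticAt ℂ G q → (∀ v, fderiv ℂ G q v = 0 → v = 0) →
  ∃ (r : ℝ) (H : C2 → C2), 0 < r ∧ AnalyticOnNhd ℂ H (ball (G q) r) ∧ H (G q) = q ∧
    (∀ y ∈ ball (G q) r, H y ∈ O ∧ G (H y) = y) ∧ Bi W (ball (G q) r) fun y => g (H y)

def ImmStmt : Prop :=
  (∀ (n : ℕ) (W : Set (PS n)) (O : Set C2) (g : C2 → V n), Bi W O g →
    (∀ q ∈ O, ∀ v, v ≠ 0 → wg (g q) (fderiv ℂ g q v) ≠ 0) ∧
    Bi W (Prod.swap ⁻¹' O) fun q => g q.swap) ∧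
  ∀ (K : Type) [Field K] [Algebra ℂ K] (N : ℕ) (S : Sf K N) (x : PP S.z) (p q : K) Γ ε,
    Par S x p q Γ ε → ∃ ε' : ℝ, 0 < ε' ∧ ε' ≤ ε ∧ Bi S.W (ball 0 ε') Γ

def RxStmt : Prop := ∀ (n : ℕ) (W : Set (PS n)) (X : Set (Pt n)) (σ : ℂ) (O : Set C2)
  (g : C2 → V n) (τ : C2 → ℂ) (q : C2) (t : ℂ), σ ≠ 0 → XC W X → Bi W O g → q ∈ O →
  AnalyticAt ℂ τ q → fderiv ℂ τ q ≠ 0 →
  (∀ᶠ q' in 𝓝 q, ∀ t', (t', g q') ∈ X ↔ τ q' = Complex.exp (-(σ * t'))) →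
  τ q = Complex.exp (-(σ * t)) → (t, g q) ∈ Rx X

def RxOf : Prop := InvStmt → ImmStmt → RxStmt

def SrfStmt : Prop := ∀ (n : ℕ) (W U : Set (PS n)) (X : Set (Pt n)) (m : ℕ) Φ (A : Amb (Wg n)),
  IsAmb A X U m Φ → XC W X → ∃ F : Srf A, FIs W A F

def SrfOf : Prop := PrjStmt → ImmStmt → RxStmt → SrfStmt

def SwStmt : Prop := ∀ (n : ℕ) (W : Set (PS n)) (A : Amb (Wg n)) (F : Srf A) (T : MC (Wg n)),
  FIs W A F → T.OK F → 0 < T.b → (T.sw A.m).OK F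

def SwOf : Prop := ImmStmt → SwStmt

def GluStmt : Prop := ∀ (n : ℕ) (W : Set (PS n)) (j : Fin n) (G : V n → C2) (B : Set ℂ)
  (ρ : ℂ → ℝ) (T : ℂ → C2 → V n), (∀ y ∈ Cone W, ∀ y', Pp y y' → G y = G y') →
  (∀ c ∈ B, Bi W (ball (0, c) (ρ c)) (T c) ∧
    ∀ y ∈ ball ((0, c) : C2) (ρ c), T c y j = 1 ∧ G (T c y) = y) →
  (∀ c ∈ B, ∀ c' ∈ B, ∀ s : ℂ, ((0, s) : C2) ∈ ball ((0, c) : C2) (ρ c) →
    ((0, s) : C2) ∈ ball ((0, c') : C2) (ρ c') → T c (0, s) = T c' (0, s)) →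
  ∃ T' : C2 → V n, Bi W (⋃ c ∈ B, ball (0, c) (ρ c)) T' ∧
    ∀ c ∈ B, ∀ y ∈ ball ((0, c) : C2) (ρ c), T' y = T c y

/-! ### Rows Prm, Alg, Fin, Bad, Prd: algebra -/

def PrmStmt : Prop := AllS fun K _ _ _ S => (∀ (x : PP S.z) (p q : K), Gm S x p q →
  ∃ C : CC S.z, x.On C ∧ IsDiscreteValuationRing (C.loc x) ∧ Sp S x C p q) ∧
  ∀ (x : PP S.z) (C : CC S.z) (p q φ f : K), x.On C → Sp S x C p q → φ ∈ x.ctr.O → φ ≠ 0 →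
    C.v φ = 1 → (∀ C' : CC S.z, x.On C' → C' ≠ C → C'.v φ = 0) → f ∈ x.ctr.O → C.res f ≠ 0 →
    C.ordAt x (C.res f) = 1 → Gm S x φ f

def AlgStmt : Prop := AllK fun _ _ _ _ d => ∀ x : PP d.z, Ze d x → ∃ p q ε a b c, LA d x p q ε a b c

def AlgOf : Prop := PrmStmt → AlgStmt

def FinStmt : Prop := AllK fun _ _ _ _ d => {C : CC d.z | Bd d C}.Finite ∧
  ∀ (x : PP d.z) (C : CC d.z), x.On C → 0 < C.v d.τ → Ze d x

def BadStmt : Prop := AllK fun _ _ _ _ d => ∀ C : CC d.z, 0 < C.v d.τ → ∃ Z j φ, Bad d C Z j φ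

/-- Rational function fields. -/
def PrdStmt : Prop := ∀ (F : Type) [Field F] [Algebra ℂ F], IsFF ℂ F → PlA ℂ F → PlB ℂ F →
  ∀ (ζ : F) (o : Place ℂ F), IntermediateField.adjoin ℂ {ζ} = ⊤ → o.ord ζ < 0 →
  (∀ P : Place ℂ F, P ≠ o → ζ ∈ P.V ∧ ζ - algebraMap ℂ F (ev P ζ) ≠ 0 ∧
    P.ord (ζ - algebraMap ℂ F (ev P ζ)) = 1 ∧ ∀ P' : Place ℂ F, P' ≠ o → ev P' ζ = ev P ζ → P' = P) ∧
  ∀ (ι : Type) (T : Finset ι) (pl : ι → Place ℂ F) (R : F), R ≠ 0 → InjOn pl T →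
    (∀ q ∈ T, pl q ≠ o) → (∀ P : Place ℂ F, P ≠ o → (∀ q ∈ T, pl q ≠ P) → P.ord R = 0) →
    o.ord R = -∑ q ∈ T, (pl q).ord R ∧ ∃ c₀ : ℂ, c₀ ≠ 0 ∧ ∀ P : Place ℂ F, P ≠ o →
      (∀ q ∈ T, pl q ≠ P) → ev P R = c₀ * ∏ q ∈ T, (ev P ζ - ev (pl q) ζ) ^ (pl q).ord R

/-! ### Rows Mon, Frm, Mco, Pt: the chart at one point -/

def MonStmt : Prop := AllS fun K _ _ _ S => ∀ (x : PP S.z) (p q ε : K) (a : ℕ), Gm S x p q →
  ε ∈ x.ctr.O → vl S.z ε x.z ≠ 0 → 0 < a → ∃ g J r, Mo S x p q ε a g J r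

def MonOf : Prop := ParStmt → InvStmt → ImmStmt → MonStmt

def FrmStmt : Prop := AllK fun K _ _ N d => ∀ A X Φ, Lnk d A X Φ → ∀ (γ : C2 → V (N + 1)) (p : C2)
  (l : Fin 3) (f g : K), AnalyticAt ℂ γ p → (∀ᶠ p' in 𝓝 p, (p'.1, γ p') ∈ X) →
  (p.1, γ p) ∈ Rx X → Reg d.z (γ p) f → Reg d.z (γ p) g → Wd d.D f g ≠ 0 →
  Reg d.z (γ p) (d.h l / Wd d.D f g ^ d.m) →
  Φ l (p.1, γ p) (dz γ p) = vl d.z (d.h l / Wd d.D f g ^ d.m) (γ p) *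
    jb (fun q => vl d.z f (γ q)) (fun q => vl d.z g (γ q)) p ^ d.m

def McoStmt : Prop := AllL fun _ _ _ _ d A => ∀ (F : Srf A) x p q ε a b c g J r, FIs d.W A F →
  LA d x p q ε a b c → Mo d.toSf x p q ε a g J r →
  ∃ r' φ, r' ≤ r ∧ MC.OK F ⟨fun y => prj (g y), r', a, b, c, φ⟩

def McoOf : Prop := PrjStmt → FrmStmt → McoStmt

def PtStmt : Prop := AllL fun _ _ _ _ d A => ∀ (F : Srf A) (x : PP d.z) (δ : ℝ), FIs d.W A F →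
  Ze d x → 0 < δ → ∃ C T, Loc d F x δ C T

def PtOf : Prop :=
  PrjStmt → ImmStmt → PrmStmt → AlgStmt → MonStmt → McoStmt → SwStmt → PtStmt

/-! ### Rows Cpt, Con, Geo: the whole fibre -/

def CptStmt : Prop := (AllS fun _ _ _ _ S => ∀ C : CC S.z, IsCompact (cb C)) ∧
  AllL fun _ _ _ _ d A => ∀ u, A.Out u → ∃ x : PP d.z, Ze d x ∧ Cg u (prj x.z)

def CptOf : Prop := PrjStmt → CptStmt

def ConStmt : Prop := AllS fun _ _ _ N S => ∀ (C : CC S.z) (T : Finset (Wg (N + 1))),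
  IsPreconnected (cb C \ T) ∧ (cb C).Infinite

def ConOf : Prop := PrjStmt → MaxStmt → ConStmt

def GeoStmt : Prop := AllL fun _ _ _ _ d A => ∀ Z : Set (PP d.z), Z.Finite →
  ∃ (G : Geo A) (cv : G.ι → CC d.z), GK d G cv ∧ ∀ i, ∀ x ∈ Z, x.On (cv i) → prj x.z ∈ G.S

def GeoOf : Prop := PrjStmt → SrfStmt → PtStmt → FinStmt → CptStmt → ConStmt → GeoStmt

/-! ### Rows Dic, Tl, Tb: dictionaries and tubes -/

def DicStmt : Prop := AllL fun _ _ _ _ d A => ∀ (G : Geo A) cv i, GK d G cv →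
  ∃ pl, Dic G i (cv i).κ pl ∧ PL d.toSf (cv i) pl

def DicOf : Prop := PrjStmt → DicStmt

def TlStmt : Prop := AllS fun K _ _ N S => ∀ (x : PP S.z) (φ f R : K) (R₀ : ℂ → ℂ) (c : ℂ) (a : ℕ)
  (j : Fin (N + 1)) (δ : ℝ), Gm S x φ (f - algebraMap ℂ K c) → R ∈ x.ctr.O → AnalyticAt ℂ R₀ c →
  R₀ c ≠ 0 → vl S.z R x.z = R₀ c → 0 < a → x.z j ≠ 0 → 0 < δ →
  ∃ (ρ : ℝ) (T : C2 → V (N + 1)), 0 < ρ ∧ Bi S.W (ball (0, c) ρ) T ∧ Pp (T (0, c)) x.z ∧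
    ∀ y ∈ ball ((0, c) : C2) ρ, T y j = 1 ∧ d2 (T y) x.z < δ ∧ Reg S.z (T y) φ ∧ Reg S.z (T y) f ∧
      Reg S.z (T y) R ∧ Gt S.z φ f R R₀ a (T y) = y ∧
      vl S.z φ (T y) ^ a * vl S.z R (T y) = y.1 ^ a * R₀ y.2

def TlOf : Prop := ParStmt → InvStmt → ImmStmt → TlStmt

def TbStmt : Prop := AllL fun _ _ _ _ d A => ∀ (G : Geo A) cv i pl Z j φ, GK d G cv →
  Dic G i (cv i).κ pl → PL d.toSf (cv i) pl → Bad d (cv i) Z j φ →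
  (∀ x ∈ Z, x.On (cv i) → prj x.z ∈ G.S) → Tube G i pl

def TbOf : Prop := PrjStmt → PrmStmt → PrdStmt → GluStmt → TlStmt → TbStmt

/-- The result of the block. -/
def GStmt : Prop := ∀ (K : Type) [Field K] [Algebra ℂ K] (N : ℕ) (d : GD K N) A X Φ,
  Lnk d A X Φ → ∃ G : Geo A, G.Alg

lemma g_of (h1 : BrStmt) (h2 : CPStmt) (h3 : BadStmt) (h4 : GeoStmt) (h5 : DicStmt)
    (h6 : TbStmt) : GStmt := by
  intro K _ _ N d A X Φ L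
  have B := h1 K N d.toSf
  have P := h2 K N d.z B.g0
  have f : {C : CC d.z | 0 < C.v d.τ}.Finite := (B.g0.fin.v d.τ).subset fun C hC => ne_of_gt hC
  choose! Z j φ hZ using h3 K N d B P
  obtain ⟨G, cv, g, s⟩ := h4 K N d B P A X Φ L (⋃ C ∈ {C : CC d.z | 0 < C.v d.τ}, Z C)
    (f.biUnion fun C hC => (hZ C hC).fin)
  refine ⟨G, fun i => ?_⟩
  obtain ⟨pl, a, b⟩ := h5 K N d B P A X Φ L G cv i g
  exact ⟨(cv i).κ, _, _, pl, a, h6 K N d B P A X Φ L G cv i pl _ _ _ g a b (hZ _ (g.pos i))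
    fun x hx => s i x (mem_biUnion (g.pos i) hx)⟩

end Pool.Agent.MP_c69980_ag.G3G
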