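import Pool.Agent.MP_c69980_ag.G3G.SpecB
import Pool.Agent.MP_c69980_ag.E1.PD
import Pool.Agent.MP_c69980_ag.G3S.SpecB

/-!
The two ends of the fibration given by a unit.
-/

set_option autoImplicit false

noncomputable section

namespace Pool.Agent.MP_c69980_ag.G3G

open MvPolynomial Metric Filter Topology Set
open H60 H4 E1 G3

/-- Both ends are semistable. -/
def EndsStmt : Prop := ∀ (K : Type) [Field K] [Algebra ℂ K] (n : ℕ) (W U : Set (PS n))
  (z : Fin n → K) (D : Fin 2 → Derivation ℂ K K) (m : ℕ) (h : Fin 3 → K) (u : K)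
  (X : Set (Pt n)) (Φ : Fin 3 → Pt n → V n → ℂ) (A : Amb (Wg n)), Smo W → U ⊆ W →
  LDat U z W z id m D h → u ≠ 0 → (∀ x ∈ W, u ∈ locRing z x ∨ u⁻¹ ∈ locRing z x) →
  (∀ x ∈ U, u ∈ locRing z x ∧ u⁻¹ ∈ locRing z x) →
  (∀ t y, (t, y) ∈ X ↔ y ∈ Cone W ∧ Reg z y u ∧ vl z u y = Complex.exp t) →
  (∀ a j O Y, Chart X a j O Y → ∀ p ∈ O, ∀ (c α β : ℂ) (i : Fin 3) (f g : K), c ≠ 0 →
    Reg z (Y p) f → Reg z (Y p) g → Wd D f g ≠ 0 → Reg z (Y p) (h i / Wd D f g ^ m) →
    Φ i (p.1, c • Y p) (α • dz Y p + β • Y p) = (α / c) ^ m * (vl z (h i / Wd D f g ^ m) (Y p) *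
      jb (fun q => vl z f (Y q)) (fun q => vl z g (Y q)) p ^ m)) →
  IsAmb A X U m Φ → Nonempty (SE A)

theorem end_of (h1 : GStmt) (h2 : SkStmt) (h3 : TriStmt) : EndsStmt := by
  intro K _ _ n W U z D m h u X Φ A sm sub ld u0 mor un hX kl amb
  have tr : Algebra.trdeg ℂ K = 2 := by simpa using ld.2.2.1
  have gen := ld.2.1
  cases n with
  | zero =>
    have e : (⊥ : IntermediateField ℂ K) = ⊤ := by simpa using gen.2
    haveI : Algebra.IsAlgebraic ℂ K := ⟨fun x => by
      obtain ⟨c, rfl⟩ := IntermediateField.mem_bot.1 (e ▸ IntermediateField.mem_top (x := x))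
      exact isAlgebraic_algebraMap c⟩
    rw [trdeg_eq_zero] at tr
    exact absurd tr (by norm_num)
  | succ N =>
    have cu : ∀ y ∈ Cone U, y ∈ Cone W := fun y hy => ⟨hy.1, sub hy.2⟩
    have inv : ∀ y ∈ Cone W, ∀ f : K, f ≠ 0 → Reg z y f → Reg z y f⁻¹ → vl z f y ≠ 0 :=
      fun y hy f f0 a b e => by
        have o := Cone.on gen hy
        have k := (vl_mul o a b).2
        rw [mul_inv_cancel₀ f0, e, zero_mul, ← map_one (algebraMap ℂ K), (vl_const o 1).2] at k
        exact one_ne_zero k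
    have key : ∀ τ : K, (τ = u ∨ τ = u⁻¹) →
        (∀ t y, (t, y) ∈ X ↔ y ∈ Cone W ∧ Reg z y τ ∧ vl z τ y = tau A t) → Nonempty (SE A) := by
      intro τ hτ xl
      have t0 : τ ≠ 0 := by rcases hτ with rfl | rfl <;> simpa using u0
      let d : GD K N :=
        { W := W, z := z, D := D, cl := ld.1, gen := gen, tr := tr, sm := sm, li := ld.2.2.2.1,
          Uo := U, m := m, h := h, τ := τ, sub := sub, ld := ld, t0 := t0,
          un := fun y hy => by
            have a := (PD.loc_iff gen (cu y hy) _).1 (un _ hy.2).1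
            have b := (PD.loc_iff gen (cu y hy) _).1 (un _ hy.2).2
            rcases hτ with rfl | rfl
            · exact ⟨a, inv y (cu y hy) _ t0 a b⟩
            · exact ⟨b, inv y (cu y hy) _ t0 b (by rwa [inv_inv])⟩
          mor := fun y hy => by
            have a := (mor _ hy.2).imp (PD.loc_iff gen hy _).1 (PD.loc_iff gen hy _).1
            rcases hτ with rfl | rfl
            · exact a
            · rw [inv_inv]
              exact a.symm }
      obtain ⟨G, hG⟩ := h1 K N d A X Φ ⟨amb, xl, kl⟩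
      exact se_of h2 h3 G hG
    rcases A.hσ with e | e
    · refine key u⁻¹ (Or.inr rfl) fun t y => (hX t y).trans (and_congr_right fun hy => ?_)
      have o := Cone.on gen hy
      have te : tau A t = (Complex.exp t)⁻¹ := by simp [tau, e, Complex.exp_neg]
      rw [te]
      refine ⟨fun ⟨a, b⟩ => ?_, fun ⟨a, b⟩ => ?_⟩
      · obtain ⟨c, k⟩ := vl_inv o ⟨a, b ▸ Complex.exp_ne_zero t⟩
        exact ⟨c, by rw [k, b]⟩
      · obtain ⟨c, k⟩ := vl_inv o ⟨a, b ▸ inv_ne_zero (Complex.exp_ne_zero t)⟩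
        rw [inv_inv] at c k
        exact ⟨c, by rw [k, b, inv_inv]⟩
    · refine key u (Or.inl rfl) fun t y => ?_
      have te : tau A t = Complex.exp t := by simp [tau, e]
      rw [te]
      exact hX t y

/-- The same for the data of the theorem. -/
def SEStmt : Prop := ∀ (K : Type) [Field K] [Algebra ℂ K] (n : ℕ) (d : E2.G3S.Dat K n)
  (Φ : Fin 3 → Pt n → V n → ℂ) (A : Amb (Wg n)), E2.G3S.KL d Φ → IsAmb A d.X d.Uo d.m Φ →
  Nonempty (SE A)

theorem se_dat (h : EndsStmt) : SEStmt := by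
  intro K _ _ n d Φ A kl amb
  refine h K n d.W d.Uo d.z d.D d.m d.h d.u d.X Φ A d.sm d.sub d.ld
    (fun e => d.nc 0 (by rw [e, map_zero])) d.mor d.unit (fun _ _ => Iff.rfl) ?_ amb
  intro a j O Y c p hp s α β i f g e0 e1 e2 e3 e4
  simpa using kl a j O Y c p hp 0 (zero_mem _) s α β i f g e0 e1 e2 e3 e4

end Pool.Agent.MP_c69980_ag.G3G
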