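import Pool.Agent.MP_c69980_ag.G3G.SpecB
import Pool.Agent.MP_c69980_ag.I2.Log
import Pool.Agent.MP_c69980_ag.I2.Sp
import Pool.Agent.MP_c69980_ag.I2.Br

/-!
Row Alg: the local algebra at a zero of the parameter.
-/

set_option autoImplicit false

noncomputable section

namespace Pool.Agent.MP_c69980_ag.G3G

open MvPolynomial Metric Filter Topology Set
open H60 H4 E1 G3
open I2 (Sf Br Gm Par Sp PP CC G0 CP Ov GenO)
open Pool.Agent.MP_f3836a_nt.PK (Form CCvA.unit_iff)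

namespace RAlg

variable {K : Type} [Field K] [Algebra ℂ K] {N : ℕ}

section
variable {S : Sf K N} {x : PP S.z} {p q f : K}

theorem gm_sw (h : Gm S x p q) : Gm S x q p :=
  ⟨h.2.1, h.1, h.2.2.2.1, h.2.2.1, fun f hf h0 => by
    obtain ⟨α, a, β, b, e⟩ := h.2.2.2.2 f hf h0
    exact ⟨β, b, α, a, e.trans (add_comm _ _)⟩⟩

theorem vl_ne (B : Br S) (hf : f ∈ x.ctr.O) : vl S.z f x.z ≠ 0 ↔ f ≠ 0 ∧ f⁻¹ ∈ x.ctr.O := by
  rw [← CCvA.unit_iff _ ⟨f, hf⟩, Ne, ← B.max x ⟨f, hf⟩, IsLocalRing.mem_maximalIdeal,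
    mem_nonunits_iff, not_not]

theorem wd_exp (D : Fin 2 → Derivation ℂ K K) (α β γ δ p q v : K) (e : v = γ * p + δ * q) :
    Wd D (α * p + β * q) v = (α * δ - β * γ) * Wd D p q +
      p * (α * Wd D p γ + β * Wd D q γ + Wd D α v) +
      q * (α * Wd D p δ + β * Wd D q δ + Wd D β v) := by
  subst e
  simp only [Wd, map_add, Derivation.leibniz, smul_eq_mul]
  ring

/-- Generators of the maximal ideal give a generator of the canonical module. -/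
theorem genO (B : Br S) (h : Gm S x p q) : GenO S.D x.ctr.O (Wd S.D p q) := by
  obtain ⟨a, b, j, U, Y, hc, c, hU, hp⟩ := B.wc _ (B.cone x)
  obtain ⟨hw, hg, -⟩ := B.jac a b j U Y hc c hU x hp.symm
  have e0 : Wd S.D (S.z a / S.z j - algebraMap ℂ K c.1) (S.z b / S.z j - algebraMap ℂ K c.2) =
      Wd S.D (S.z a / S.z j) (S.z b / S.z j) := by
    simp only [Wd, map_sub, Derivation.map_algebraMap, sub_zero]
  rw [← e0] at hw
  obtain ⟨α, ha, β, hb, e1⟩ := h.2.2.2.2 _ hg.1 hg.2.2.1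
  obtain ⟨γ, hc', δ, hd, e2⟩ := h.2.2.2.2 _ hg.2.1 hg.2.2.2.1
  have hv := hg.2.1
  generalize S.z b / S.z j - algebraMap ℂ K c.2 = v at hw e2 hv
  rw [e1] at hw
  have e3 := wd_exp S.D α β γ δ p q v e2
  generalize Wd S.D (α * p + β * q) v = w at hw e3
  have m := hw.2.2
  have w0 := hw.1
  have hX := m p h.1 q h.2.1
  have hu : vl S.z (Wd S.D p q / w) x.z ≠ 0 := fun h0 => by
    refine (IsLocalRing.maximalIdeal.isMaximal x.ctr.O).ne_top ((Ideal.eq_top_iff_one _).2 ?_)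
    have e : (1 : x.ctr.O) = (⟨α, ha⟩ * ⟨δ, hd⟩ - ⟨β, hb⟩ * ⟨γ, hc'⟩) * ⟨_, hX⟩ +
        (⟨α, ha⟩ * ⟨_, m p h.1 γ hc'⟩ + ⟨β, hb⟩ * ⟨_, m q h.2.1 γ hc'⟩ + ⟨_, m α ha v hv⟩) *
          ⟨p, h.1⟩ +
        (⟨α, ha⟩ * ⟨_, m p h.1 δ hd⟩ + ⟨β, hb⟩ * ⟨_, m q h.2.1 δ hd⟩ + ⟨_, m β hb v hv⟩) *
          ⟨q, h.2.1⟩ := by
      apply Subtype.ext
      push_cast
      field_simp
      linear_combination e3
    rw [e]
    exact Ideal.add_mem _ (Ideal.add_mem _ (Ideal.mul_mem_left _ _ ((B.max x ⟨_, hX⟩).2 h0))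
      (Ideal.mul_mem_left _ _ ((B.max x ⟨_, h.1⟩).2 h.2.2.1)))
      (Ideal.mul_mem_left _ _ ((B.max x ⟨_, h.2.1⟩).2 h.2.2.2.1))
  obtain ⟨u0, u1⟩ := (vl_ne B hX).1 hu
  have n0 : Wd S.D p q ≠ 0 := fun e => u0 (by rw [e, zero_div])
  refine ⟨n0, ⟨p, h.1, q, h.2.1, rfl⟩, fun f hf g hg' => ?_⟩
  rw [show Wd S.D f g / Wd S.D p q = Wd S.D f g / w * (Wd S.D p q / w)⁻¹ by field_simp]
  exact mul_mem (m f hf g hg') u1

end

/-- The boundary near `x` is the zero set of `p ^ s * q ^ c`. -/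
structure DD (d : GD K N) (x : PP d.z) (p q : K) (s c : ℕ) (g : PR (N + 1)) (e : ℕ) : Prop where
  gm : Gm d.toSf x p q
  p0 : p ≠ 0
  q0 : q ≠ 0
  s1 : s ≤ 1
  c1 : c ≤ 1
  g0 : eval x.z g ≠ 0
  dt : I2.RLog.Dt d.toSf d.Uo (p ^ s * q ^ c) g e
  mem : ∀ y : PP d.z, eval y.z g ≠ 0 → p ∈ y.ctr.O ∧ q ∈ y.ctr.O
  frm : ∀ w, GenO d.D x.ctr.O w → ∀ l, (p ^ s * q ^ c) ^ d.m * d.h l / w ^ d.m ∈ x.ctr.O

variable {d : GD K N} {x : PP d.z} {p q ε : K} {s c a b e : ℕ} {g : PR (N + 1)}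

theorem DD.sw (h : DD d x p q s c g e) : DD d x q p c s g e :=
  ⟨gm_sw h.gm, h.q0, h.p0, h.c1, h.s1, h.g0, by rw [mul_comm]; exact h.dt,
    fun y hy => (h.mem y hy).symm, by rw [mul_comm]; exact h.frm⟩

theorem dd (B : Br d.toSf) (x : PP d.z) : ∃ p q s c g e, DD d x p q s c g e := by
  obtain ⟨hR, -, -, t, r, g, e, hM, t0, hg, g0, hy, hp⟩ := d.ld.2.2.2.2.2.2.2 _ (B.cone x).2
  have t1 : ∀ i, (t i : K) ≠ 0 := fun i e => t0 i (Subtype.ext e)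
  have tO : ∀ i, (t i : K) ∈ x.ctr.O := fun i => (I2.RLog.lr B x _).1 (t i).2
  have eP : ∏ i ∈ r, (t i : K) =
      (t 0 : K) ^ (if 0 ∈ r then 1 else 0) * (t 1 : K) ^ (if 1 ∈ r then 1 else 0) := by
    rw [← Finset.prod_ite_mem_eq, Fin.prod_univ_two]
    congr 1 <;> split_ifs <;> simp
  obtain ⟨hm, hg'⟩ := I2.RLog.mx (I2.RLog.lr B x) t hM
  refine ⟨t 0, t 1, _, _, g, e, ⟨tO 0, tO 1, (B.max x _).1 (hm 0), (B.max x _).1 (hm 1),
    fun f hf h0 => ?_⟩, t1 0, t1 1, ?_, ?_, (eval_mk hg _).not.1 g0,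
    ⟨mul_ne_zero (pow_ne_zero _ (t1 0)) (pow_ne_zero _ (t1 1)), hg, fun y hy0 => ?_⟩,
    fun y hy0 => ?_, fun w hw l => by rw [← eP]; exact I2.RLog.plu B x hw (hp l)⟩
  · obtain ⟨α, β, e⟩ := hg' ⟨f, hf⟩ ((B.max x _).2 h0)
    exact ⟨α, α.2, β, β.2, congrArg Subtype.val e⟩
  · split_ifs <;> simp
  · split_ifs <;> simp
  · obtain ⟨a, b⟩ := hy _ (B.cone y).2 ((eval_mk hg _).not.2 hy0)
    rw [← eP]
    refine ⟨y.ctr.O.prod_mem fun i _ => (I2.RLog.lr B y _).1 (a i), ?_⟩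
    rw [← I2.RLog.lr B y, ← b]
    exact ⟨fun h => h.2, fun h => ⟨_, h⟩⟩
  · obtain ⟨a, -⟩ := hy _ (B.cone y).2 ((eval_mk hg _).not.2 hy0)
    exact ⟨(I2.RLog.lr B y _).1 (a 0), (I2.RLog.lr B y _).1 (a 1)⟩

theorem DD.v (B : Br d.toSf) (h : DD d x p q s c g e) (C : CC d.z) (i j : ℕ) :
    C.v (p ^ i * q ^ j) = i * C.v p + j * C.v q := by
  rw [B.g0.va.mul C _ _ (pow_ne_zero _ h.p0) (pow_ne_zero _ h.q0), I2.RLog.v_pow B.g0 C h.p0,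
    I2.RLog.v_pow B.g0 C h.q0]

/-- The parameter is a unit along the curves that are not in the boundary. -/
theorem DD.key (B : Br d.toSf) (h : DD d x p q s c g e) {C : CC d.z} (hC : CP C) (hx : x.On C)
    (hv : s * C.v p + c * C.v q ≤ 0) : C.v d.τ = 0 := by
  obtain ⟨y, y1, y2⟩ := (hC.inf.sdiff (I2.RLog.cof B hC h.dt
    (fun e => h.g0 (hx _ _ h.dt.hom e)) (by rwa [h.v B]))).nonempty
  have hU : y.z ∈ Cone d.Uo := by_contra fun e => y2 ⟨y1, e⟩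
  have u := d.un _ hU
  have m := (B.reg y _ _ (.refl _)).2 u.1
  have h1 := (B.g0.va.mem C _ d.t0).1 (y1.le m)
  have h2 := (B.g0.va.mem C _ (inv_ne_zero d.t0)).1 (y1.le ((vl_ne B m).1 u.2).2)
  rw [I2.RLog.v_inv B.g0 C d.t0] at h2
  omega

/-- The parameter is a unit times a monomial. -/
theorem DD.fact (hP : PrmStmt) (B : Br d.toSf) (P : ∀ C : CC d.z, CP C) (h : DD d x p q s c g e)
    (hz : Ze d x) : ∃ (ε : K) (a b : ℕ), (ε ∈ x.ctr.O ∧ vl d.z ε x.z ≠ 0) ∧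
      d.τ = ε * p ^ a * q ^ b ∧ (0 < a → s = 1) ∧ (0 < b → c = 1) ∧ 0 < a + b := by
  obtain ⟨C₀, x0, -, s0⟩ := (hP K N d.toSf B P).1 x p q h.gm
  obtain ⟨C₁, x1, -, s1⟩ := (hP K N d.toSf B P).1 x q p (gm_sw h.gm)
  have ne : C₀ ≠ C₁ := fun e => s1.res.2.1 (by rw [← e]; exact s0.res.1)
  have p0 := s0.eqn.2.1
  have q1 := s1.eqn.2.1
  have p1 := s0.eqn.2.2 C₁ x1 ne.symm
  have q0 := s1.eqn.2.2 C₀ x0 ne
  obtain ⟨a, ha⟩ := Int.eq_ofNat_of_zero_le ((B.g0.va.mem C₀ _ d.t0).1 (x0.le hz.1))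
  obtain ⟨b, hb⟩ := Int.eq_ofNat_of_zero_le ((B.g0.va.mem C₁ _ d.t0).1 (x1.le hz.1))
  have m0 : p ^ a * q ^ b ≠ 0 := mul_ne_zero (pow_ne_zero _ h.p0) (pow_ne_zero _ h.q0)
  have e0 := div_ne_zero d.t0 m0
  have hv : ∀ C : CC d.z, x.On C → C.v (d.τ / (p ^ a * q ^ b)) = 0 := fun C hx => by
    rw [I2.Adj.v_div B.g0.va C d.t0 m0, h.v B]
    by_cases c0 : C = C₀
    · rw [c0, p0, q0, ha]; ring
    by_cases c1 : C = C₁
    · rw [c1, p1, q1, hb]; ring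
    have a1 := s0.eqn.2.2 C hx c0
    have a2 := s1.eqn.2.2 C hx c1
    rw [h.key B (P C) hx (by rw [a1, a2]; simp), a1, a2]
    ring
  have hm := B.g0.reg x _ e0 fun C hx => (hv C hx).ge
  have hu := (vl_ne B hm).2 ((CCvA.unit_iff _ ⟨_, hm⟩).1 (I2.SpA.unit B.g0 x ⟨_, hm⟩ e0 hv))
  refine ⟨_, a, b, ⟨hm, hu⟩, by rw [mul_assoc, div_mul_cancel₀ _ m0], fun h0 => ?_, fun h0 => ?_,
    Nat.pos_of_ne_zero fun h0 => hu ?_⟩
  · by_contra hs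
    have := h.key B (P C₀) x0 (by rw [show s = 0 by have := h.s1; omega, q0]; simp)
    omega
  · by_contra hs
    have := h.key B (P C₁) x1 (by rw [show c = 0 by have := h.c1; omega, p1]; simp)
    omega
  · rw [show a = 0 by omega, show b = 0 by omega, pow_zero, pow_zero, one_mul, div_one]
    exact hz.2

theorem DD.la (B : Br d.toSf) (h : DD d x p q 1 c g e) (hu : ε ∈ x.ctr.O ∧ vl d.z ε x.z ≠ 0)
    (he : d.τ = ε * p ^ a * q ^ b) (ha : 0 < a) (hb : 0 < b → c = 1) : LA d x p q ε a b c := by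
  have hw := genO B h.gm
  refine ⟨h.gm, ha, h.c1, hb, hu, he, ?_, hw.1, fun l => by simpa using h.frm _ hw l,
    fun c1 C hx h0 => ?_⟩
  · obtain ⟨δ, δ0, hδ⟩ := I2.BrX.close (I2.BrX.ne x) h.dt.hom h.g0
    refine ⟨δ, δ0, fun y hy hd => ?_⟩
    obtain ⟨y', hp⟩ := B.pt y hy
    have g0 : eval y'.z g ≠ 0 := fun e =>
      (hδ y hy.1 ((hp.eval h.dt.hom).2 e)).not_gt hd
    obtain ⟨m1, m2⟩ := h.mem y' g0
    obtain ⟨m3, m4⟩ := h.dt.loc y' g0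
    have o := I2.BrX.on y'
    have r1 := (B.reg y' _ _ (.refl _)).1 m1
    have r2 := (B.reg y' _ _ (.refl _)).1 m2
    rw [pow_one] at m3 m4
    rw [hp.vl o r1, hp.vl o r2, ← (vl_pow o r2 c).2, ← (vl_mul o r1 (vl_pow o r2 c).1).2,
      vl_ne B m3, ← m4]
    exact ⟨fun k => ⟨mul_ne_zero h.p0 (pow_ne_zero _ h.q0), cone_pp hp.symm k⟩,
      fun k => cone_pp hp k.2⟩
  · refine (B.g0.fin.pt C g (Form.of h.dt.hom) fun e => h.g0 (hx _ _ h.dt.hom e)).subset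
      fun y hy => ⟨hy.1, by_contra fun g0 => ?_⟩
    have h1 := I2.RLog.vle B h.dt hy.1 g0 hy.2
    have h2 := (B.g0.va.mem C _ h.p0).1 (hx.le h.gm.1)
    have h3 := (B.g0.va.pos C _ h.q0 (hx.le h.gm.2.1)).2 h0
    rw [h.v B, c1] at h1
    omega

end RAlg

open RAlg in
theorem rowAlg : AlgOf := by
  intro hP K _ _ N d B P x hz
  obtain ⟨p, q, s, c, g, e, h⟩ := dd B x
  obtain ⟨ε, a, b, hu, he, h1, h2, h3⟩ := h.fact hP B P hz
  rcases Nat.eq_zero_or_pos a with ha | ha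
  · have hb : 0 < b := by omega
    obtain rfl := h2 hb
    exact ⟨q, p, ε, b, a, s, h.sw.la B hu (by rw [he, mul_right_comm]) hb h1⟩
  · obtain rfl := h1 ha
    exact ⟨p, q, ε, a, b, c, h.la B hu he ha h2⟩

end Pool.Agent.MP_c69980_ag.G3G
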