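import Pool.Agent.MP_c69980_ag.G3G.SpecA

/-!
The ports at one flag parametrise the fibre of the monomial.
-/

set_option autoImplicit false

noncomputable section

namespace Pool.Agent.MP_c69980_ag.G3G

open G3

namespace RAr

variable {M : Type} [MetricSpace M] {A : Amb M} {g e e' : ℕ}

lemma cov (g0 : 0 < g) (e0 : 0 < e) (hc : Nat.Coprime e e') {t x y : ℂ} (y0 : y ≠ 0)
    (h : x ^ (g * e) * y ^ (g * e') = tau A t) :
    ∃ k < g, ∃ w : ℂ, w ^ e = y ∧ x = rt A (g * e) k t / w ^ e' := by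
  have a0 := Nat.mul_pos g0 e0
  obtain ⟨v, rfl⟩ := IsAlgClosed.exists_pow_nat_eq y e0
  have v0 : v ≠ 0 := fun q => y0 (by rw [q, zero_pow e0.ne'])
  obtain ⟨m, -, hm⟩ := rt_ex (A := A) (t := t) (x := x * v ^ e') a0 (by rw [← h]; ring)
  obtain ⟨z, hz⟩ : ∃ z, z = Complex.exp (2 * Real.pi * Complex.I / (g * e : ℕ)) := ⟨_, rfl⟩
  have z1 : (z ^ g) ^ e = 1 := by
    rw [← pow_mul, hz]
    exact (Complex.isPrimitiveRoot_exp _ a0.ne').pow_eq_one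
  have z0 : z ≠ 0 := hz ▸ Complex.exp_ne_zero _
  obtain ⟨s, -, hs⟩ := Nat.exists_mul_mod_eq_of_coprime ((e - 1) * (m / g)) hc.symm e0.ne'
  have k : (z ^ g) ^ (m / g) * (z ^ g) ^ (e' * s) = 1 := by
    rw [pow_eq_pow_mod (e' * s) z1, hs, ← pow_eq_pow_mod _ z1, ← pow_add, ← one_add_mul,
      show 1 + (e - 1) = e by omega, pow_mul _ e, z1, one_pow]
  refine ⟨m % g, Nat.mod_lt _ g0, (z ^ g) ^ s * v, ?_, ?_⟩
  · rw [mul_pow, ← pow_mul, mul_comm s, pow_mul _ e, z1, one_pow, one_mul]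
  · have k2 : z ^ m = z ^ (m % g) * (z ^ g) ^ (m / g) := by
      rw [← pow_mul, ← pow_add, Nat.mod_add_div]
    rw [rt_eq, ← hz, k2] at hm
    rw [eq_div_iff (pow_ne_zero _ (mul_ne_zero (pow_ne_zero _ (pow_ne_zero _ z0)) v0)), rt_eq,
      ← hz, mul_pow, ← pow_mul _ s, mul_comm s]
    linear_combination (z ^ g) ^ (e' * s) * hm + z ^ (m % g) * rt A (g * e) 0 t * k

lemma sep (e0 : 0 < e) (hc : Nat.Coprime e e') {k k' : ℕ} (hk : k < g) (hk' : k' < g)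
    {t w w' : ℂ} (w0 : w ≠ 0) (h1 : w ^ e = w' ^ e)
    (h2 : rt A (g * e) k t / w ^ e' = rt A (g * e) k' t / w' ^ e') : k = k' ∧ w = w' := by
  have w1 : w' ≠ 0 := fun q => pow_ne_zero e w0 (by rw [h1, q, zero_pow e0.ne'])
  have h3 := congrArg (· ^ e) h2
  simp only [div_pow, rt_pow_mul e0, pow_right_comm _ e' e, h1] at h3
  obtain rfl := rt_inj hk hk'
    ((div_left_inj' (pow_ne_zero _ (pow_ne_zero _ w1))).1 h3)
  refine ⟨rfl, ?_⟩
  rw [div_eq_div_iff (pow_ne_zero _ w0) (pow_ne_zero _ w1), mul_right_inj' (rt_ne _ _ _)] at h2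
  have h4 : (w / w') ^ e = 1 := by rw [div_pow, h1, div_self (pow_ne_zero _ w1)]
  have h5 : (w / w') ^ e' = 1 := by rw [div_pow, h2, div_self (pow_ne_zero _ w0)]
  have h6 : (w / w') ^ e.gcd e' = 1 := pow_gcd_eq_one.2 ⟨h4, h5⟩
  rw [hc, pow_one] at h6
  exact (div_eq_one_iff_eq w1).1 h6

end RAr

theorem rowAr : ArStmt := fun _ _ _ G =>
  ⟨fun i q _ t y y0 h => by
    rw [← G.ge i q, ← G.ge' i q] at h
    rw [← G.ge i q]
    exact RAr.cov (G.g0 i q) (G.e0 i q) (G.cop i q) y0 h,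
  fun i q k hk k' hk' t w w' w0 h1 h2 => by
    rw [← G.ge i q] at h2
    exact RAr.sep (G.e0 i q) (G.cop i q) hk hk' w0 h1 h2⟩

end Pool.Agent.MP_c69980_ag.G3G
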