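import Pool.Agent.MP_c69980_ag.G3G.SpecA

/-!
The parametrisations of a component by the axes of the monomial charts.
-/

set_option autoImplicit false

namespace Pool.Agent.MP_c69980_ag.G3G

open Metric Filter Topology Set
open G3

namespace RAx

variable {M : Type} [MetricSpace M] {A : Amb M} (G : Geo A) {i : G.ι} {p p' : M} {w w' : ℂ}

lemma mb (hp : p ∈ G.Cb i) (hw : w ∈ ball (0 : ℂ) (G.ch i p).r) :
    ((0, w) : C2) ∈ ball (0 : C2) (G.ch i p).r :=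
  mem_b.2 ⟨by simpa using (G.ok i p hp).1.r0, mem_ball_zero_iff.1 hw⟩

lemma inj (hp : p ∈ G.Cb i) : InjOn (G.ax0 i p) (ball 0 (G.ch i p).r) := fun _ h1 _ h2 e =>
  congrArg Prod.snd ((G.ok i p hp).1.inj (mb G hp h1) (mb G hp h2) e)

lemma tr0 (hp : p ∈ G.Cb i) (hp' : p' ∈ G.Cb i) (hw : w ∈ ball (0 : ℂ) (G.ch i p).r)
    (hw' : w' ∈ ball (0 : ℂ) (G.ch i p').r) (e : G.ax0 i p w = G.ax0 i p' w') :
    ∃ θ : ℂ → ℂ, AnalyticAt ℂ θ w ∧ θ w = w' ∧ ∀ᶠ v in 𝓝 w, G.ax0 i p v = G.ax0 i p' (θ v) := by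
  obtain ⟨θ, h1, h2, h3⟩ := G.F.trans _ _ _ _ ((G.ok i p hp).1.ch _ (mb G hp hw))
    ((G.ok i p' hp').1.ch _ (mb G hp' hw')) e
  have ha : AnalyticAt ℂ (fun v : ℂ => ((0, v) : C2)) w := analyticAt_const.prod analyticAt_id
  have hb : AnalyticAt ℂ (fun v : ℂ => θ (0, v)) w := h1.comp_of_eq ha rfl
  refine ⟨fun v => (θ (0, v)).2, analyticAt_snd.comp hb, congrArg Prod.snd h2, ?_⟩
  have h4 : ∀ᶠ v in 𝓝 w, θ (0, v) ∈ ball (0 : C2) (G.ch i p').r :=
    hb.continuousAt.eventually_mem (isOpen_ball.mem_nhds (h2 ▸ mb G hp' hw'))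
  filter_upwards [ha.continuousAt.eventually h3, h4, isOpen_ball.mem_nhds hw] with v a1 a2 a3
  have a4 : (θ (0, v)).1 = 0 :=
    (G.ax i p' hp' _ a2).1 (a1 ▸ G.ax0_mem hp (mem_ball_zero_iff.1 a3))
  exact a1.trans (congrArg _ (Prod.ext a4 rfl))

end RAx

open RAx in
theorem rowAx : AxStmt := by
  intro M _ A G
  refine ⟨fun i p hp => ?_, fun i p hp => inj G hp, fun i p hp w hw h => ?_,
    fun i p hp w hw N hN => ?_, fun i p hp p' hp' w hw w' hw' e => ?_⟩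
  · exact (G.ok i p hp).1.contOn.comp (continuous_const.prodMk continuous_id).continuousOn
      fun w hw => mb G hp hw
  · refine ⟨G.ax0_mem hp (mem_ball_zero_iff.1 hw), fun hS => ?_⟩
    have h0 : w = 0 := congrArg Prod.snd (G.av i p hp _ (mb G hp hw) hS)
    refine h.elim (fun h => h h0) fun h => h ?_
    rw [h0, G.ax0_zero hp] at hS
    exact hS
  · have h1 := G.F.onto _ _ ((G.ok i p hp).1.ch _ (mb G hp hw)) _
      (inter_mem (continuous_snd.continuousAt.preimage_mem_nhds hN)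
        (isOpen_ball.mem_nhds (mb G hp hw)))
    have h2 : G.Cb i ⊆ G.F.W := fun q hq => (G.ok i q hq).2.2 ▸
      G.F.mem _ _ ((G.ok i q hq).1.ch 0 (mem_ball_self (G.ok i q hq).1.r0))
    filter_upwards [nhdsWithin_mono _ h2 h1, self_mem_nhdsWithin] with x ⟨q, hq, e⟩ hx
    have h3 : q.1 = 0 := (G.ax i p hp q hq.2).1 (e ▸ hx)
    exact ⟨q.2, hq.1, by rw [Geo.ax0, ← h3]; exact e⟩
  · obtain ⟨θ, h1, h2, h3⟩ := tr0 G hp hp' hw hw' e
    obtain ⟨θ', k1, k2, k3⟩ := tr0 G hp' hp hw' hw e.symm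
    refine ⟨θ, h1, h2, fun h0 => ?_, h3⟩
    subst h2
    have hc := k1.comp h1
    have h4 : θ' ∘ θ =ᶠ[𝓝 w] id := by
      filter_upwards [h3, h1.continuousAt.eventually k3, isOpen_ball.mem_nhds hw,
        hc.continuousAt.eventually_mem (isOpen_ball.mem_nhds
          (show (θ' ∘ θ) w ∈ ball (0 : ℂ) (G.ch i p).r by rwa [Function.comp_apply, k2]))] with v a1 a2 a3 a4
      exact inj G hp a4 a3 (a1.trans a2).symm
    have h5 := h4.deriv_eq
    rw [deriv_comp w k1.differentiableAt h1.differentiableAt, h0, mul_zero, deriv_id] at h5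
    exact zero_ne_one h5

end Pool.Agent.MP_c69980_ag.G3G
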