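import Pool.Agent.MP_c69980_ag.G3G.SpecB

/-!
The bad points of a uniformiser, of a coordinate and of the lifts of the generators.
-/

set_option autoImplicit false

noncomputable section

namespace Pool.Agent.MP_c69980_ag.G3G

open Set
open H60 H4 E1 G3
open I2 (Sf Br PP CC G0 CP Ov)
open Pool.Agent.MP_f3836a_nt.PK (Place Ctr Form)

namespace RBad

variable {K : Type} [Field K] [Algebra ℂ K] {N : ℕ} {ξ : Fin (N + 1) → K}

lemma ae (c : Ctr ℂ ξ) {f : K} (hf : f ∈ c.O) (p : Polynomial ℂ) :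
    Polynomial.aeval f p ∈ c.O := by
  have := Polynomial.aeval_algebraMap_apply K (⟨f, hf⟩ : c.O) p
  exact (show Polynomial.aeval f p = _ from this) ▸ (Polynomial.aeval (⟨f, hf⟩ : c.O) p).2

lemma res_ae (C : CC ξ) {f : K} (hf : f ∈ C.O) (p : Polynomial ℂ) :
    C.res (Polynomial.aeval f p) = Polynomial.aeval (C.res f) p := by
  induction p using Polynomial.induction_on with
  | C a => rw [Polynomial.aeval_C, Polynomial.aeval_C, C.res_const]
  | add p q hp hq => rw [map_add, map_add, C.res_add (ae _ hf _) (ae _ hf _), hp, hq]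
  | monomial n a h =>
    rw [pow_succ, ← mul_assoc, map_mul, map_mul (Polynomial.aeval _) _ Polynomial.X,
      Polynomial.aeval_X, Polynomial.aeval_X, C.res_mul (ae _ hf _) hf, h]

lemma inv_mem' (c : Ctr ℂ ξ) {b : K} (hb : b ∈ c.O)
    (h : (⟨b, hb⟩ : c.O) ∉ IsLocalRing.maximalIdeal c.O) : b ≠ 0 ∧ b⁻¹ ∈ c.O := by
  obtain ⟨u, hu⟩ := (IsLocalRing.notMem_maximalIdeal.1 h).exists_right_inv
  have e : b * u = 1 := by simpa using congrArg Subtype.val hu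
  exact ⟨left_ne_zero_of_mul_eq_one e, eq_inv_of_mul_eq_one_right e ▸ u.2⟩

lemma v_pow (g : G0 ξ) (C : CC ξ) {f : K} (hf : f ≠ 0) (d : ℕ) : C.v (f ^ d) = d * C.v f := by
  induction d with
  | zero =>
    have := g.va.mul C 1 1 one_ne_zero one_ne_zero
    rw [mul_one] at this
    rw [pow_zero]
    omega
  | succ d ih =>
    rw [pow_succ, g.va.mul C _ _ (pow_ne_zero _ hf) hf, ih]
    push_cast
    ring

lemma cop {F : Type} [Field F] [Algebra ℂ F] {z ζ : F} (h : ζ ∈ IntermediateField.adjoin ℂ {z}) :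
    ∃ r s : Polynomial ℂ, IsCoprime r s ∧ Polynomial.aeval z s ≠ 0 ∧
      ζ * Polynomial.aeval z s = Polynomial.aeval z r := by
  classical
  obtain ⟨r, s, e⟩ := (IntermediateField.mem_adjoin_simple_iff _ _).1 h
  by_cases h0 : Polynomial.aeval z s = 0
  · exact ⟨0, 1, isCoprime_one_right, by simp, by simp [e, h0]⟩
  obtain ⟨r', s', e1, e2, u⟩ := extract_gcd r s
  generalize gcd r s = g at e1 e2
  rw [e2, map_mul, mul_eq_zero, not_or] at h0
  refine ⟨r', s', (gcd_isUnit_iff _ _).1 u, h0.2, ?_⟩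
  rw [e, e1, e2, map_mul, map_mul, mul_div_mul_left _ _ h0.1, div_mul_cancel₀ _ h0.2]

lemma lift (g : G0 ξ) {C : CC ξ} (cp : CP C) {f : K} (hf : f ∈ C.O) {ζ : C.κ}
    (h : ζ ∈ IntermediateField.adjoin ℂ {C.res f}) : ∃ a ∈ C.O, C.res a = ζ ∧
      ∀ x : PP ξ, x.On C → f ∈ x.ctr.O → ∀ P, Ov C x P → ζ ∈ P.V → a ∈ x.ctr.O := by
  obtain ⟨r, s, ⟨u, v, c⟩, s0, e⟩ := cop h
  obtain ⟨b0, hb⟩ := inv_mem' C.toCtr (ae _ hf s) fun m => s0 (by
    rw [← res_ae C hf, C.res_of_mem ⟨_, ae _ hf s⟩]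
    exact (IsLocalRing.residue_eq_zero_iff _).2 m)
  have m := mul_mem (ae _ hf r) hb
  refine ⟨_, m, mul_right_cancel₀ s0 ?_, fun x hx hfx P hP hζ =>
    mul_mem (ae _ hfx r) (inv_mem' _ (ae _ hfx s) fun n => ?_).2⟩
  · rw [e, ← res_ae C hf, ← C.res_mul m (ae _ hf s), inv_mul_cancel_right₀ b0, res_ae C hf]
  · have k : ∀ p : Polynomial ℂ, Polynomial.aeval (C.res f) p ∈ P.V := fun p =>
      res_ae C hf p ▸ hP.2 (((g.va.loc x C hx).1 _).2 ⟨⟨_, ae _ hfx p⟩, rfl⟩)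
    have n2 := P.V.mem_nonunits_iff_or.1 ((cp.pa.zero P _).1 ((cp.max x P hP _).1 n))
    have c2 := congrArg (Polynomial.aeval (C.res f)) c
    rw [map_add, map_mul, map_mul, map_one, ← e, ← mul_assoc, ← add_mul] at c2
    rw [res_ae C hf, ← eq_inv_of_mul_eq_one_left c2] at n2
    exact n2.elim s0 fun n3 => n3 (add_mem (mul_mem (k u) hζ) (k v))

end RBad

open RBad in
theorem rowBad : BadStmt := by
  intro K _ _ N d br cp C hv
  have g := br.g0
  obtain ⟨x₀, h₀⟩ := g.cv.pt C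
  obtain ⟨π, hπ, hd, -⟩ := g.cv.on x₀ C h₀
  have v1 := (g.va.pow x₀ C h₀ π hπ hd).1
  have p0 : (π : K) ≠ 0 := fun e => hπ.ne_zero (Subtype.ext e)
  have q0 : (π : K) ^ (C.v d.τ).toNat ≠ 0 := pow_ne_zero _ p0
  have w0 := div_ne_zero d.t0 q0
  have w1 : C.v (d.τ / (π : K) ^ (C.v d.τ).toNat) = 0 := by
    have := g.va.mul C _ _ w0 q0
    rw [div_mul_cancel₀ _ q0, v_pow g C p0, v1] at this
    omega
  have w2 := (g.va.mem C _ w0).2 w1.ge
  have F3 := br.vfin C _ w2 fun e => ((g.va.pos C _ w0 w2).2 e).ne' w1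
  obtain ⟨z, hz⟩ : ∃ z : C.κ, ∀ ζ : C.κ, IntermediateField.adjoin ℂ {ζ} = ⊤ →
      IntermediateField.adjoin ℂ {z} = ⊤ := by
    by_cases h : ∃ ζ : C.κ, IntermediateField.adjoin ℂ {ζ} = ⊤
    · exact h.imp fun _ h _ _ => h
    · exact ⟨0, fun ζ e => absurd ⟨ζ, e⟩ h⟩
  obtain ⟨f, hf, rfl, F4⟩ : ∃ f ∈ C.O, C.res f = z ∧ {x : PP d.z | x.On C ∧ f ∉ x.ctr.O}.Finite := by
    obtain ⟨f, rfl⟩ := IsLocalRing.residue_surjective z
    by_cases h : C.res f = 0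
    · refine ⟨0, zero_mem _, ?_, finite_empty.subset fun x hx => hx.2 (zero_mem _)⟩
      rw [← C.res_of_mem, h]
      simpa using C.res_const 0
    · exact ⟨f, f.2, C.res_of_mem f, (br.vfin C f f.2 h).subset fun x hx => ⟨hx.1, fun k => hx.2 k.1⟩⟩
  have F1 := g.fin.pt C _ (Form.of (MvPolynomial.isHomogeneous_X ℂ C.idx)) (Ctr.idx_spec C.good).1
  have F2 := ((g.fin.v π).sdiff (t := {C})).biUnion fun C' h => g.two C C' (Ne.symm h.2)
  refine ⟨_, C.idx, π, ((F1.union F2).union F3).union F4, ⟨p0, v1⟩, fun x hx hZ => ?_,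
    fun ζ hζ => ?_⟩
  · simp only [mem_union, not_or] at hZ
    have o : ∀ C' : CC d.z, x.On C' → C' ≠ C → C'.v π = 0 := fun C' h n => by_contra fun e =>
      hZ.1.1.2 (mem_biUnion (x := C') ⟨e, n⟩ ⟨hx, h⟩)
    have t := by_contra fun n => hZ.1.2 ⟨hx, n⟩
    refine ⟨fun e => hZ.1.1.1 ⟨hx, by rwa [MvPolynomial.eval_X]⟩, g.reg x _ p0 fun C' h => ?_, o, t⟩
    by_cases e : C' = C
    · rw [e, v1]
      exact zero_le_one
    · exact (o C' h e).ge
  · obtain ⟨a, ha, e, k⟩ := lift g (cp C) hf (ζ := ζ) (hz ζ hζ ▸ IntermediateField.mem_top)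
    exact ⟨a, ha, e, fun x hx hZ => k x hx (by_contra fun n => hZ (Or.inr ⟨hx, n⟩))⟩

end Pool.Agent.MP_c69980_ag.G3G
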