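import Pool.Agent.MP_c69980_ag.G3G.SpecB
import Pool.Agent.MP_c69980_ag.I2.Max
import Pool.Agent.MP_c69980_ag.H4.M1

/-!
Row Cpt: curves are compact, and the points of the family converge to zeros of the parameter.
-/

set_option autoImplicit false

noncomputable section

namespace Pool.Agent.MP_c69980_ag.G3G

open MvPolynomial Metric Filter Topology Set
open H60 H4 E1 G3
open I2 (Sf Br PP CC CP)
open I2.MaxA (z_ne z_on)

namespace RCpt

variable {K : Type} [Field K] [Algebra ℂ K] {N : ℕ} {ξ : Fin (N + 1) → K}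

/-- Compactness of the surface. -/
theorem cpt0 (U : Ultrafilter (PP ξ)) :
    ∃ x : PP ξ, ∃ u : PP ξ → V (N + 1), (∀ y, Pp (u y) y.z) ∧ Tendsto u U (𝓝 x.z) := by
  let u : PP ξ → V (N + 1) := fun y => ((‖y.z‖ : ℂ))⁻¹ • y.z
  have n0 : ∀ y : PP ξ, (‖y.z‖ : ℂ) ≠ 0 := fun y => by simpa using z_ne y
  have hu : ∀ y, Pp (u y) y.z := fun y => Pp.smul (inv_ne_zero (n0 y)) _
  obtain ⟨w, hw, lim⟩ := (isCompact_sphere (0 : V (N + 1)) 1).ultrafilter_le_nhds (U.map u) (by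
    rw [le_principal_iff]
    refine mem_map.2 (univ_mem' fun y => ?_)
    simp [u, norm_smul, z_ne y])
  have lim : Tendsto u U (𝓝 w) := lim
  have w0 : w ≠ 0 := fun e => by simp [e] at hw
  obtain ⟨i, hi, hm⟩ := wellFounded_lt.has_min {i | w i ≠ 0} (Function.ne_iff.1 w0)
  have hi : w i ≠ 0 := hi
  have key : ∀ (d : ℕ) (G : PR (N + 1)), G.IsHomogeneous d → (∀ y : PP ξ, eval y.z G = 0) →
      eval ((w i)⁻¹ • w) G = 0 := fun d G hG h => by
    refine ((Pp.smul (inv_ne_zero hi) w).eval hG).2 ?_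
    refine tendsto_nhds_unique (((continuous_eval G).tendsto w).comp lim) ?_
    exact tendsto_const_nhds.congr fun y => (((hu y).eval hG).2 (h y)).symm
  refine ⟨⟨(w i)⁻¹ • w, ⟨i, by simp [hi], fun j hj => ?_⟩,
    fun d G hG h => key d G hG fun y => y.van d G hG h⟩, fun y => (w i)⁻¹ • u y,
    fun y => (Pp.smul (inv_ne_zero hi) _).trans (hu y), lim.const_smul _⟩
  have : w j = 0 := by_contra fun e => hm j e hj
  simp [this]

theorem prj_tend (hP : PrjStmt) {U : Filter (PP ξ)} {x : PP ξ} {u : PP ξ → V (N + 1)}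
    (hu : ∀ y, Pp (u y) y.z) (lim : Tendsto u U (𝓝 x.z)) :
    Tendsto (fun y : PP ξ => prj y.z) U (𝓝 (prj x.z)) :=
  (((hP _).2.1 _ (z_ne x)).tendsto.comp lim).congr fun y =>
    ((hP _).1 _ _ ((hu y).ne (z_ne y)) (z_ne y)).2 (hu y)

theorem part1 (hP : PrjStmt) (C : CC ξ) : IsCompact (cb C) := by
  refine isCompact_iff_ultrafilter_le_nhds.2 fun f hf => ?_
  have hf : cb C ∈ f := le_principal_iff.1 hf
  obtain ⟨-, x₀, -, -⟩ := f.nonempty_of_mem hf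
  have : Nonempty (PP ξ) := ⟨x₀⟩
  have ex : ∀ w ∈ cb C, ∃ x : PP ξ, x.On C ∧ prj x.z = w := fun w hw => hw
  choose! s h1 h2 using ex
  have ev : ∀ᶠ w in (f : Filter (Wg (N + 1))), w ∈ cb C := hf
  obtain ⟨x, hx, u, hu, lim⟩ := I2.MaxA.cpt C (f.map s) (ev.mono h1)
  refine ⟨prj x.z, ⟨x, hx, rfl⟩, ?_⟩
  have := (prj_tend hP hu lim).comp (tendsto_map (f := s))
  exact this.congr' (f₂ := id) (ev.mono h2)

theorem part2 (hP : PrjStmt) (d : GD K N) (B : Br d.toSf) {A : Amb (Wg (N + 1))}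
    {X : Set (Pt (N + 1))} {Φ : Fin 3 → Pt (N + 1) → V (N + 1) → ℂ} (L : Lnk d A X Φ)
    (f : Ultrafilter (ℂ × Wg (N + 1))) (hf : A.Out f) : ∃ x : PP d.z, Ze d x ∧ Cg f (prj x.z) := by
  have ex : ∀ w ∈ A.Zb, ∃ x : PP d.z, prj x.z = w.2 ∧ Reg d.z x.z d.τ ∧
      vl d.z d.τ x.z = tau A w.1 := by
    rw [L.amb.zb]
    rintro _ ⟨⟨t, y⟩, hy, rfl⟩
    obtain ⟨h1, h2, h3⟩ := (L.xl t y).1 hy
    obtain ⟨x, hx⟩ := B.pt y h1
    exact ⟨x, ((hP _).1 _ _ (z_ne x) h1.1).2 hx.symm, hx.symm.reg h2,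
      (hx.symm.vl (hx.on (z_on x)) h2).trans h3⟩
  obtain ⟨w₀, hw₀⟩ := hf.2.exists
  have : Nonempty (PP d.z) := ⟨(ex w₀ hw₀).choose⟩
  choose! s h1 h2 h3 using ex
  obtain ⟨x, u, hu, lim⟩ := cpt0 (f.map s)
  have lim' : Tendsto (fun w => u (s w)) f (𝓝 x.z) := lim.comp tendsto_map
  have on : ∀ w, On d.z (u (s w)) := fun w => (hu _).on (z_on _)
  have t0 : Tendsto (fun w => vl d.z d.τ (u (s w))) f (𝓝 0) :=
    (tau_tend.comp hf.1).congr' (hf.2.mono fun w hw =>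
      (((hu _).vl (z_on _) (h2 w hw)).trans (h3 w hw)).symm)
  have rg : Reg d.z x.z d.τ := by
    refine (d.mor _ (B.cone x)).resolve_right fun h => ?_
    obtain ⟨k1, k2⟩ := I2.MaxA.cont on (z_on x) lim' h
    have k3 := t0.mul k2
    rw [zero_mul] at k3
    refine zero_ne_one (tendsto_nhds_unique k3 (tendsto_const_nhds.congr' ?_))
    filter_upwards [k1, hf.2] with w a b
    rw [← (vl_mul (on w) ((hu _).reg (h2 w b)) a).2, mul_inv_cancel₀ d.t0, (vl_one (on w)).2]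
  refine ⟨x, ⟨(B.reg x _ _ (.refl _)).2 rg,
    tendsto_nhds_unique (I2.MaxA.cont on (z_on x) lim' rg).2 t0⟩, ?_⟩
  exact ((prj_tend hP hu lim).comp (tendsto_map (f := s))).congr' (hf.2.mono h1)

end RCpt

theorem rowCpt : CptOf := fun hP =>
  ⟨fun _ _ _ _ _ _ _ C => RCpt.part1 hP C,
    fun _ _ _ _ d B _ _ _ _ L f hf => RCpt.part2 hP d B L f hf⟩

end Pool.Agent.MP_c69980_ag.G3G
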