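import Pool.Agent.MP_c69980_ag.G3G.SpecA

/-!
The coefficients of the differentials `f / δ ^ μ` in the charts.
-/

set_option autoImplicit false

noncomputable section

namespace Pool.Agent.MP_c69980_ag.G3G

open Metric Filter Topology Set
open G3 Pool.Agent.MP_f3836a_nt.PK

namespace RDf

/-- The local form of order `n` on a punctured neighbourhood. -/
def LF (φ : ℂ → ℂ) (a : ℂ) (n : ℤ) : Prop :=
  ∃ H : ℂ → ℂ, AnalyticAt ℂ H a ∧ H a ≠ 0 ∧ ∀ᶠ w in 𝓝[≠] a, φ w = (w - a) ^ n * H w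

section

variable {φ ψ : ℂ → ℂ} {a : ℂ} {n m : ℤ}

lemma LF.uniq (h : LF φ a n) (h' : LF φ a m) : n = m :=
  AnalyticAt.unique_eventuallyEq_zpow_smul_nonzero (f := φ) h h'

lemma LF.cong (h : LF φ a n) (e : ∀ᶠ w in 𝓝[≠] a, ψ w = φ w) : LF ψ a n := by
  obtain ⟨H, h1, h2, h3⟩ := h
  exact ⟨H, h1, h2, (e.and h3).mono fun w hw => hw.1.trans hw.2⟩

lemma LF.mul (h : LF φ a n) (h' : LF ψ a m) : LF (fun w => φ w * ψ w) a (n + m) := by
  obtain ⟨H, h1, h2, h3⟩ := h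
  obtain ⟨K, k1, k2, k3⟩ := h'
  refine ⟨fun w => H w * K w, h1.mul k1, mul_ne_zero h2 k2, ?_⟩
  filter_upwards [h3, k3, self_mem_nhdsWithin] with w e1 e2 hw
  rw [e1, e2, zpow_add₀ (sub_ne_zero.2 hw)]
  ring

lemma LF.inv (h : LF φ a n) : LF (fun w => (φ w)⁻¹) a (-n) := by
  obtain ⟨H, h1, h2, h3⟩ := h
  refine ⟨fun w => (H w)⁻¹, h1.inv h2, inv_ne_zero h2, ?_⟩
  filter_upwards [h3] with w e1
  rw [e1, zpow_neg, mul_inv]

lemma LF.pow (h : LF φ a n) (k : ℕ) : LF (fun w => φ w ^ k) a (k * n) := by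
  obtain ⟨H, h1, h2, h3⟩ := h
  refine ⟨fun w => H w ^ k, h1.pow k, pow_ne_zero k h2, ?_⟩
  filter_upwards [h3] with w e1
  rw [e1, mul_pow, mul_comm (k : ℤ) n, zpow_mul, zpow_natCast]

lemma of_an (h : AnalyticAt ℂ φ a) (h0 : φ a ≠ 0) : LF φ a 0 :=
  ⟨φ, h, h0, Eventually.of_forall fun w => by simp⟩

lemma LF.near (h : LF φ a n) : ∀ᶠ w in 𝓝[≠] a, AnalyticAt ℂ φ w ∧ φ w ≠ 0 := by
  obtain ⟨H, h1, h2, h3⟩ := h
  have e1 : ∀ᶠ w in 𝓝[≠] a, AnalyticAt ℂ H w :=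
    h1.eventually_analyticAt.filter_mono nhdsWithin_le_nhds
  have e2 : ∀ᶠ w in 𝓝[≠] a, H w ≠ 0 :=
    (h1.continuousAt.eventually_ne h2).filter_mono nhdsWithin_le_nhds
  have e3 : ∀ᶠ w in 𝓝[≠] a, ∀ᶠ v in 𝓝 w, φ v = (v - a) ^ n * H v := by
    have h4 := eventually_nhdsWithin_iff.1 h3
    filter_upwards [h4.eventually_nhds.filter_mono nhdsWithin_le_nhds, self_mem_nhdsWithin]
      with w hw hwa
    filter_upwards [hw, isOpen_compl_singleton.mem_nhds hwa] with v hv hva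
    exact hv hva
  filter_upwards [e1, e2, e3, self_mem_nhdsWithin] with w a1 a2 a3 a4
  have hne : w - a ≠ 0 := sub_ne_zero.2 a4
  refine ⟨?_, ?_⟩
  · have hz : AnalyticAt ℂ (fun v : ℂ => (v - a) ^ n) w :=
      (analyticAt_id.sub analyticAt_const).fun_zpow hne
    exact (hz.mul a1).congr (a3.mono fun v hv => hv.symm)
  · rw [a3.self_of_nhds]
    exact mul_ne_zero (zpow_ne_zero n hne) a2

lemma lim_of {H : ℂ → ℂ} (h1 : AnalyticAt ℂ H a)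
    (h3 : ∀ᶠ w in 𝓝[≠] a, φ w = (w - a) ^ (0 : ℤ) * H w) : Tendsto φ (𝓝[≠] a) (𝓝 (H a)) := by
  refine (h1.continuousAt.tendsto.mono_left nhdsWithin_le_nhds).congr' ?_
  filter_upwards [h3] with w hw
  rw [hw, zpow_zero, one_mul]

lemma deriv_lf {H : ℂ → ℂ} (h1 : AnalyticAt ℂ H a) (h2 : H a ≠ 0)
    (h3 : ∀ᶠ w in 𝓝 a, φ w = (w - a) ^ (1 : ℤ) * H w) : LF (deriv φ) a 0 := by
  have e : φ =ᶠ[𝓝 a] fun w => (w - a) * H w := h3.mono fun w hw => by rw [hw, zpow_one]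
  have ha : AnalyticAt ℂ (fun w => (w - a) * H w) a :=
    (analyticAt_id.sub analyticAt_const).mul h1
  refine of_an (ha.congr e.symm).deriv ?_
  have hd : HasDerivAt (fun w => (w - a) * H w) (1 * H a + (a - a) * deriv H a) a :=
    ((hasDerivAt_id a).sub_const a).mul h1.differentiableAt.hasDerivAt
  rw [e.deriv_eq, hd.deriv]
  simpa using h2

end

variable {M : Type} [MetricSpace M] {A : Amb M} {F : Type} [Field F] [Algebra ℂ F]
  {G : Geo A} {i : G.ι} {pl : M → Place ℂ F}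

lemma ne_of_ord {P : Place ℂ F} {U : F} (h : P.ord U = 1) : U ≠ 0 := by
  rintro rfl
  simp [Place.ord, ordR] at h

lemma fn_zero (hF : Fn G i pl) (p : M) (w : ℂ) : fn G i pl p 0 w = 0 := by
  simpa [fn] using hF.con (pl (G.ax0 i p w)) 0

lemma fn_one (hF : Fn G i pl) (p : M) (w : ℂ) : fn G i pl p 1 w = 1 := by
  simpa [fn] using hF.con (pl (G.ax0 i p w)) 1

lemma fn_lf (hF : Fn G i pl) {p : M} (hp : p ∈ G.Cb i) {a : ℂ}
    (ha : a ∈ ball (0 : ℂ) (G.ch i p).r) {f : F} (hf : f ≠ 0) :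
    LF (fn G i pl p f) a ((pl (G.ax0 i p a)).ord f) := by
  obtain ⟨H, h1, h2, h3⟩ := hF.an p hp a ha f hf
  exact ⟨H, h1, h2, h3.filter_mono nhdsWithin_le_nhds⟩

variable (G i pl)

/-- The coefficient of the differential dual to `δ`. -/
def om (δ : Derivation ℂ F F) (x : F) (p : M) (w : ℂ) : ℂ :=
  deriv (fn G i pl p x) w * (fn G i pl p (δ x) w)⁻¹

/-- The naive coefficient. -/
def nv (δ : Derivation ℂ F F) (x : F) (μ : ℕ) (f : F) (p : M) (w : ℂ) : ℂ :=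
  fn G i pl p f w * om G i pl δ x p w ^ μ

open Classical in
/-- The coefficient. -/
def eta (δ : Derivation ℂ F F) (x : F) (u : Place ℂ F → F) (μ : ℕ) (f : F) (p : M) (a : ℂ) : ℂ :=
  if od δ u μ f (pl (G.ax0 i p a)) = 0 then limUnder (𝓝[≠] a) (nv G i pl δ x μ f p) else 0

variable {G i pl} {δ : Derivation ℂ F F} {x : F} {u : Place ℂ F → F} {μ : ℕ}

lemma om_lf (hF : Fn G i pl) (hD : Dr G i pl) (hx : δ x ≠ 0) {p : M} (hp : p ∈ G.Cb i) {a : ℂ}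
    (ha : a ∈ ball (0 : ℂ) (G.ch i p).r) {U : F} (hU : (pl (G.ax0 i p a)).ord U = 1) :
    LF (om G i pl δ x p) a (-(pl (G.ax0 i p a)).ord (δ U)) := by
  obtain ⟨H, h1, h2, h3⟩ := hF.an p hp a ha U (ne_of_ord hU)
  rw [hU] at h3
  have hd := deriv_lf h1 h2 h3
  have hxn := (fn_lf hF hp ha hx).near
  have hr := hD p hp a ha δ U x
  have hU0 : δ U ≠ 0 := by
    intro h0
    obtain ⟨w, ⟨e1, e2⟩, e3⟩ := ((hr.and hd.near).and hxn).exists
    rw [h0, fn_zero hF, mul_zero] at e1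
    exact mul_ne_zero e2.2 e3.2 e1
  have hl := hd.mul (fn_lf hF hp ha hU0).inv
  rw [zero_add] at hl
  refine hl.cong ?_
  filter_upwards [hr, hxn, (fn_lf hF hp ha hU0).near] with w e1 e2 e3
  have b2 := e2.2
  have b3 := e3.2
  rw [om, mul_inv_eq_iff_eq_mul₀ b2, mul_right_comm, e1, mul_inv_cancel_right₀ b3]

lemma nv_lf (hF : Fn G i pl) (hD : Dr G i pl) (hx : δ x ≠ 0)
    (hu : ∀ P : Place ℂ F, P.ord (u P) = 1)
    {p : M} (hp : p ∈ G.Cb i) {a : ℂ} (ha : a ∈ ball (0 : ℂ) (G.ch i p).r) {f : F}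
    (hf : f ≠ 0) : LF (nv G i pl δ x μ f p) a (od δ u μ f (pl (G.ax0 i p a))) := by
  have h := (fn_lf hF hp ha hf).mul ((om_lf hF hD hx hp ha (hu _)).pow μ)
  rw [mul_neg, ← sub_eq_add_neg] at h
  exact h

lemma eta_eq (hF : Fn G i pl) (hD : Dr G i pl) (hx : δ x ≠ 0)
    (hu : ∀ P : Place ℂ F, P.ord (u P) = 1)
    {p : M} (hp : p ∈ G.Cb i) {a : ℂ} (ha : a ∈ ball (0 : ℂ) (G.ch i p).r) {f : F}
    (hf : f ≠ 0) : ∀ᶠ w in 𝓝[≠] a, eta G i pl δ x u μ f p w = nv G i pl δ x μ f p w := by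
  have hb : ∀ᶠ w in 𝓝[≠] a, w ∈ ball (0 : ℂ) (G.ch i p).r :=
    mem_nhdsWithin_of_mem_nhds (isOpen_ball.mem_nhds ha)
  filter_upwards [hb, (nv_lf (μ := μ) hF hD hx hu hp ha hf).near] with w hw hn
  have h0 := (nv_lf (μ := μ) hF hD hx hu hp hw hf).uniq (of_an hn.1 hn.2)
  rw [eta, if_pos h0]
  exact (hn.1.continuousAt.tendsto.mono_left nhdsWithin_le_nhds).limUnder_eq

lemma eta_loc (hF : Fn G i pl) (hD : Dr G i pl) (hx : δ x ≠ 0)
    (hu : ∀ P : Place ℂ F, P.ord (u P) = 1)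
    {p : M} (hp : p ∈ G.Cb i) {a : ℂ} (ha : a ∈ ball (0 : ℂ) (G.ch i p).r) {f : F}
    (hf : f ≠ 0) : ∃ H : ℂ → ℂ, AnalyticAt ℂ H a ∧ H a ≠ 0 ∧ ∀ᶠ w in 𝓝 a,
      eta G i pl δ x u μ f p w = (w - a) ^ od δ u μ f (pl (G.ax0 i p a)) * H w := by
  obtain ⟨H, h1, h2, h3⟩ := nv_lf (μ := μ) hF hD hx hu hp ha hf
  refine ⟨H, h1, h2, ?_⟩
  rw [← nhdsNE_sup_pure, eventually_sup, eventually_pure]
  refine ⟨?_, ?_⟩
  · filter_upwards [eta_eq (μ := μ) hF hD hx hu hp ha hf, h3] with w e1 e2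
    exact e1.trans e2
  · by_cases h0 : od δ u μ f (pl (G.ax0 i p a)) = 0
    · rw [eta, if_pos h0, h0, zpow_zero, one_mul]
      rw [h0] at h3
      exact (lim_of h1 h3).limUnder_eq
    · rw [eta, if_neg h0, sub_self, zero_zpow _ h0, zero_mul]

lemma nv_tr (hF : Fn G i pl) (hx : δ x ≠ 0) {p p' : M} (hp' : p' ∈ G.Cb i) {w : ℂ} {θ : ℂ → ℂ}
    (hθ : AnalyticAt ℂ θ w) (hw : θ w ∈ ball (0 : ℂ) (G.ch i p').r) (hd : deriv θ w ≠ 0)
    (he : ∀ᶠ v in 𝓝 w, G.ax0 i p v = G.ax0 i p' (θ v)) (f : F) :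
    ∀ᶠ v in 𝓝[≠] w, nv G i pl δ x μ f p v = nv G i pl δ x μ f p' (θ v) * deriv θ v ^ μ := by
  have hx0 : x ≠ 0 := by
    rintro rfl
    exact hx (map_zero δ)
  have ht := hθ.differentiableAt.hasDerivAt.tendsto_nhdsNE hd
  filter_upwards [ht.eventually (fn_lf hF hp' hw hx0).near,
    he.eventually_nhds.filter_mono nhdsWithin_le_nhds,
    hθ.eventually_analyticAt.filter_mono nhdsWithin_le_nhds] with v e1 e2 e3
  have e4 : ∀ g : F, fn G i pl p g v = fn G i pl p' g (θ v) := fun g => by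
    rw [fn, fn, e2.self_of_nhds]
  have e5 : fn G i pl p x =ᶠ[𝓝 v] fn G i pl p' x ∘ θ := e2.mono fun z hz => by
    simp only [Function.comp, fn, hz]
  have e6 : deriv (fn G i pl p x) v = deriv (fn G i pl p' x) (θ v) * deriv θ v := by
    rw [e5.deriv_eq, deriv_comp v e1.1.differentiableAt e3.differentiableAt]
  rw [nv, nv, om, om, e4, e4, e6]
  ring

lemma eta_tr (hF : Fn G i pl) (hD : Dr G i pl) (hx : δ x ≠ 0)
    (hu : ∀ P : Place ℂ F, P.ord (u P) = 1)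
    {p p' : M} (hp' : p' ∈ G.Cb i) {w : ℂ} {θ : ℂ → ℂ}
    (hθ : AnalyticAt ℂ θ w) (hw : θ w ∈ ball (0 : ℂ) (G.ch i p').r) (hd : deriv θ w ≠ 0)
    (he : ∀ᶠ v in 𝓝 w, G.ax0 i p v = G.ax0 i p' (θ v)) {f : F} (hf : f ≠ 0) :
    eta G i pl δ x u μ f p w = eta G i pl δ x u μ f p' (θ w) * deriv θ w ^ μ := by
  have e0 := he.self_of_nhds
  by_cases h0 : od δ u μ f (pl (G.ax0 i p' (θ w))) = 0
  · obtain ⟨H, h1, -, h3⟩ := nv_lf (μ := μ) hF hD hx hu hp' hw hf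
    rw [h0] at h3
    have l1 := lim_of h1 h3
    have ht := hθ.differentiableAt.hasDerivAt.tendsto_nhdsNE hd
    have l2 : Tendsto (fun v => deriv θ v ^ μ) (𝓝[≠] w) (𝓝 (deriv θ w ^ μ)) :=
      (hθ.deriv.continuousAt.tendsto.mono_left nhdsWithin_le_nhds).pow μ
    have l3 := ((l1.comp ht).mul l2).congr'
      ((nv_tr (μ := μ) hF hx hp' hθ hw hd he f).mono fun v hv => hv.symm)
    rw [eta, eta, e0, if_pos h0, if_pos h0, l1.limUnder_eq]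
    exact l3.limUnder_eq
  · rw [eta, eta, e0, if_neg h0, if_neg h0, zero_mul]

end RDf

open RDf in
theorem rowDf : DfStmt := by
  intro M _ A G i F _ _ pl _ _ hF hD δ u μ hδ hu
  obtain ⟨x, hx⟩ : ∃ x, δ x ≠ 0 := by
    by_contra h
    push Not at h
    exact hδ (Derivation.ext h)
  refine ⟨eta G i pl δ x u μ, ?_, ?_, ?_⟩
  · intro f hf p hp a ha
    exact eta_loc hF hD hx hu hp ha hf
  · intro f hf p _ p' hp' w _ θ hθ hw hd he
    exact eta_tr hF hD hx hu hp' hθ hw hd he hf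
  · intro f hf p hp a ha
    filter_upwards [eta_eq (μ := μ) hF hD hx hu hp ha hf,
      eta_eq (μ := μ) hF hD hx hu hp ha one_ne_zero] with w e1 e2
    rw [e1, e2, nv, nv, fn_one hF, one_mul]

end Pool.Agent.MP_c69980_ag.G3G
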