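import Pool.Agent.MP_c69980_ag.G3G.SpecA

/-!
Functions of the function field of a component in the charts.
-/

set_option autoImplicit false

noncomputable section

namespace Pool.Agent.MP_c69980_ag.G3G

open Metric Filter Topology Set
open G3 Pool.Agent.MP_f3836a_nt.PK

namespace RFn

variable {F : Type} [Field F] [Algebra ℂ F]

lemma ev_of {P : Place ℂ F} {f : F} (h : f ∈ P.V) : ev P f = P.val f := if_pos h

lemma hom (h : PlA ℂ F) (P : Place ℂ F) (f g : F) (hf : f ∈ P.V) (hg : g ∈ P.V) :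
    ev P (f + g) = ev P f + ev P g ∧ ev P (f * g) = ev P f * ev P g := by
  obtain ⟨χ, h1, -⟩ := h.hom P
  rw [ev_of hf, ev_of hg, ev_of (add_mem hf hg), ev_of (mul_mem hf hg), ← h1 ⟨f, hf⟩,
    ← h1 ⟨g, hg⟩, ← map_add, ← map_mul]
  exact ⟨(h1 (⟨f, hf⟩ + ⟨g, hg⟩)).symm, (h1 (⟨f, hf⟩ * ⟨g, hg⟩)).symm⟩

lemma zero (h : PlA ℂ F) (P : Place ℂ F) (f : F) (f0 : f ≠ 0) : ev P f = 0 ↔ P.ord f ≠ 0 := by
  by_cases hf : f ∈ P.V
  · have h1 := (h.mem P f f0).1 hf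
    rw [ev_of hf, ← h.val P f hf 0, map_zero, sub_zero, Place.Zero, or_iff_right f0]
    omega
  · have h1 := (h.mem P f f0).not.1 hf
    exact iff_of_true (if_neg hf) (by omega)

end RFn

theorem rowFn : FnStmt := by
  intro M _ A G i F _ _ pl hA hD
  refine ⟨fun p hp w₀ hw f f0 => ?_, fun p hp w₀ hw T hT => ?_, RFn.hom hD.pa, fun P s => ?_,
    RFn.zero hD.pa⟩
  · have hp' := G.ax0_mem hp (mem_ball_zero_iff.1 hw)
    obtain ⟨θ, t1, t2, t3, t4⟩ := hA.tr i p hp _ hp' w₀ hw 0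
      (mem_ball_self (G.ok i _ hp').1.r0) (G.ax0_zero hp').symm
    obtain ⟨U, u1, u2, u3⟩ := (t1.analyticOrderAt_eq_natCast (n := 1)).1
      (t1.analyticOrderAt_eq_one_of_zero_deriv_ne_zero t2 t3)
    obtain ⟨H, h1, h2, h3⟩ := hD.an _ hp' f f0
    have c : Tendsto θ (𝓝 w₀) (𝓝 0) := t2 ▸ t1.continuousAt.tendsto
    refine ⟨fun w => U w ^ (pl (G.ax0 i p w₀)).ord f * H (θ w),
      (u1.zpow u2).mul (h1.comp_of_eq t1 t2),
      mul_ne_zero (zpow_ne_zero _ u2) (by rwa [t2]), ?_⟩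
    filter_upwards [t4, u3, c.eventually h3] with w w1 w2 w3
    rw [fn, w1, w3, ← mul_assoc, ← mul_zpow, ← smul_eq_mul (w - w₀), ← pow_one (w - w₀), ← w2]
  · have hB : {w ∈ ball (0 : ℂ) (G.ch i p).r | pl (G.ax0 i p w) ∈ T}.Finite :=
      Set.Finite.of_injOn (f := fun w => pl (G.ax0 i p w)) (fun w h => h.2)
        (fun w h w' h' e => hA.inj i p hp h.1 h'.1 (hD.bij.injOn
          (G.ax0_mem hp (mem_ball_zero_iff.1 h.1)) (G.ax0_mem hp (mem_ball_zero_iff.1 h'.1)) e)) hT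
    filter_upwards [nhdsNE_le_cofinite w₀ hB.compl_mem_cofinite,
      nhdsWithin_le_nhds (isOpen_ball.mem_nhds hw)] with w w1 w2 w3
    exact w1 ⟨w2, w3⟩
  · rw [RFn.ev_of (P.const s)]
    exact (hD.pa.hom P).choose_spec.2 s

end Pool.Agent.MP_c69980_ag.G3G
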