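import Pool.Agent.MP_c69980_ag.G3G.SpecB
import Pool.Agent.MP_c69980_ag.G3G.RFn
import Pool.Agent.MP_c69980_ag.I2.Max

/-!
The dictionary between the points of a component and the places of its function field.
-/

set_option autoImplicit false

noncomputable section

namespace Pool.Agent.MP_c69980_ag.G3G

open MvPolynomial Metric Filter Topology Set
open H60 H4 E1 G3
open I2 (Sf Br Gm Par Sp PP CC G0 CP Ov GenO)
open I2.MaxA (z_ne z_on res_sub vl_sub const_mem)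
open Pool.Agent.MP_f3836a_nt.PK (Place IsFF PlA PlB)

namespace RDic

variable {K : Type} [Field K] [Algebra ℂ K] {N : ℕ}

lemma val {S : Sf K N} (B : Br S) {C : CC S.z} (c : CP C) {x : PP S.z} {P : Place ℂ C.κ}
    (h : Ov C x P) {a : K} (ha : a ∈ x.ctr.O) :
    C.res a ∈ P.V ∧ ev P (C.res a) = vl S.z a x.z := by
  have m : C.res a ∈ P.V := h.2 (((B.g0.va.loc x C h.1).1 _).2 ⟨⟨a, ha⟩, rfl⟩)
  refine ⟨m, ?_⟩
  rw [RFn.ev_of m, ← c.pa.val P _ m, ← C.res_const,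
    ← res_sub C (h.1.le ha) (h.1.le (const_mem B x _))]
  refine (c.max x P h ⟨_, sub_mem ha (const_mem B x _)⟩).1 ((B.max x _).2 ?_)
  exact (vl_sub B x ha (const_mem B x _)).trans (by rw [(vl_const (z_on x) _).2, sub_self])

lemma loc (hP : PrjStmt) {d : GD K N} (B : Br d.toSf) {x : PP d.z} {C : CC d.z}
    {T : MC (Wg (N + 1))} (h : Ad d x C T) {a : K} (ha : a ∈ x.ctr.O) (a0 : C.res a ≠ 0) :
    ∃ (e : ℕ) (H : ℂ → ℂ), C.ordAt x (C.res a) = e ∧ AnalyticAt ℂ H 0 ∧ H 0 ≠ 0 ∧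
      ∀ᶠ w in 𝓝 (0 : ℂ), ∃ y : PP d.z, y.On C ∧ T.Y (0, w) = prj y.z ∧ a ∈ y.ctr.O ∧
        vl d.z a y.z = w ^ e * H w := by
  obtain ⟨p, q, ε, g, J, sp, -, -, -, bi, r0, hY, J1, J2, J3⟩ := h.ex
  obtain ⟨e, α, β, m1, m2, α0, ea, o⟩ := sp.ord a ha a0
  have c0 : AnalyticAt ℂ (fun w : ℂ => ((0, w) : C2)) 0 := analyticAt_const.prod analyticAt_id
  have an : AnalyticAt ℂ (fun w : ℂ => g (0, w)) 0 :=
    AnalyticAt.comp (g := g) (bi.an _ (mem_ball_self r0)) c0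
  have bl : ∀ᶠ w in 𝓝 (0 : ℂ), ((0, w) : C2) ∈ ball (0 : C2) T.r :=
    c0.continuousAt.eventually (ball_mem_nhds _ r0)
  have on : ∀ᶠ w in 𝓝 (0 : ℂ), On d.z (g (0, w)) := bl.mono fun w hw =>
    Cone.on d.gen (bi.mem _ hw)
  have pp : ∀ (w : ℂ) (y : PP d.z), ((0, w) : C2) ∈ ball (0 : C2) T.r → T.Y (0, w) = prj y.z →
      Pp (g (0, w)) y.z := fun w y hw k =>
    ((hP _).1 _ _ (bi.mem _ hw).1 (z_ne y)).1 ((hY _).symm.trans k)
  have p0 : Pp (g (0, 0)) x.z := pp 0 x (mem_ball_self r0) h.zero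
  have r : ∀ f ∈ x.ctr.O, AnalyticAt ℂ (fun w : ℂ => vl d.z f (g (0, w))) 0 ∧
      ∀ᶠ w in 𝓝 (0 : ℂ), Reg d.z (g (0, w)) f := fun f hf =>
    vl_an (G := fun w : ℂ => g (0, w)) an on ((B.reg x _ f p0).1 hf)
  refine ⟨e, fun w => J w ^ e * vl d.z α (g (0, w)), o, (J1.pow e).mul (r α m1).1,
    mul_ne_zero (pow_ne_zero _ J2) ?_, ?_⟩
  · rwa [p0.vl (z_on x) ((B.reg x _ α (.refl _)).1 m1)]
  filter_upwards [bl, on, (r α m1).2, (r β m2).2, (r p sp.gm.1).2, (r q sp.gm.2.1).2, J3]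
    with w hw ho k1 k2 k3 k4 k5
  obtain ⟨y, hy, ey⟩ := (h.ax _ hw).2 rfl
  have py := pp w y hw ey.symm
  have u := vl_mul ho k1 (vl_pow ho k4 e).1
  have v := vl_mul ho k2 k3
  have s := vl_add ho u.1 v.1
  have z : vl d.z p (g (0, w)) = 0 := (py.symm.vl ho k3).symm.trans
    (B.von y C p hy ((B.reg y _ p py).2 k3) sp.res.1)
  rw [← ea] at s
  refine ⟨y, hy, ey.symm, (B.reg y _ a py).2 s.1, ?_⟩
  rw [py.symm.vl ho s.1, s.2, u.2, v.2, z, (vl_pow ho k4 e).2, k5]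
  ring

end RDic

theorem rowDic : DicOf := by
  intro hP K _ _ N d B hc A X Ψ _ G cv i g
  have c := hc (cv i)
  have xu : ∀ x y : PP d.z, prj x.z = prj y.z → x = y := fun x y e =>
    B.uniq _ _ (((hP _).1 _ _ (z_ne x) (z_ne y)).1 e)
  have ex : ∀ w : Wg (N + 1), ∃ P, ∀ x : PP d.z, x.On (cv i) → w = prj x.z → Ov (cv i) x P := by
    intro w
    by_cases h : ∃ x : PP d.z, x.On (cv i) ∧ w = prj x.z
    · obtain ⟨x, hx, rfl⟩ := h
      obtain ⟨P, k⟩ := c.pt x hx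
      exact ⟨P, fun y _ e => xu _ _ e ▸ k⟩
    · obtain ⟨x, hx⟩ := B.g0.cv.pt (cv i)
      obtain ⟨P, -⟩ := c.pt x hx
      exact ⟨P, fun y hy e => (h ⟨y, hy, e⟩).elim⟩
  choose pl hpl using ex
  have ov : ∀ x : PP d.z, x.On (cv i) → Ov (cv i) x (pl (prj x.z)) := fun x hx => hpl _ x hx rfl
  have eV : ∀ (x : PP d.z) P, Ov (cv i) x P → P.V.toSubring = (cv i).loc x := fun x P h =>
    c.one x P h (g.ad i x h.1).dvr
  have od : ∀ x : PP d.z, x.On (cv i) → ∀ f, (pl (prj x.z)).ord f = (cv i).ordAt x f :=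
    fun x hx f => congrArg (fun R => MP_f3836a_nt.PK.ordR R f) (eV x _ (ov x hx))
  refine ⟨pl, ⟨c.ff, c.pa, c.pb, ⟨fun _ _ => trivial, ?_, fun P _ => ?_⟩, ?_⟩,
    ov, fun x hx a ha => (RDic.val B c (ov x hx) ha).2, od⟩
  · rw [g.cb]
    rintro _ ⟨x, hx, rfl⟩ _ ⟨y, hy, rfl⟩ e
    rw [c.uniq x y _ (ov x hx) (e ▸ ov y hy)]
  · obtain ⟨x, hx⟩ := c.ex P
    refine ⟨prj x.z, g.cb i ▸ ⟨x, hx.1, rfl⟩, Place.ext (ValuationSubring.toSubring_injective ?_)⟩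
    exact (eV x _ (ov x hx.1)).trans (eV x _ hx).symm
  rw [g.cb]
  rintro _ ⟨x, hx, rfl⟩
  have key : ∀ f : (cv i).κ, f ≠ 0 → 0 ≤ (pl (prj x.z)).ord f → ∃ H : ℂ → ℂ, AnalyticAt ℂ H 0 ∧
      H 0 ≠ 0 ∧ ∀ᶠ w in 𝓝 (0 : ℂ), f ∈ (pl (G.ax0 i (prj x.z) w)).V ∧
        ev (pl (G.ax0 i (prj x.z) w)) f = w ^ (pl (prj x.z)).ord f * H w := by
    intro f f0 hf
    have m : f ∈ (pl (prj x.z)).V.toSubring := (c.pa.mem _ f f0).2 hf
    rw [eV x _ (ov x hx)] at m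
    obtain ⟨a, rfl⟩ := ((B.g0.va.loc x _ hx).1 f).1 m
    obtain ⟨e, H, o, h1, h2, h3⟩ := RDic.loc hP B (g.ad i x hx) a.2 f0
    refine ⟨H, h1, h2, h3.mono fun w ⟨y, hy, e1, m1, e2⟩ => ?_⟩
    rw [Geo.ax0, e1, od x hx, o, zpow_natCast, ← e2]
    exact RDic.val B c (ov y hy) m1
  intro f f0
  by_cases hf : 0 ≤ (pl (prj x.z)).ord f
  · obtain ⟨H, h1, h2, h3⟩ := key f f0 hf
    exact ⟨H, h1, h2, h3.mono fun w k => k.2⟩
  have f1 := inv_ne_zero f0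
  have inv : ∀ P : Place ℂ (cv i).κ, P.ord f⁻¹ = -P.ord f := fun P => by
    have a := c.pa.mul P f f⁻¹ f0 f1
    have b := c.pa.con P 1
    rw [map_one] at b
    rw [mul_inv_cancel₀ f0, b] at a
    omega
  obtain ⟨H, h1, h2, h3⟩ := key f⁻¹ f1 (by rw [inv]; omega)
  refine ⟨fun w => (H w)⁻¹, h1.inv h2, inv_ne_zero h2, ?_⟩
  filter_upwards [h3, h1.continuousAt.eventually_ne h2] with w k k0
  rcases eq_or_ne w 0 with rfl | w0
  · have e : G.ax0 i (prj x.z) 0 = prj x.z := (g.ad i x hx).zero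
    rw [e, (RFn.zero c.pa _ f f0).2 (by omega), zero_zpow _ (by omega), zero_mul]
  · have n : ev (pl (G.ax0 i (prj x.z) w)) f⁻¹ ≠ 0 :=
      k.2 ▸ mul_ne_zero (zpow_ne_zero _ w0) k0
    have o := (RFn.zero c.pa _ _ f1).not.1 n
    rw [inv] at o
    have a := (RFn.hom c.pa _ f f⁻¹ ((c.pa.mem _ f f0).2 (by omega)) k.1).2
    have b := (c.pa.hom (pl (G.ax0 i (prj x.z) w))).choose_spec.2 1
    rw [map_one] at b
    rw [mul_inv_cancel₀ f0, RFn.ev_of (one_mem _), b] at a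
    rw [eq_inv_of_mul_eq_one_left a.symm, k.2, inv, zpow_neg, mul_inv, inv_inv]

end Pool.Agent.MP_c69980_ag.G3G
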