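import Pool.Agent.MP_c69980_ag.G3G.SpecA

/-!
Differentials of the function field are differentials on the skeleton.
-/

set_option autoImplicit false

noncomputable section

namespace Pool.Agent.MP_c69980_ag.G3G

open Metric Filter Topology Set
open G3 Pool.Agent.MP_f3836a_nt.PK

namespace RDif

/-- The derivative of the power map. -/
def dp (n : ℕ) (w : ℂ) : ℂ := n * w ^ (n - 1)

lemma hd (n : ℕ) (w : ℂ) : HasDerivAt (fun v : ℂ => v ^ n) (dp n w) w := hasDerivAt_pow n w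

lemma pw_an (n : ℕ) (w : ℂ) : AnalyticAt ℂ (fun v : ℂ => v ^ n) w := analyticAt_id.pow n

lemma dp_an (n : ℕ) (w : ℂ) : AnalyticAt ℂ (dp n) w := analyticAt_const.mul (pw_an _ w)

/-- A local root. -/
lemma root {n : ℕ} {w : ℂ} (h : dp n w ≠ 0) : ∃ ψ : ℂ → ℂ, AnalyticAt ℂ ψ (w ^ n) ∧
    ψ (w ^ n) = w ∧ ∀ᶠ y in 𝓝 (w ^ n), ψ y ^ n = y := by
  have h' : deriv (fun v : ℂ => v ^ n) w ≠ 0 := by rwa [(hd n w).deriv]
  exact ⟨_, (pw_an n w).analyticAt_localInverse h', HasStrictFDerivAt.localInverse_apply_image ..,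
    HasStrictDerivAt.eventually_right_inverse ..⟩

/-- The lift of a transition map to the roots. -/
lemma lift {n n' : ℕ} {w w' : ℂ} {θ : ℂ → ℂ} (h : dp n' w' ≠ 0) (a : AnalyticAt ℂ θ (w ^ n))
    (e : θ (w ^ n) = w' ^ n') : ∃ φ : ℂ → ℂ, AnalyticAt ℂ φ w ∧ φ w = w' ∧ ∀ᶠ v in 𝓝 w,
      φ v ^ n' = θ (v ^ n) ∧ dp n' (φ v) * deriv φ v = deriv θ (v ^ n) * dp n v := by
  obtain ⟨ψ, a1, e1, h1⟩ := root h
  have a2 : AnalyticAt ℂ (fun v => θ (v ^ n)) w := a.comp_of_eq (pw_an n w) rfl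
  have a3 : AnalyticAt ℂ (fun v => ψ (θ (v ^ n))) w := a1.comp_of_eq a2 e
  have h2 : ∀ᶠ v in 𝓝 w, ψ (θ (v ^ n)) ^ n' = θ (v ^ n) :=
    (e ▸ a2.continuousAt.tendsto : Tendsto _ _ (𝓝 (w' ^ n'))).eventually h1
  refine ⟨_, a3, by rw [e, e1], ?_⟩
  filter_upwards [h2.eventually_nhds, a3.eventually_analyticAt,
    (pw_an n w).continuousAt.eventually a.eventually_analyticAt] with v v1 v2 v3
  have d1 := v2.differentiableAt.hasDerivAt.fun_pow n'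
  have d2 := HasDerivAt.comp (h := fun v : ℂ => v ^ n) v v3.differentiableAt.hasDerivAt (hd n v)
  exact ⟨v1.self_of_nhds, d1.unique (d2.congr_of_eventuallyEq v1)⟩

variable {M : Type} [MetricSpace M] {A : Amb M} {G : Geo A} {S : Sk A}

/-- The base point of a parametrisation. -/
def bp (h : G.Is S) : M ⊕ S.Prt → M := Sum.elim id fun π => (h.ep π).q

/-- Its ramification. -/
def ex (h : G.Is S) : M ⊕ S.Prt → ℕ := Sum.elim (fun _ => 1) fun π => G.e (h.ep π).i (h.ep π).q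

lemma desc (h : G.Is S) {k : S.Cmp} {j : M ⊕ S.Prt} {w : ℂ} (hw : w ∈ S.dom k j) :
    bp h j ∈ G.Cb (h.ec k) ∧ (∀ v, S.par j v = G.ax0 (h.ec k) (bp h j) (v ^ ex h j)) ∧
      w ^ ex h j ∈ ball (0 : ℂ) (G.ch (h.ec k) (bp h j)).r ∧ dp (ex h j) w ≠ 0 ∧
      S.par j w ∈ S.C k := by
  rcases j with c | π
  · obtain ⟨hc, hr⟩ : c ∈ S.C k ∧ ‖w‖ < S.rad c := hw
    have h1 := h.rd k c hc
    have h2 := S.rad0 k c hc
    refine ⟨(h.C k ▸ hc : c ∈ G.Cb (h.ec k) \ G.S).1, fun v => ?_, ?_, by simp [dp, ex],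
      (S.ψc k c hc).2.2 (mem_ball_zero_iff.2 hr)⟩
    · show S.ψ c v = G.ax0 (h.ec k) c (v ^ 1)
      rw [h.ψ k c hc, pow_one]
    · show w ^ 1 ∈ ball (0 : ℂ) (G.ch (h.ec k) c).r
      rw [pow_one, mem_ball_zero_iff]
      linarith
  · obtain ⟨rfl, w0, hr⟩ : S.cm π = k ∧ w ≠ 0 ∧ ‖w‖ < S.r₀ := hw
    have e0 := G.e0 (h.ep π).i (h.ep π).q
    have h1 := h.rad.2.2 _ _ (h.ep π).mem (h.ep π).inS
    rw [h.cm π]
    refine ⟨(h.ep π).mem, fun v => congrFun (h.p π) v, ?_,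
      mul_ne_zero (Nat.cast_ne_zero.2 e0.ne') (pow_ne_zero _ w0),
      (S.pc π).2 ⟨mem_ball_zero_iff.2 hr, w0⟩⟩
    show w ^ G.e (h.ep π).i (h.ep π).q ∈ ball (0 : ℂ) (G.ch (h.ep π).i (h.ep π).q).r
    rw [mem_ball_zero_iff, norm_pow]
    have h2 := pow_le_of_le_one (norm_nonneg w) (hr.le.trans h.rad.2.1) e0.ne'
    have h3 := h.rad.1
    linarith

variable {F : Type} [Field F] [Algebra ℂ F] {i : G.ι} {pl : M → Place ℂ F} {δ : Derivation ℂ F F}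
  {u : Place ℂ F → F} {μ : ℕ} {η : F → M → ℂ → ℂ} {f f' : F} {p p' : M} {w w' : ℂ}

lemma an0 (D : Df G i pl δ u μ η) (hf : f ≠ 0) (hp : p ∈ G.Cb i)
    (hw : w ∈ ball (0 : ℂ) (G.ch i p).r) (h0 : 0 ≤ od δ u μ f (pl (G.ax0 i p w))) :
    AnalyticAt ℂ (η f p) w ∧ (η f p w = 0 ↔ 0 < od δ u μ f (pl (G.ax0 i p w))) := by
  obtain ⟨H, a, b, c⟩ := D.loc f hf p hp w hw
  obtain ⟨m, hm⟩ := Int.eq_ofNat_of_zero_le h0
  simp only [hm, zpow_natCast] at c ⊢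
  refine ⟨(((analyticAt_id.sub analyticAt_const).pow m).mul a).congr
    (c.mono fun v hv => hv.symm), ?_⟩
  rw [c.self_of_nhds]
  simp [b, pos_iff_ne_zero]

lemma trans (X : G.Ax) (D : Df G i pl δ u μ η) (hf : f ≠ 0) (hp : p ∈ G.Cb i) (hp' : p' ∈ G.Cb i)
    {n n' : ℕ} (hw : w ^ n ∈ ball (0 : ℂ) (G.ch i p).r)
    (hw' : w' ^ n' ∈ ball (0 : ℂ) (G.ch i p').r) (h : dp n' w' ≠ 0)
    (e : G.ax0 i p (w ^ n) = G.ax0 i p' (w' ^ n')) :
    ∃ φ : ℂ → ℂ, AnalyticAt ℂ φ w ∧ φ w = w' ∧ ∀ᶠ v in 𝓝 w,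
      G.ax0 i p (v ^ n) = G.ax0 i p' (φ v ^ n') ∧
      η f p (v ^ n) * dp n v ^ μ = η f p' (φ v ^ n') * dp n' (φ v) ^ μ * deriv φ v ^ μ := by
  obtain ⟨θ, a, e1, d0, h1⟩ := X.tr i p hp p' hp' _ hw _ hw' e
  obtain ⟨φ, a', e', h2⟩ := lift h a e1
  have h3 : ∀ᶠ x in 𝓝 (w ^ n), G.ax0 i p x = G.ax0 i p' (θ x) ∧
      η f p x = η f p' (θ x) * deriv θ x ^ μ := by
    filter_upwards [h1.eventually_nhds, a.eventually_analyticAt, isOpen_ball.mem_nhds hw,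
      a.continuousAt.eventually (isOpen_ball.mem_nhds (e1 ▸ hw')),
      a.deriv.continuousAt.eventually_ne d0] with x x1 x2 x3 x4 x5
    exact ⟨x1.self_of_nhds, D.tr f hf p hp p' hp' x x3 θ x2 x4 x5 x1⟩
  refine ⟨φ, a', e', ?_⟩
  filter_upwards [h2, (pw_an n w).continuousAt.eventually h3] with v v1 v2
  rw [v1.1, mul_assoc, ← mul_pow, v1.2, v2.2, mul_pow, mul_assoc]
  exact ⟨v2.1, rfl⟩

lemma port (D : Df G i pl δ u μ η) (hf : f ≠ 0) (hp : p ∈ G.Cb i) {n : ℕ} (n0 : 0 < n) :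
    ∃ H : ℂ → ℂ, AnalyticAt ℂ H 0 ∧ H 0 ≠ 0 ∧ ∀ᶠ w in 𝓝[≠] (0 : ℂ), η f p (w ^ n) * dp n w ^ μ =
      w ^ (n * od δ u μ f (pl p) + μ * (n - 1 : ℤ)) * H w := by
  obtain ⟨H, a, b, c⟩ := D.loc f hf p hp 0 (mem_ball_self (G.ok i p hp).1.r0)
  have z : (0 : ℂ) ^ n = 0 := zero_pow n0.ne'
  rw [G.ax0_zero hp] at c
  refine ⟨fun w => (n : ℂ) ^ μ * H (w ^ n), analyticAt_const.mul (a.comp_of_eq (pw_an n 0) z),
    mul_ne_zero (pow_ne_zero _ (Nat.cast_ne_zero.2 n0.ne')) (by rwa [z]), ?_⟩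
  have t : Tendsto (fun w : ℂ => w ^ n) (𝓝 0) (𝓝 0) := by
    simpa only [z] using (pw_an n 0).continuousAt.tendsto
  filter_upwards [nhdsWithin_le_nhds (t.eventually c), self_mem_nhdsWithin] with w w1 w0
  obtain ⟨m, rfl⟩ := Nat.exists_eq_add_one_of_ne_zero n0.ne'
  rw [w1, sub_zero, zpow_add₀ w0, zpow_mul, zpow_natCast, dp, Nat.add_sub_cancel,
    show (μ : ℤ) * (((m + 1 : ℕ) : ℤ) - 1) = ((m * μ : ℕ) : ℤ) by push_cast; ring, zpow_natCast,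
    mul_pow, pow_mul]
  ring

lemma indep (pa : PlA ℂ F) (pb : PlB ℂ F) (N : Fn G i pl) (D : Df G i pl δ u μ η) (hf : f ≠ 0)
    (hf' : f' ≠ 0) (hs : ∀ s : ℂ, f' ≠ algebraMap ℂ F s * f) {c c' : ℂ} (hc : c ≠ 0 ∨ c' ≠ 0)
    (hp : p ∈ G.Cb i) (hw : w ∈ ball (0 : ℂ) (G.ch i p).r) :
    ∀ᶠ v in 𝓝[≠] w, c * η f p v ≠ c' * η f' p v := by
  have g0 : algebraMap ℂ F c * f + algebraMap ℂ F (-c') * f' ≠ 0 := fun e => by
    by_cases h : c' = 0
    · rw [h, neg_zero, map_zero, zero_mul, add_zero] at e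
      exact mul_ne_zero ((map_ne_zero _).2 (hc.resolve_right fun q => q h)) hf e
    · have h' : algebraMap ℂ F c' ≠ 0 := (map_ne_zero _).2 h
      refine hs (c / c') ?_
      rw [map_neg] at e
      rw [map_div₀, div_mul_eq_mul_div, eq_div_iff h']
      linear_combination -e
  obtain ⟨H, a, b, c1⟩ := D.loc 1 one_ne_zero p hp w hw
  filter_upwards [N.gen p hp w hw _ (((pb.fin f).union (pb.fin f')).union (pb.fin
    (algebraMap ℂ F c * f + algebraMap ℂ F (-c') * f'))), D.gen f hf p hp w hw,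
    D.gen f' hf' p hp w hw, nhdsWithin_le_nhds c1,
    nhdsWithin_le_nhds (a.continuousAt.eventually_ne b), self_mem_nhdsWithin]
    with v v1 v2 v3 v4 v5 v6 e
  have m := (pa.mem _ f hf).2 (not_not.1 fun q => v1 (.inl (.inl q))).ge
  have m' := (pa.mem _ f' hf').2 (not_not.1 fun q => v1 (.inl (.inr q))).ge
  have k := (pl (G.ax0 i p v)).const
  have n1 : η 1 p v ≠ 0 := by
    rw [v4]
    exact mul_ne_zero (zpow_ne_zero _ (sub_ne_zero.2 v6)) v5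
  refine v1 (.inr ((N.zero _ _ g0).1 ?_))
  rw [(N.hom _ _ _ (mul_mem (k c) m) (mul_mem (k _) m')).1, (N.hom _ _ _ (k c) m).2,
    (N.hom _ _ _ (k _) m').2, N.con, N.con]
  rw [v2, v3, ← mul_assoc, ← mul_assoc] at e
  have := mul_right_cancel₀ n1 e
  simp only [fn] at this
  linear_combination this

end RDif

open RDif in
theorem rowDif : DifOf := by
  intro hX hN hR hD M _ A G S h k F _ _ pl δ u μ dic δ0 hu
  have X := hX M A G
  have N := hN M A G _ F pl X dic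
  obtain ⟨η, D⟩ := hD M A G _ F pl X dic N (hR M A G _ F pl X dic N) δ u μ δ0 hu
  refine ⟨fun f j w => η f (bp h j) (w ^ ex h j) * dp (ex h j) w ^ μ, fun f hf ho => ?_,
    fun f f' hf hf' hs c c' hc j w hw e => ?_⟩
  · have k0 := fun j w (hw : w ∈ S.dom k j) => an0 D hf (desc h hw).1 (desc h hw).2.2.1
      ((desc h hw).2.1 w ▸ ho _ (desc h hw).2.2.2.2)
    refine ⟨⟨fun j w hw => ((k0 j w hw).1.comp_of_eq (pw_an _ w) rfl).mul ((dp_an _ w).pow μ),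
      fun j j' w hw w' hw' e => ?_⟩, fun j w hw => ?_, fun π hπ => ?_⟩
    · obtain ⟨d1, d2, d3, -⟩ := desc h hw
      obtain ⟨d1', d2', d3', d4', -⟩ := desc h hw'
      simp only [d2, d2'] at e ⊢
      exact trans X D hf d1 d1' d3 d3' d4' e
    · rw [(desc h hw).2.1 w, ← (k0 j w hw).2]
      exact mul_eq_zero_iff_right (pow_ne_zero _ (desc h hw).2.2.2.1)
    · exact port D hf (by rw [← hπ, h.cm π]; exact (h.ep π).mem) (G.e0 _ _)
  · obtain ⟨d1, -, d3, d4, -⟩ := desc h hw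
    have q : ∀ᶠ v in 𝓝[≠] w, False := by
      filter_upwards [((hd _ w).tendsto_nhdsNE d4).eventually
        (indep dic.pa dic.pb N D hf hf' hs hc d1 d3), nhdsWithin_le_nhds e,
        nhdsWithin_le_nhds ((dp_an _ w).continuousAt.eventually_ne d4)] with v v1 v2 v3
      rw [← mul_assoc, ← mul_assoc] at v2
      exact v1 (mul_right_cancel₀ (pow_ne_zero _ v3) v2)
    exact q.exists.elim fun _ e => e

end Pool.Agent.MP_c69980_ag.G3G
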