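import Pool.Agent.MP_c69980_ag.G3G.SpecA

/-!
Deep points of the initial edges are the points that converge to special points.
-/

set_option autoImplicit false

noncomputable section

namespace Pool.Agent.MP_c69980_ag.G3G

open Metric Filter Topology Set
open G3

namespace RDq

variable {M : Type} [MetricSpace M] {A : Amb M} (G : Geo A)

lemma small {z : ℂ} {n : ℕ} {ρ : ℝ} (hn : 0 < n) (h : ‖z‖ ≤ ρ) (h1 : ρ ≤ 1) : ‖z ^ n‖ ≤ ρ := by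
  rw [norm_pow]
  exact (pow_le_of_le_one (norm_nonneg _) (h.trans h1) hn.ne').trans h

lemma neck (π : G.Prt) : G.kd π = .neck ↔ 0 < (G.ch π.i π.q).b := by
  unfold Geo.kd
  split_ifs with h1 h2 <;> simp [h1]

lemma fst_eq (π : G.Prt) (hb : 0 < (G.ch π.i π.q).b) (t w : ℂ) :
    rt A (G.a π.i) π.k t / w ^ G.e' π.i π.q = (G.md π t / w) ^ G.e' π.i π.q := by
  rw [div_pow, Geo.md, rt_pow_mul (G.e'0 hb)]

lemma te (π : G.Prt) (u : Ultrafilter (ℂ × M)) (hu : A.Out u) (hd : G.Dp π u) : Cg u π.q := by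
  obtain ⟨ok, -, h0⟩ := G.ok π.i π.q π.mem
  have hc := G.F.cont _ _ (ok.ch 0 (mem_ball_self ok.r0))
  intro N hN
  obtain ⟨ε, hε, hs⟩ := Metric.mem_nhds_iff.1 (hc (by rwa [h0]) : _ ⁻¹' N ∈ _)
  have r1 : min (ε / 2) 1 ≤ 1 := min_le_right _ _
  have r2 : min (ε / 2) 1 < ε := (min_le_left _ _).trans_lt (half_lt_self hε)
  have r0 : 0 < min (ε / 2) 1 := lt_min (half_pos hε) one_pos
  rw [mem_map]
  filter_upwards [hd _ r0, hu.1.eventually (rt_small (G.a0' π.i) hε)] with x hx hr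
  obtain ⟨b, hb, e⟩ := hx
  rw [mem_preimage, e]
  refine hs (mem_b.2 ⟨?_, (small (G.e0 _ _) hb.1 r1).trans_lt r2⟩)
  rcases Nat.eq_zero_or_pos (G.ch π.i π.q).b with h | h
  · simpa [(G.e_b0 h).2.2] using hr π.k
  · refine lt_of_eq_of_lt (congrArg norm (fst_eq G π h _ _))
      ((small (G.e'0 h) ?_ r1).trans_lt r2)
    rw [norm_div]
    exact div_le_of_le_mul₀ (norm_nonneg _) r0.le (hb.2 ((neck G π).2 h))

lemma par (ar : G.Ar) {i : G.ι} {q : M} (hq : q ∈ G.Cb i) {t : ℂ} {y : C2}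
    (h : y.1 ^ G.a i * y.2 ^ (G.ch i q).b = tau A t) :
    ∃ k < G.g i q, ∃ w : ℂ, (w ≠ 0 ∨ (G.ch i q).b = 0) ∧
      y = (rt A (G.a i) k t / w ^ G.e' i q, w ^ G.e i q) := by
  rcases Nat.eq_zero_or_pos (G.ch i q).b with hb | hb
  · obtain ⟨e1, e2, e3⟩ := G.e_b0 hb
    rw [hb, pow_zero, mul_one] at h
    obtain ⟨k, hk, e⟩ := rt_ex (G.a0 hq) h
    exact ⟨k, e1 ▸ hk, y.2, Or.inr hb, by rw [e2, e3, pow_zero, pow_one, div_one, ← e]⟩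
  · have h2 : y.2 ≠ 0 := fun e => tau_ne t (by rw [← h, e, zero_pow hb.ne', mul_zero])
    obtain ⟨k, hk, w, e1, e2⟩ := ar.cov i q hq t y h2 h
    exact ⟨k, hk, w, Or.inl fun e => h2 (by rw [← e1, e, zero_pow (G.e0 i q).ne']),
      by rw [e1, ← e2]⟩

lemma cov (ar : G.Ar) (u : Ultrafilter (ℂ × M)) (hu : A.Out u) (i : G.ι) (q : M)
    (hq : q ∈ G.Cb i) (hS : q ∈ G.S) (hc : Cg u q) : ∃ π, G.Dp π u := by
  obtain ⟨ok, ha, h0⟩ := G.ok i q hq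
  have nr := fun (O : Set C2) (hO : O ∈ 𝓝 (0 : C2)) =>
    ok.near (mem_ball_self ok.r0) hu (by rwa [h0]) hO
  have h1 : ∀ᶠ x in (u : Filter (ℂ × M)), ∃ k ∈ Iio (G.g i q), ∃ w : ℂ,
      (w ≠ 0 ∨ (G.ch i q).b = 0) ∧
      ((rt A (G.a i) k x.1 / w ^ G.e' i q, w ^ G.e i q) : C2) ∈ ball (0 : C2) (G.ch i q).r ∧
      x.2 = (G.ch i q).Y (rt A (G.a i) k x.1 / w ^ G.e' i q, w ^ G.e i q) := by
    filter_upwards [nr univ univ_mem] with x hx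
    obtain ⟨y, -, hy, e, m⟩ := hx
    obtain ⟨k, hk, w, hw, rfl⟩ := par G ar hq (ha ▸ m)
    exact ⟨k, hk, w, hw, hy, e⟩
  obtain ⟨k, hk, h2⟩ := (Ultrafilter.eventually_exists_mem_iff (finite_Iio _)).1 h1
  refine ⟨⟨i, q, k, hq, hS, hk⟩, fun ρ hρ => ?_⟩
  filter_upwards [h2, nr _ (ball_mem_nhds 0
    (lt_min (pow_pos hρ (G.e' i q)) (pow_pos hρ (G.e i q))))] with x hx hy
  obtain ⟨w, hw, m, e⟩ := hx
  obtain ⟨y, hO, hy, e', -⟩ := hy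
  rw [ok.inj hy m (e'.symm.trans e), mem_b, lt_min_iff, lt_min_iff] at hO
  refine ⟨w, ⟨(lt_of_pow_lt_pow_left₀ _ hρ.le (norm_pow w _ ▸ hO.2.2)).le, fun hn => ?_⟩, e⟩
  have hb := (neck G _).1 hn
  have h3 := hO.1.1
  have h4 := fst_eq G ⟨i, q, k, hq, hS, hk⟩ hb x.1 w
  dsimp only at h3 h4 hb
  rw [h4, norm_pow, norm_div] at h3
  exact ((div_lt_iff₀ (norm_pos_iff.2 (hw.resolve_right hb.ne'))).1
    (lt_of_pow_lt_pow_left₀ _ hρ.le h3)).le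

end RDq

theorem rowDq : DqStmt := fun _ _ _ G ar => ⟨RDq.te G, RDq.cov G ar⟩

end Pool.Agent.MP_c69980_ag.G3G
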