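import Pool.Agent.MP_c69980_ag.G3G.SpecA

/-!
The chain rule for the functions of a component.
-/

set_option autoImplicit false

namespace Pool.Agent.MP_c69980_ag.G3G

open Metric Filter Topology Set
open G3 Pool.Agent.MP_f3836a_nt.PK

namespace RDr

theorem sep {K F R : Type} [Field K] [CharZero K] [Field F] [Algebra K F] [FiniteDimensional K F]
    [CommRing R] (e : F →+* R) (D : F → R) (ha : ∀ a b, D (a + b) = D a + D b)
    (hm : ∀ a b, D (a * b) = e a * D b + e b * D a) (h0 : ∀ k : K, D (algebraMap K F k) = 0)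
    (f : F) : D f = 0 := by
  let _ : Algebra F R := e.toAlgebra
  let _ : Algebra K R := (e.comp (algebraMap K F)).toAlgebra
  have : IsScalarTower K F R := IsScalarTower.of_algebraMap_eq fun _ => rfl
  let D' : Derivation K F R := Derivation.mk'
    { toFun := D
      map_add' := ha
      map_smul' := fun k a => by
        rw [Algebra.smul_def, hm, h0, mul_zero, add_zero]
        rfl } hm
  have := Algebra.FormallyUnramified.of_isSeparable K F
  have h := D'.liftKaehlerDifferential_comp_D f
  rw [Subsingleton.elim (KaehlerDifferential.D K F f) 0, map_zero] at h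
  exact h.symm

theorem alg {F R : Type} [Field F] [Algebra ℂ F] [CommRing R] (e : F →+* R) (d : F → R)
    (ha : ∀ a b, d (a + b) = d a + d b) (hm : ∀ a b, d (a * b) = e a * d b + e b * d a)
    (h0 : ∀ s : ℂ, d (algebraMap ℂ F s) = 0)
    (fd : ∀ T : F, Transcendental ℂ T → FiniteDimensional (IntermediateField.adjoin ℂ {T}) F)
    (δ : Derivation ℂ F F) (f g : F) : d f * e (δ g) = d g * e (δ f) := by
  by_cases hg : Transcendental ℂ g
  · have := fd g hg
    obtain ⟨D, hD⟩ : ∃ D : F → R, ∀ a, D a = d a * e (δ g) - d g * e (δ a) := ⟨_, fun _ => rfl⟩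
    have a1 : ∀ a b, D (a + b) = D a + D b := fun a b => by
      simp only [hD, ha, map_add]
      ring
    have a2 : ∀ a b, D (a * b) = e a * D b + e b * D a := fun a b => by
      simp only [hD, hm, Derivation.leibniz, smul_eq_mul, map_add, map_mul]
      ring
    have a3 : ∀ s : ℂ, D (algebraMap ℂ F s) = 0 := fun s => by simp [hD, h0]
    refine sub_eq_zero.1 ((hD f).symm.trans
      (sep (K := IntermediateField.adjoin ℂ {g}) e D a1 a2 (fun k => ?_) f))
    refine IntermediateField.adjoin_induction ℂ (p := fun x _ => D x = 0) ?_ a3 ?_ ?_ ?_ k.2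
    · rintro _ rfl
      rw [hD, sub_self]
    · intro x y _ _ hx hy
      rw [a1, hx, hy, add_zero]
    · intro x _ hx
      by_cases h : x = 0
      · rwa [h, inv_zero, ← h]
      · have h1 := a2 x⁻¹ x⁻¹⁻¹
        have h2 := a3 1
        rw [map_one] at h2
        rw [mul_inv_cancel₀ (inv_ne_zero h), h2, inv_inv, hx, mul_zero, zero_add] at h1
        rw [← one_mul (D x⁻¹), ← map_one e, ← inv_mul_cancel₀ h, map_mul, mul_assoc, ← h1,
          mul_zero]
    · intro x y _ _ hx hy
      rw [a2, hx, hy, mul_zero, mul_zero, add_zero]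
  · obtain ⟨s, rfl⟩ := minpoly.mem_range_of_degree_eq_one ℂ g
      (IsAlgClosed.degree_eq_one_of_irreducible ℂ
        (minpoly.irreducible (not_not.1 hg : IsAlgebraic ℂ g).isIntegral))
    simp [h0]

end RDr

theorem rowDr : DrStmt := by
  intro M _ A G i F _ _ pl _ hD hF p hp w₀ hw δ f g
  have mem : ∀ a : F, ∀ᶠ w in 𝓝[≠] w₀, a ∈ (pl (G.ax0 i p w)).V := fun a =>
    (hF.gen p hp w₀ hw _ (hD.pb.fin a)).mono fun w h => by
      by_cases h0 : a = 0
      · rw [h0]; exact zero_mem _
      · exact (hD.pa.mem _ a h0).2 (not_not.1 h).ge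
  have add : ∀ a b : F, fn G i pl p (a + b) =ᶠ[𝓝[≠] w₀] fn G i pl p a + fn G i pl p b :=
    fun a b => ((mem a).and (mem b)).mono fun w h => (hF.hom _ a b h.1 h.2).1
  have mul : ∀ a b : F, fn G i pl p (a * b) =ᶠ[𝓝[≠] w₀] fn G i pl p a * fn G i pl p b :=
    fun a b => ((mem a).and (mem b)).mono fun w h => (hF.hom _ a b h.1 h.2).2
  have con : ∀ s : ℂ, fn G i pl p (algebraMap ℂ F s) = fun _ => s := fun s =>
    funext fun w => hF.con _ s
  have dif : ∀ a : F, ∀ᶠ w in 𝓝[≠] w₀, DifferentiableAt ℂ (fn G i pl p a) w := fun a => by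
    by_cases h0 : a = 0
    · rw [h0, ← map_zero (algebraMap ℂ F), con]
      exact Eventually.of_forall fun _ => differentiableAt_const _
    · obtain ⟨H, h1, -, h2⟩ := hF.an p hp w₀ hw a h0
      filter_upwards [self_mem_nhdsWithin, nhdsWithin_le_nhds h1.eventually_analyticAt,
        nhdsWithin_le_nhds h2.eventually_nhds] with w h3 h4 h5
      refine DifferentiableAt.congr_of_eventuallyEq ?_ h5
      exact ((differentiableAt_id.sub_const w₀).zpow (Or.inl (sub_ne_zero.2 h3))).mul
        (AnalyticAt.differentiableAt h4)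
  let e : F →+* Germ (𝓝[≠] w₀) ℂ :=
    { toFun := fun a => (fn G i pl p a : ℂ → ℂ)
      map_one' := by rw [← map_one (algebraMap ℂ F), con]; rfl
      map_zero' := by rw [← map_zero (algebraMap ℂ F), con]; rfl
      map_add' := fun a b => Germ.coe_eq.2 (add a b)
      map_mul' := fun a b => Germ.coe_eq.2 (mul a b) }
  refine Germ.coe_eq.1 (RDr.alg e (fun a => (deriv (fn G i pl p a) : ℂ → ℂ)) (fun a b => ?_)
    (fun a b => ?_) (fun s => ?_) hD.pb.fd δ f g)
  · exact Germ.coe_eq.2 ((add a b).nhdsNE_deriv.trans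
      (((dif a).and (dif b)).mono fun w h => deriv_add h.1 h.2))
  · exact Germ.coe_eq.2 ((mul a b).nhdsNE_deriv.trans
      (((dif a).and (dif b)).mono fun w h => (deriv_mul h.1 h.2).trans (by
        change _ = _ * _ + _ * _
        ring)))
  · rw [con, deriv_const']
    rfl

end Pool.Agent.MP_c69980_ag.G3G
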