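import Pool.Agent.MP_c69980_ag.G3G.SpecA

/-!
The initial edges.
-/

set_option autoImplicit false

noncomputable section

namespace Pool.Agent.MP_c69980_ag.G3G

open Metric Filter Topology Set
open G3

namespace REd

variable {M : Type} [MetricSpace M] {A : Amb M} {G : Geo A}

/-- The point of the monomial chart. -/
def xx (π : G.Prt) (x : C2) : C2 :=
  (rt A (G.a π.i) π.k x.1 / x.2 ^ G.e' π.i π.q, x.2 ^ G.e π.i π.q)

lemma P_eq (π : G.Prt) (x : C2) : G.P π x = (G.ch π.i π.q).Y (xx π x) := rfl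

lemma ok (π : G.Prt) : (G.ch π.i π.q).OK G.F := (G.ok _ _ π.mem).1

lemma neck_iff (π : G.Prt) : G.kd π = .neck ↔ 0 < (G.ch π.i π.q).b := by
  unfold Geo.kd
  split_ifs with h1 h2 <;> simp [h1]

lemma cusp_iff (π : G.Prt) :
    G.kd π = .cusp ↔ (G.ch π.i π.q).b = 0 ∧ (G.ch π.i π.q).c = 1 := by
  unfold Geo.kd
  split_ifs with h1 h2
  · simp [h1.ne']
  · simp [h2, Nat.eq_zero_of_not_pos h1]
  · simp [h2]

variable {π π' : G.Prt} {t w w' : ℂ} {r₀ r' : ℝ}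

lemma ne0 {c : ℂ} (hc : c ≠ 0) (h : ‖c‖ ≤ r' * ‖w‖) : w ≠ 0 := by
  rintro rfl
  rw [norm_zero, mul_zero, norm_le_zero_iff] at h
  exact hc h

lemma md_ne (π : G.Prt) (t : ℂ) : G.md π t ≠ 0 := rt_ne _ _ _

lemma alt (hw : w ∈ De (G.kd π) (G.md π t) r') : w ≠ 0 ∨ (G.ch π.i π.q).b = 0 := by
  rcases Nat.eq_zero_or_pos (G.ch π.i π.q).b with h | h
  · exact Or.inr h
  · exact Or.inl (ne0 (md_ne π t) (hw.2 ((neck_iff π).2 h)))

lemma flip {c : ℂ} (hc : c ≠ 0) (κ : Kd) (hw : w ∈ De .neck c r') : c / w ∈ De κ c r' := by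
  have h0 : 0 < ‖w‖ := norm_pos_iff.2 (ne0 hc (hw.2 rfl))
  refine ⟨?_, fun _ => ?_⟩
  · rw [norm_div, div_le_iff₀ h0]
    exact hw.2 rfl
  · rw [norm_div, ← mul_div_assoc, le_div_iff₀ h0, mul_comm r']
    exact mul_le_mul_of_nonneg_left hw.1 (norm_nonneg _)

lemma small (hr : G.Rad r₀) : ∀ᶠ t in A.l, ∀ i k, ‖rt A (G.a i) k t‖ < r₀ :=
  eventually_all.2 fun i => rt_small (G.a0' i) hr.1

lemma pow_lt {z : ℂ} {n : ℕ} (hn : 0 < n) (h1 : r₀ ≤ 1) (h : ‖z‖ < r₀) : ‖z ^ n‖ < r₀ := by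
  rw [norm_pow]
  exact (pow_le_of_le_one (norm_nonneg _) (h.le.trans h1) hn.ne').trans_lt h

lemma inb (hr : G.Rad r₀) (hr' : r' < r₀) (ht : ∀ i k, ‖rt A (G.a i) k t‖ < r₀)
    (hw : w ∈ De (G.kd π) (G.md π t) r') : xx π (t, w) ∈ ball (0 : C2) (G.ch π.i π.q).r := by
  have h2 : r₀ ≤ (G.ch π.i π.q).r := by linarith [hr.2.2 _ _ π.mem π.inS, hr.1]
  refine mem_b.2 ⟨lt_of_lt_of_le ?_ h2, lt_of_lt_of_le ?_ h2⟩
  · show ‖rt A (G.a π.i) π.k t / w ^ G.e' π.i π.q‖ < r₀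
    rcases Nat.eq_zero_or_pos (G.ch π.i π.q).b with h | h
    · rw [(G.e_b0 h).2.2, pow_zero, div_one]
      exact ht _ _
    · rw [← rt_pow_mul (G.e'0 h), ← div_pow]
      rw [(neck_iff π).2 h] at hw
      exact pow_lt (G.e'0 h) hr.2.1 ((flip (md_ne π t) .neck hw).1.trans_lt hr')
  · exact pow_lt (G.e0 _ _) hr.2.1 (hw.1.trans_lt hr')

lemma lc (hb : xx π (t, w) ∈ ball (0 : C2) (G.ch π.i π.q).r)
    (hw : w ≠ 0 ∨ (G.ch π.i π.q).b = 0) : A.LC (G.P π) (t, w) := by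
  refine (ok π).lc (x := xx π) ?_ hb ?_ ?_
  · refine AnalyticAt.prod (AnalyticAt.div ?_ (analyticAt_snd.pow _) ?_) (analyticAt_snd.pow _)
    · exact (rt_an _ _ t).comp_of_eq analyticAt_fst rfl
    · rcases hw with h | h
      · exact pow_ne_zero _ h
      · simp [(G.e_b0 h).2.2]
  · have h1 : ∀ᶠ p' : C2 in 𝓝 (t, w), p'.2 ≠ 0 ∨ (G.ch π.i π.q).b = 0 := by
      rcases hw with h | h
      · exact (continuousAt_snd.eventually_ne h).mono fun _ => Or.inl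
      · exact .of_forall fun _ => Or.inr h
    filter_upwards [h1] with p' hp
    rw [(G.ok _ _ π.mem).2.1]
    exact G.mono_P π p'.1 hp
  · have h1 : HasFDerivAt (fun p' : C2 => p'.2 ^ G.e π.i π.q) _ (t, w) :=
      (hasFDerivAt_snd (𝕜 := ℂ)).pow _
    have h2 : (G.e π.i π.q : ℂ) ≠ 0 := by exact_mod_cast (G.e0 _ _).ne'
    show fderiv ℂ (fun p' : C2 => p'.2 ^ G.e π.i π.q) (t, w) (0, 1) ≠ 0
    rw [h1.fderiv]
    rcases hw with h | h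
    · simp [h, h2]
    · simp [(G.e_b0 h).2.1]

lemma zz (hb : xx π (t, w) ∈ ball (0 : C2) (G.ch π.i π.q).r)
    (hw : w ≠ 0 ∨ (G.ch π.i π.q).b = 0) :
    (t, G.P π (t, w)) ∈ A.Z ↔ (G.kd π = .cusp → w ≠ 0) := by
  rw [P_eq, (ok π).opn _ hb t (A.mem _ _ (lc hb hw)), cusp_iff]
  show (w ^ G.e π.i π.q) ^ (G.ch π.i π.q).c ≠ 0 ↔ _
  rcases hw with h | h
  · simp [h]
  · rcases Nat.le_one_iff_eq_zero_or_eq_one.1 (ok π).c1 with h1 | h1
    · simp [h1]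
    · simp [h, h1, (G.e_b0 h).2.1]

lemma same (ar : G.Ar) (hi : π.i = π'.i) (hq : π.q = π'.q)
    (hb : xx π (t, w) ∈ ball (0 : C2) (G.ch π.i π.q).r)
    (hb' : xx π' (t, w') ∈ ball (0 : C2) (G.ch π'.i π'.q).r)
    (hw : w ≠ 0 ∨ (G.ch π.i π.q).b = 0) (h : G.P π (t, w) = G.P π' (t, w')) :
    π = π' ∧ w = w' := by
  obtain ⟨i, q, k, hm, hS, hk⟩ := π
  obtain ⟨i', q', k', hm', hS', hk'⟩ := π'
  obtain rfl : i = i' := hi
  obtain rfl : q = q' := hq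
  have h1 := (G.ok i q hm).1.inj hb hb' h
  have h2 : rt A (G.a i) k t / w ^ G.e' i q = rt A (G.a i) k' t / w' ^ G.e' i q :=
    congrArg Prod.fst h1
  have h3 : w ^ G.e i q = w' ^ G.e i q := congrArg Prod.snd h1
  suffices h4 : k = k' ∧ w = w' by
    obtain ⟨rfl, rfl⟩ := h4
    exact ⟨rfl, rfl⟩
  rcases hw with h0 | h0
  · exact ar.sep i q k hk k' hk' t w w' h0 h3 h2
  · obtain ⟨e1, e2, e3⟩ := G.e_b0 h0
    rw [e3, pow_zero, pow_zero, div_one, div_one] at h2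
    rw [e2, pow_one, pow_one] at h3
    exact ⟨rt_inj (e1 ▸ hk) (e1 ▸ hk') h2, h3⟩

lemma ise (ar : G.Ar) {far : G.Prt → G.Prt} (hf : G.Far far) (hr : G.Rad r₀) (π : G.Prt) :
    IsE A (G.kd π) (G.P π) (G.md π) r₀ (G.P π) (G.P (far π)) where
  lc r' hr' := by
    filter_upwards [small hr] with t ht w hw
    have hb := inb hr hr' ht hw
    exact ⟨lc hb (alt hw), zz hb (alt hw), fun w' hw' h =>
      (same ar rfl rfl hb (inb hr hr' ht hw') (alt hw) h).2⟩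
  out _ _ _ _ ε hε := .of_forall fun _ ξ _ => ⟨ξ, by simpa using hε, rfl⟩
  cc h := by
    have h0 : 0 < G.a π.i * G.e' π.i π.q := Nat.mul_pos (G.a0' _) (G.e'0 ((neck_iff π).1 h))
    refine ⟨rt_tend h0 _, 1, ?_⟩
    filter_upwards [(dp_tend (A := A)).eventually_ge_atTop 0] with t ht
    refine ⟨rt_an _ _ t, ?_⟩
    rw [Geo.md, norm_rt, Real.exp_le_exp, one_mul, neg_div, neg_le_neg_iff]
    exact div_le_self ht (by exact_mod_cast h0)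
  inn h _ _ _ _ ε hε := .of_forall fun t ξ _ =>
    ⟨ξ, by simpa using hε, ((hf.nk π ((neck_iff π).1 h)).2.2.2 t ξ).symm⟩

lemma dj (ar : G.Ar) {far : G.Prt → G.Prt} (hf : G.Far far) (hr : G.Rad r₀) (hr' : r' < r₀)
    (ht : ∀ i k, ‖rt A (G.a i) k t‖ < r₀) (hw : w ∈ De (G.kd π) (G.md π t) r')
    (hw' : w' ∈ De (G.kd π') (G.md π' t) r') (h : G.P π (t, w) = G.P π' (t, w')) :
    π' = π ∨ (G.kd π = .neck ∧ π' = far π) := by
  have hb := inb hr hr' ht hw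
  have hb' := inb hr hr' ht hw'
  have hq : π.q = π'.q := G.dj _ _ _ π.mem _ π'.mem π.inS π'.inS _ hb _ hb' h
  by_cases hi : π.i = π'.i
  · exact Or.inl (same ar hi hq hb hb' (alt hw) h).1.symm
  have m1 : π.q ∈ G.Cb π'.i := hq ▸ π'.mem
  have m2 : π'.q ∈ G.Cb π.i := hq ▸ π.mem
  have b1 : 0 < (G.ch π.i π.q).b := (G.node _ _ hi _ π.mem m1).1 ▸ G.a0' _
  have b2 : 0 < (G.ch π'.i π'.q).b := (G.node _ _ (Ne.symm hi) _ π'.mem m2).1 ▸ G.a0' _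
  obtain ⟨q1, -, q3⟩ := hf.q π' b2
  obtain ⟨n1, n2, n3, -⟩ := hf.nk π' b2
  have hi' : π.i = (far π').i := G.two _ _ _ _ π'.mem m2 (q1 ▸ (far π').mem) hi q3
  have h1 : G.P π' (t, w') = G.P (far π') (t, G.md (far π') t / w') := by
    rw [← (hf.nk _ n1).2.2.2 t w', n2]
  rw [(neck_iff π').2 b2, ← n3] at hw'
  have h2 := same ar hi' (hq.trans q1.symm) hb (inb hr hr' ht (flip (md_ne _ t) _ hw')) (alt hw)
    (h.trans h1)
  exact Or.inr ⟨(neck_iff π).2 b1, by rw [h2.1, n2]⟩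

end REd

theorem rowEd : EdStmt := fun _ _ _ _ ar _ _ hf hr =>
  ⟨REd.ise ar hf hr, fun _ hr' => (REd.small hr).mono fun _ ht _ _ _ hw _ hw' h =>
    REd.dj ar hf hr hr' ht hw hw' h⟩

end Pool.Agent.MP_c69980_ag.G3G
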