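import Pool.Agent.MP_c69980_ag.G3G.SpecB
import Pool.Agent.MP_c69980_ag.I2.Log

/-!
There are finitely many boundary curves.
-/

set_option autoImplicit false

namespace Pool.Agent.MP_c69980_ag.G3G

open MvPolynomial H60 H4 E1 G3
open I2 (PP CC)
open I2.RLog (dat cof v_inv)
open Pool.Agent.MP_f3836a_nt.PK (Form)

theorem rowFin : FinStmt := by
  intro K _ _ N d hB hC
  refine ⟨?_, fun x C hx h => ?_⟩
  · rcases isEmpty_or_nonempty (CC d.z) with h0 | ⟨⟨C₀⟩⟩
    · exact Set.toFinite _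
    obtain ⟨x, -⟩ := hB.g0.cv.pt C₀
    obtain ⟨T, g, e, hD, g0, -⟩ := dat hB d.ld x
    refine ((hB.g0.fin.cv g (Form.of hD.hom) fun e => g0 (x.van _ _ hD.hom e)).union
      (hB.g0.fin.v T)).subset fun C hn => by_contra fun h1 => (hC C).inf ?_
    have f1 := cof hB (hC C) hD (fun e => h1 (Or.inl e))
      (le_of_eq (by_contra fun e => h1 (Or.inr e)))
    exact (Set.Finite.union hn f1).subset fun y hy =>
      (em (y.z ∈ Cone d.Uo)).imp (fun a => ⟨hy, a⟩) fun a => ⟨hy, a⟩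
  · rcases d.mor _ (hB.cone x) with h1 | h1
    · have h2 := (hB.reg x x.z _ (Pp.refl _)).2 h1
      exact ⟨h2, hB.von x C _ hx h2 ((hB.g0.va.pos C _ d.t0 (hx.le h2)).1 h)⟩
    · have h2 := (hB.g0.va.mem C _ (inv_ne_zero d.t0)).1
        (hx.le ((hB.reg x x.z _ (Pp.refl _)).2 h1))
      rw [v_inv hB.g0 C d.t0] at h2
      omega

end Pool.Agent.MP_c69980_ag.G3G
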