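import Pool.Agent.MP_c69980_ag.G3G.SpecB
import Pool.Agent.MP_c69980_ag.G3.Prj

/-!
The forms along an arbitrary parametrisation of the fibres.
-/

set_option autoImplicit false

noncomputable section

namespace Pool.Agent.MP_c69980_ag.G3G

open MvPolynomial Metric Filter Topology Set
open H60 H4 E1 G3 G3.PrjX

theorem rowFrm2 : FrmStmt := by
  intro K _ _ N d _ _ A X Φ L γ p l f g an hX ⟨a, j, O, Y, c, ζ, hζ, q⟩ rf rg w0 rh
  have on : ∀ {t y}, (t, y) ∈ X → On d.z y := fun h => Cone.on d.gen ((L.xl _ _).1 h).1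
  have sc : ∀ {t y y'}, (t, y) ∈ X → Pp y' y → (t, y') ∈ X := fun h e => by
    obtain ⟨a, b, c⟩ := (L.xl _ _).1 h
    exact (L.xl _ _).2 ⟨cone_pp e a, e.reg b, (e.vl (Cone.on d.gen a) b).trans c⟩
  obtain ⟨y1, y2, y3, y4⟩ := c.2.2 _ hζ
  obtain ⟨s, s0, e⟩ := id q
  have e : γ p = s • Y (p.1, ζ) := e
  have ej : γ p j = s := by rw [e, Pi.smul_apply, y1, smul_eq_mul, mul_one]
  have e1 : γ p a / γ p j = ζ := by
    rw [ej, e, Pi.smul_apply, y2, smul_eq_mul, mul_div_cancel_left₀ _ s0]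
  have aj := analyticAt_pi_iff.1 an j
  have aφ : AnalyticAt ℂ (fun x => γ x a / γ x j) p :=
    (analyticAt_pi_iff.1 an a).div aj (ej ▸ s0)
  have t1 : Tendsto (fun x : C2 => ((x.1, s⁻¹ • γ x) : Pt (N + 1))) (𝓝 p)
      (𝓝 (p.1, Y (p.1, ζ))) := by
    have := (continuousAt_fst (p := p)).tendsto.prodMk_nhds
      (an.continuousAt.tendsto.const_smul s⁻¹)
    rwa [e, inv_smul_smul₀ s0] at this
  have ev : ∀ᶠ x in 𝓝 p, γ x = γ x j • Y (x.1, γ x a / γ x j) := by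
    filter_upwards [t1.eventually y4, hX] with x k h
    have k1 := congrArg (s • ·) (k (sc h (Pp.smul (inv_ne_zero s0) _)))
    simpa only [Pi.smul_apply, smul_eq_mul, smul_inv_smul₀ s0, smul_smul,
      mul_inv_cancel_left₀ s0, mul_div_mul_left _ _ (inv_ne_zero s0), mul_inv_cancel₀ s0,
      one_smul] using k1
  have hz : (p.1, γ p a / γ p j) ∈ O := e1 ▸ hζ
  have aY := c.2.1 _ hz
  have q' : Pp (Y (p.1, γ p a / γ p j)) (γ p) := e1 ▸ q.symm
  have op := on hX.self_of_nhds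
  have k := L.kl a j O Y c _ hz (γ p j) (γ p j * dw (fun x => γ x a / γ x j) p)
    (dw (fun x => γ x j) p) l f g (ej ▸ s0) (q'.reg rf) (q'.reg rg) w0 (q'.reg rh)
  rw [← ev.self_of_nhds, ← dz_eq an aY aφ ev, mul_div_cancel_left₀ _ (ej ▸ s0),
    q'.vl op rh] at k
  have oY : ∀ᶠ x in 𝓝 ((p.1, γ p a / γ p j) : C2), On d.z (Y x) := by
    filter_upwards [c.1.mem_nhds hz] with x hx using on (c.2.2 x hx).2.2.1
  have cg : ∀ f, Reg d.z (γ p) f → (fun x => vl d.z f (γ x)) =ᶠ[𝓝 p]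
      fun x => vl d.z f (Y (x.1, γ x a / γ x j)) := fun f r => by
    filter_upwards [ev, hX, (vl_an an (hX.mono fun _ h => on h) r).2,
      aj.continuousAt.eventually_ne (ej ▸ s0)] with x k1 k2 k3 k4
    exact (Pp.vl (Pp.symm ⟨_, k4, k1⟩) (on k2) k3).symm
  rw [k, jb_congr (cg f rf) (cg g rg), jb_comp (f := fun x => vl d.z f (Y x))
    (g := fun x => vl d.z g (Y x)) (φ := fun x : C2 => (x.1, γ x a / γ x j))
    (vl_an aY oY (q'.reg rf)).1.differentiableAt (vl_an aY oY (q'.reg rg)).1.differentiableAt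
    (psi_an aφ).differentiableAt]
  have e2 : jb (fun x : C2 => x.1) (fun x => γ x a / γ x j) p =
      dw (fun x => γ x a / γ x j) p := by
    simp [jb, dw, fderiv_fst]
  rw [e2]
  ring

end Pool.Agent.MP_c69980_ag.G3G
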