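import Pool.Agent.MP_c69980_ag.G3G.SpecB

/-!
The geometry of the whole fibre from the local data.
-/

set_option autoImplicit false

noncomputable section

namespace Pool.Agent.MP_c69980_ag.G3G

open MvPolynomial Metric Filter Topology Set
open H60 H4 E1 G3
open I2 (Sf Br PP CC CP)

namespace RGeo

/-- Radii that separate the points of a finite set. -/
lemma sep {M : Type} [MetricSpace M] (S : Finset M) (p : M) :
    ∃ δ : ℝ, 0 < δ ∧ ∀ q ∈ S, q ≠ p → 2 * δ ≤ dist p q := by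
  have h1 : ∀ᶠ r in 𝓝[>] (0 : ℝ), ∀ q ∈ S, q ≠ p → 2 * r ≤ dist p q := by
    refine (eventually_all_finset _).2 fun q _ => ?_
    by_cases h : q = p
    · exact Eventually.of_forall fun _ h' => absurd h h'
    · filter_upwards [Ioc_mem_nhdsGT (half_pos (dist_pos.2 (Ne.symm h)))] with r hr _
      linarith [hr.2]
  obtain ⟨r, h2, h3⟩ := (h1.and self_mem_nhdsWithin).exists
  exact ⟨r, h3, h2⟩

lemma three {α : Type} {s : Set α} (h : s.Infinite) : ∃ t : Finset α, ↑t ⊆ s ∧ t.card = 3 :=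
  h.exists_subset_card_eq 3

end RGeo

open RGeo in
theorem rowGeo : GeoOf := by
  classical
  intro hP hS hT hF hC hN K _ _ N d B P A X Φ L Z hZ
  have z0 : ∀ x : PP d.z, x.z ≠ 0 := fun x => (B.cone x).1
  have pj : ∀ x y : PP d.z, prj x.z = prj y.z → x = y := fun x y e =>
    B.uniq x y (((hP _).1 _ _ (z0 x) (z0 y)).1 e)
  have on : ∀ (x : PP d.z) (C : CC d.z), prj x.z ∈ cb C ↔ x.On C := fun x C =>
    ⟨fun ⟨y, hy, e⟩ => pj y x e ▸ hy, fun h => ⟨x, h, rfl⟩⟩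
  have xc : XC d.W X := fun x hx => by
    obtain ⟨a, b, c⟩ := (L.xl x.1 x.2).1 hx
    exact ⟨a, fun s hs => (L.xl _ _).2 ⟨cone_pp (Pp.smul hs _) a, (Pp.smul hs _).reg b,
      ((Pp.smul hs _).vl (Cone.on d.gen a) b).trans c⟩⟩
  obtain ⟨F, hFI⟩ := hS _ d.W d.Uo X d.m Φ A L.amb xc
  obtain ⟨fB, ze⟩ := hF K N d B P
  have fI : {C : CC d.z | 0 < C.v d.τ}.Finite := (B.g0.fin.v d.τ).subset fun C hC => ne_of_gt hC
  let ι : Type := {C : CC d.z // 0 < C.v d.τ}
  haveI : Finite ι := fI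
  have con := hN K N d.toSf B P
  choose E hE using fun i : ι => three (con i.1 ∅).2
  have fZ : (⋃ i : ι, ⋃ C ∈ {C : CC d.z | Bd d C ∧ i.1 ≠ C},
      {x : PP d.z | x.On i.1 ∧ x.On C}).Finite :=
    finite_iUnion fun i => (fB.subset fun _ h => h.1).biUnion fun C h => B.g0.two _ _ h.2
  obtain ⟨S, hS⟩ : ∃ S : Finset (Wg (N + 1)), (∀ x ∈ Z, prj x.z ∈ S) ∧ (∀ i, E i ⊆ S) ∧
      ∀ (i : ι) (C : CC d.z) (x : PP d.z), Bd d C → i.1 ≠ C → x.On i.1 → x.On C →
        prj x.z ∈ S := by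
    have f := (((hZ.union fZ).image fun x : PP d.z => prj x.z).union
      (finite_iUnion fun i : ι => (E i).finite_toSet))
    refine ⟨f.toFinset, fun x hx => f.mem_toFinset.2 (Or.inl ⟨x, Or.inl hx, rfl⟩),
      fun i y hy => f.mem_toFinset.2 (Or.inr (mem_iUnion.2 ⟨i, hy⟩)),
      fun i C x a b c e => f.mem_toFinset.2 (Or.inl ⟨x, Or.inr ?_, rfl⟩)⟩
    exact mem_iUnion.2 ⟨i, mem_biUnion (show C ∈ {C : CC d.z | Bd d C ∧ i.1 ≠ C} from ⟨a, b⟩)
      ⟨c, e⟩⟩
  choose δ δ0 hδ using sep S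
  choose Cx T hL using fun (x : PP d.z) (h : Ze d x) =>
    hT K N d B P A X Φ L F x (δ (prj x.z)) hFI h (δ0 _)
  let ch : ι → Wg (N + 1) → MC (Wg (N + 1)) := fun i p =>
    if h : ∃ x : PP d.z, Ze d x ∧ prj x.z = p then
      if i.1 = Cx h.choose h.choose_spec.1 then T h.choose h.choose_spec.1
      else (T h.choose h.choose_spec.1).sw A.m
    else ⟨fun _ => p, 1, 1, 0, 0, fun _ _ => 0⟩
  have che : ∀ (i : ι) (x : PP d.z) (h : Ze d x), ch i (prj x.z) =
      if i.1 = Cx x h then T x h else (T x h).sw A.m := fun i x h => by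
    have h' : ∃ y : PP d.z, Ze d y ∧ prj y.z = prj x.z := ⟨x, h, rfl⟩
    have e : ∀ (y : PP d.z) (k : Ze d y), y = x → (if i.1 = Cx y k then T y k else
        (T y k).sw A.m) = if i.1 = Cx x h then T x h else (T x h).sw A.m := by
      rintro y k rfl
      rfl
    simp only [ch, dif_pos h']
    exact e _ _ (pj _ _ h'.choose_spec.2)
  have sw : ∀ {q : C2} {r : ℝ}, q ∈ ball (0 : C2) r → q.swap ∈ ball (0 : C2) r := fun h =>
    mem_b.2 (mem_b.1 h).symm
  have key : ∀ (i : ι) (x : PP d.z), x.On i.1 → ∃ h : Ze d x, (ch i (prj x.z)).OK F ∧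
      Ad d x i.1 (ch i (prj x.z)) ∧ ∀ q ∈ ball (0 : C2) (ch i (prj x.z)).r,
        ∃ q' ∈ ball (0 : C2) (T x h).r, (ch i (prj x.z)).Y q = (T x h).Y q' := fun i x hx => by
    have h := ze x i.1 hx i.2
    refine ⟨h, ?_⟩
    rw [che i x h]
    split_ifs with e
    · exact ⟨(hL x h).ok, e ▸ (hL x h).ad, fun q hq => ⟨q, hq, rfl⟩⟩
    · obtain ⟨-, a, b⟩ := (hL x h).on i.1 i.2 e hx
      exact ⟨a, b, fun q hq => ⟨q.swap, sw hq, rfl⟩⟩
  have sm : ∀ (i : ι) (x : PP d.z), x.On i.1 → ∀ q ∈ ball (0 : C2) (ch i (prj x.z)).r,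
      dist ((ch i (prj x.z)).Y q) (prj x.z) < δ (prj x.z) := fun i x hx q hq => by
    obtain ⟨h, -, -, k⟩ := key i x hx
    obtain ⟨q', a, b⟩ := k q hq
    exact b ▸ (hL x h).sm q' a
  have av : ∀ (i : ι) (x : PP d.z), x.On i.1 → ((ch i (prj x.z)).a : ℤ) = i.1.v d.τ :=
    fun i x hx => (key i x hx).2.2.1.a
  refine ⟨{
    F := F, ι := ι, fι := Fintype.ofFinite ι, Cb := fun i => cb i.1,
    a := fun i => (i.1.v d.τ).toNat, ch := ch, S := S
    ok := ?_, ax := ?_, oth := ?_, node := ?_, nb := ?_, two := ?_, off := ?_, av := ?_,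
    S3 := ?_, dj := ?_, cpt := fun i => hC.1 K N d.toSf B P i.1, out := ?_,
    conn := fun i => (con i.1 S).1, ne := fun i => ((con i.1 S).2.diff S.finite_toSet).nonempty },
    fun i => i.1, ⟨hFI, fun i => i.2, fun _ => rfl, fun i x hx => (key i x hx).2.2.1⟩,
    fun _ x hx _ => hS.1 x hx⟩
  · rintro i _ ⟨x, hx, rfl⟩
    obtain ⟨-, a, b, -⟩ := key i x hx
    exact ⟨a, by rw [← b.a, Int.toNat_natCast], b.zero⟩
  · rintro i _ ⟨x, hx, rfl⟩
    exact (key i x hx).2.2.1.ax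
  · rintro i i' _ ⟨x, hx, rfl⟩ q hq h'
    obtain ⟨h, -, -, k⟩ := key i x hx
    obtain ⟨q', a, b⟩ := k q hq
    by_contra hn
    exact (hL x h).off i'.1 i'.2 (fun e => hn ⟨x, e, rfl⟩) q' a (b ▸ h')
  · rintro i i' ne _ ⟨x, hx, rfl⟩ h'
    have hx' := (on x _).1 h'
    have h := ze x i.1 hx i.2
    have n1 : i.1 ≠ i'.1 := fun e => ne (Subtype.ext e)
    have a1 := av i' x hx'
    beta_reduce
    rw [che i' x h] at a1 ⊢
    rw [che i x h]
    by_cases e : i.1 = Cx x h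
    · have e' : ¬i'.1 = Cx x h := fun k => n1 (e.trans k.symm)
      rw [if_neg e'] at a1 ⊢
      rw [if_pos e, ← a1, Int.toNat_natCast]
      exact ⟨rfl, rfl, fun _ => rfl⟩
    · have e' : i'.1 = Cx x h := by
        by_contra k
        exact n1 ((hL x h).two _ _ i.2 i'.2 e k hx hx')
      rw [if_pos e'] at a1 ⊢
      rw [if_neg e, ← a1, Int.toNat_natCast]
      exact ⟨rfl, rfl, fun _ => rfl⟩
  · rintro i _ ⟨x, hx, rfl⟩ hb
    have h := ze x i.1 hx i.2
    beta_reduce at hb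
    rw [che i x h] at hb
    by_cases e : i.1 = Cx x h
    · rw [if_pos e] at hb
      obtain ⟨C, a, b, c⟩ := (hL x h).nb hb
      exact ⟨⟨C, a⟩, fun k => b ((congrArg Subtype.val k).trans e), x, c, rfl⟩
    · exact ⟨⟨Cx x h, (hL x h).pos⟩, fun k => e (congrArg Subtype.val k).symm, x,
        (hL x h).ad.on, rfl⟩
  · rintro i i' i'' _ ⟨x, hx, rfl⟩ h1 h2 n1 n2
    have h1 := (on x _).1 h1
    have h2 := (on x _).1 h2
    have h := ze x i.1 hx i.2
    have t := (hL x h).two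
    refine Subtype.ext ?_
    by_cases e : i.1 = Cx x h
    · exact t _ _ i'.2 i''.2 (fun k => n1 (Subtype.ext (k.trans e.symm)))
        (fun k => n2 (Subtype.ext (k.trans e.symm))) h1 h2
    · have k1 : i'.1 = Cx x h := by_contra fun k => n1 (Subtype.ext (t _ _ i'.2 i.2 k e h1 hx))
      have k2 : i''.1 = Cx x h := by_contra fun k => n2 (Subtype.ext (t _ _ i''.2 i.2 k e h2 hx))
      exact k1.trans k2.symm
  · rintro i _ ⟨x, hx, rfl⟩ hn
    have h := ze x i.1 hx i.2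
    have c0 : (T x h).c = 0 := by
      by_contra k
      obtain ⟨C, a, b, c⟩ := (hL x h).bd (by have := (hL x h).ok.c1; omega)
      exact hn (hS.2.2 ⟨Cx x h, (hL x h).pos⟩ C x c a.symm (hL x h).ad.on b)
    beta_reduce
    rw [che i x h]
    by_cases e : i.1 = Cx x h
    · rwa [if_pos e]
    · have := (hL x h).ok.bc ((hL x h).on i.1 i.2 e hx).1
      omega
  · rintro i _ ⟨x, hx, rfl⟩ q hq h'
    obtain ⟨-, a, b, -⟩ := key i x hx
    have e : (ch i (prj x.z)).Y q = prj x.z := by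
      by_contra k
      have k1 := hδ (prj x.z) _ h' k
      have k2 := sm i x hx q hq
      rw [dist_comm] at k2
      linarith [δ0 (prj x.z)]
    exact a.inj hq (mem_ball_self a.r0) (e.trans b.zero.symm)
  · intro i
    rw [← (hE i).2, ← Set.ncard_coe_finset]
    exact Set.ncard_le_ncard (fun y hy => ⟨(hE i).1 hy, hS.2.1 i hy⟩)
      (S.finite_toSet.subset inter_subset_right)
  · rintro i i' _ ⟨x, hx, rfl⟩ _ ⟨x', hx', rfl⟩ s s' q hq q' hq' e
    by_contra k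
    have k1 := hδ _ _ s' (Ne.symm k)
    have k2 := hδ _ _ s k
    have k3 := sm i x hx q hq
    have k4 := sm i' x' hx' q' hq'
    have k5 := dist_triangle_left (prj x.z) (prj x'.z) ((ch i (prj x.z)).Y q)
    beta_reduce at e k1 k2
    rw [← e] at k4
    rw [dist_comm] at k2
    linarith
  · intro u hu
    obtain ⟨x, h, c⟩ := hC.2 K N d B P A X Φ L u hu
    exact ⟨⟨Cx x h, (hL x h).pos⟩, _, ⟨x, (hL x h).ad.on, rfl⟩, c⟩

end Pool.Agent.MP_c69980_ag.G3G
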