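import Pool.Agent.MP_c69980_ag.G3G.SpecB

/-!
Gluing of charts along a curve.
-/

set_option autoImplicit false

noncomputable section

namespace Pool.Agent.MP_c69980_ag.G3G

open MvPolynomial Metric Filter Topology Set
open H60 H4 E1 G3

namespace RGlu

theorem axis {c : ℂ} {ρ : ℝ} {y : C2} (h : y ∈ ball ((0, c) : C2) ρ) :
    ((0, y.2) : C2) ∈ ball ((0, c) : C2) ρ := by
  rw [mem_ball, Prod.dist_eq, max_lt_iff] at h ⊢
  exact ⟨by simpa using dist_nonneg.trans_lt h.1, h.2⟩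

theorem ev_eq {n : ℕ} {W : Set (PS n)} {j : Fin n} {G : V n → C2} {O O' : Set C2}
    {T T' : C2 → V n} (hG : ∀ y ∈ Cone W, ∀ y', Pp y y' → G y = G y') (b : Bi W O T)
    (b' : Bi W O' T') (h : ∀ y ∈ O, T y j = 1 ∧ G (T y) = y)
    (h' : ∀ y ∈ O', T' y j = 1 ∧ G (T' y) = y) {q : C2} (hq : q ∈ O) (hq' : q ∈ O')
    (e : T q = T' q) : T =ᶠ[𝓝 q] T' := by
  obtain ⟨ψ, h1, h2, h3⟩ := b.loc q hq
  have c1 : Tendsto T' (𝓝 q) (𝓝 (T q)) := e ▸ (b'.an q hq').continuousAt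
  have c2 : Tendsto ψ (𝓝 (T q)) (𝓝 q) := by simpa [ContinuousAt, h2] using h1.continuousAt
  filter_upwards [c1.eventually h3, (c2.comp c1).eventually (b.op.mem_nhds hq), b.op.mem_nhds hq,
    b'.op.mem_nhds hq'] with w k1 k2 k3 k4
  have k5 := k1 (b'.mem w k4)
  have k6 : ψ (T' w) = w :=
    (h _ k2).2.symm.trans ((hG _ (b'.mem w k4) _ k5).symm.trans (h' w k4).2)
  rw [k6] at k5
  have k7 := (k5.eq_smul (h w k3).1).2
  rw [(h' w k4).1, one_smul] at k7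
  exact k7.symm

end RGlu

theorem rowGlu : GluStmt := by
  intro n W j G B ρ T hG h1 h2
  classical
  have e : ∀ c ∈ B, ∀ c' ∈ B, ∀ y ∈ ball ((0, c) : C2) (ρ c), y ∈ ball ((0, c') : C2) (ρ c') →
      T c y = T c' y := fun c hc c' hc' y hy hy' =>
    (((h1 c hc).1.an.mono inter_subset_left).eqOn_of_preconnected_of_eventuallyEq
      ((h1 c' hc').1.an.mono inter_subset_right)
      ((convex_ball _ _).inter (convex_ball _ _)).isPreconnected ⟨RGlu.axis hy, RGlu.axis hy'⟩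
      (RGlu.ev_eq hG (h1 c hc).1 (h1 c' hc').1 (h1 c hc).2 (h1 c' hc').2 (RGlu.axis hy)
        (RGlu.axis hy') (h2 c hc c' hc' _ (RGlu.axis hy) (RGlu.axis hy')))) ⟨hy, hy'⟩
  obtain ⟨T', hT⟩ : ∃ T' : C2 → V n, ∀ c ∈ B, ∀ y ∈ ball ((0, c) : C2) (ρ c), T' y = T c y :=
    ⟨fun y => if h : ∃ c ∈ B, y ∈ ball ((0, c) : C2) (ρ c) then T h.choose y else 0,
      fun c hc y hy => by
        have h : ∃ c ∈ B, y ∈ ball ((0, c) : C2) (ρ c) := ⟨c, hc, hy⟩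
        exact (dif_pos h).trans (e _ h.choose_spec.1 c hc y h.choose_spec.2 hy)⟩
  have ev : ∀ c ∈ B, ∀ y ∈ ball ((0, c) : C2) (ρ c), T' =ᶠ[𝓝 y] T c := fun c hc y hy =>
    mem_of_superset (isOpen_ball.mem_nhds hy) (hT c hc)
  refine ⟨T', ⟨isOpen_biUnion fun _ _ => isOpen_ball, fun q hq => ?_, fun q hq => ?_,
    fun q hq q' hq' H => ?_, fun q hq => ?_⟩, hT⟩
  all_goals obtain ⟨c, hc, hq⟩ := mem_iUnion₂.1 hq
  · exact ((h1 c hc).1.an q hq).congr (ev c hc q hq).symm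
  · exact hT c hc q hq ▸ (h1 c hc).1.mem q hq
  · obtain ⟨c', hc', hq'⟩ := mem_iUnion₂.1 hq'
    rw [hT c hc q hq, hT c' hc' q' hq'] at H
    exact ((h1 c hc).2 q hq).2.symm.trans
      ((hG _ ((h1 c hc).1.mem q hq) _ H).trans ((h1 c' hc').2 q' hq').2)
  · obtain ⟨ψ, k1, k2, k3⟩ := (h1 c hc).1.loc q hq
    rw [hT c hc q hq]
    have c2 : Tendsto ψ (𝓝 (T c q)) (𝓝 q) := by simpa [ContinuousAt, k2] using k1.continuousAt
    refine ⟨ψ, k1, k2, ?_⟩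
    filter_upwards [k3, c2.eventually (ev c hc q hq)] with y k4 k5 hy
    exact k5 ▸ k4 hy

end Pool.Agent.MP_c69980_ag.G3G
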