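import Pool.Agent.MP_c69980_ag.G3G.SpecB

/-!
Biholomorphic charts are immersions, can be swapped, and come from parametrisations.
-/

set_option autoImplicit false

noncomputable section

namespace Pool.Agent.MP_c69980_ag.G3G

open MvPolynomial Metric Filter Topology Set
open H60 H4 E1 G3
open I2 (Sf Par PP)

namespace RImm

variable {n : ℕ} {W : Set (PS n)} {O : Set C2} {g : C2 → V n}

lemma imm (h : Bi W O g) {q : C2} (hq : q ∈ O) (v : C2)
    (e : wg (g q) (fderiv ℂ g q v) = 0) : v = 0 := by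
  obtain ⟨ψ, h1, h2, h3⟩ := h.loc q hq
  obtain ⟨s, hs⟩ : ∃ s : ℂ, fderiv ℂ g q v = s • g q := by
    by_cases z : fderiv ℂ g q v = 0
    · exact ⟨0, by rw [z, zero_smul]⟩
    · obtain ⟨c, -, hc⟩ := (wg_eq_zero (h.mem q hq).1 z).1 e
      exact ⟨c, hc⟩
  have l : HasDerivAt (fun t : ℂ => q + t • v) v 0 := by
    simpa using ((hasDerivAt_id (0 : ℂ)).smul_const v).const_add q
  have l0 : q + (0 : ℂ) • v = q := by simp
  have a : HasDerivAt (fun t : ℂ => g (q + t • v)) (s • g q) 0 := by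
    rw [← hs]
    exact (h.an q hq).differentiableAt.hasFDerivAt.comp_hasDerivAt_of_eq 0 l l0.symm
  have b : HasDerivAt (fun t : ℂ => 1 - t * s) (-s) 0 := by
    simpa using ((hasDerivAt_id (0 : ℂ)).mul_const s).const_sub 1
  have c : HasDerivAt (fun t : ℂ => (1 - t * s) • g (q + t • v)) 0 0 := by
    simpa using b.fun_smul a
  have c0 : (1 - (0 : ℂ) * s) • g (q + (0 : ℂ) • v) = g q := by simp
  have d : HasDerivAt (fun t : ℂ => ψ ((1 - t * s) • g (q + t • v))) 0 0 := by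
    have := h1.differentiableAt.hasFDerivAt.comp_hasDerivAt_of_eq 0 c c0.symm
    rwa [map_zero] at this
  have t1 : Tendsto (fun t : ℂ => q + t • v) (𝓝 0) (𝓝 q) := by
    simpa [ContinuousAt] using l.continuousAt
  have t2 : Tendsto (fun t : ℂ => (1 - t * s) • g (q + t • v)) (𝓝 0) (𝓝 (g q)) := by
    simpa [ContinuousAt] using c.continuousAt
  have t3 : Tendsto ψ (𝓝 (g q)) (𝓝 q) := by simpa [ContinuousAt, h2] using h1.continuousAt
  refine l.unique (d.congr_of_eventuallyEq ?_)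
  filter_upwards [t1.eventually (h.op.mem_nhds hq), t2.eventually h3,
    (t3.comp t2).eventually (h.op.mem_nhds hq),
    b.continuousAt.eventually_ne (y := 0) (by simp)] with t k1 k2 k3 k4
  exact h.inj _ k1 _ k3
    ((Pp.smul k4 _).symm.trans (k2 (cone_pp (Pp.smul k4 _) (h.mem _ k1))))

lemma an_swap (q : C2) : AnalyticAt ℂ (Prod.swap : C2 → C2) q :=
  analyticAt_snd.prod analyticAt_fst

lemma swap (h : Bi W O g) : Bi W (Prod.swap ⁻¹' O) fun q => g q.swap := by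
  refine ⟨h.op.preimage continuous_swap, fun q hq => (h.an _ hq).comp (an_swap q),
    fun q hq => h.mem _ hq, fun q hq q' hq' e => Prod.swap_injective (h.inj _ hq _ hq' e),
    fun q hq => ?_⟩
  obtain ⟨ψ, h1, h2, h3⟩ := h.loc _ hq
  exact ⟨fun y => (ψ y).swap, (an_swap _).comp h1, by simp only [h2, Prod.swap_swap],
    by simpa only [Prod.swap_swap] using h3⟩

variable {K : Type} [Field K] [Algebra ℂ K]

lemma ext_vl {z : Fin n → K} (hz : GenPt W z) {y : V n} (hy : y ∈ Cone W) {f : K}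
    (h : Reg z y f) : ∃ ψ : V n → ℂ, AnalyticAt ℂ ψ y ∧ ψ y = vl z f y ∧
      ∀ᶠ w in 𝓝 y, w ∈ Cone W → ψ w = vl z f w := by
  obtain ⟨A, B, d, hA, hB, b, rfl⟩ := h
  have e : ∀ P : PR n, AnalyticAt ℂ (fun w : V n => eval w P) y := fun P => by
    simpa [aeval_eq_eval] using AnalyticAt.aeval_mvPolynomial
      (analyticAt_pi_iff.1 (analyticAt_id (𝕜 := ℂ) (z := y))) P
  exact ⟨fun w => eval w A / eval w B, (e A).div (e B) b, (vl_eq (Cone.on hz hy) hA hB b).symm,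
    ((e B).continuousAt.eventually_ne b).mono fun w w1 w2 =>
      (vl_eq (Cone.on hz w2) hA hB w1).symm⟩

lemma par {N : ℕ} {S : Sf K N} {x : PP S.z} {p q : K} {Γ : C2 → V (N + 1)} {ε : ℝ}
    (h : Par S x p q Γ ε) : ∃ ε' : ℝ, 0 < ε' ∧ ε' ≤ ε ∧ Bi S.W (ball 0 ε') Γ := by
  obtain ⟨δ, δ0, hδ⟩ := h.near ε h.e0
  have m0 := mem_ball_self (x := (0 : C2)) h.e0
  have g0 : Γ 0 ≠ 0 := (h.val 0 m0).1.1
  have x0 : x.z ≠ 0 := h.zero.symm.ne g0
  have t := d2_lim (h.an 0 m0).continuousAt.tendsto tendsto_const_nhds g0 x0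
  rw [(d2_eq_zero g0 x0).2 h.zero] at t
  obtain ⟨r, r0, hr⟩ := Metric.eventually_nhds_iff_ball.1 (t.eventually_lt_const δ0)
  have s : ball (0 : C2) (min r ε) ⊆ ball 0 ε := ball_subset_ball (min_le_right _ _)
  refine ⟨min r ε, lt_min r0 h.e0, min_le_right _ _, isOpen_ball, h.an.mono s,
    fun w hw => (h.val w (s hw)).1, fun w hw w' hw' e => ?_, fun w hw => ?_⟩
  · obtain ⟨-, -, -, a1, a2⟩ := h.val w (s hw)
    obtain ⟨b0, b1, b2, b3, b4⟩ := h.val w' (s hw')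
    have o := Cone.on S.gen b0
    exact Prod.ext (by rw [← a1, ← b3, e.vl o b1]) (by rw [← a2, ← b4, e.vl o b2])
  · obtain ⟨a0, a1, a2, a3, a4⟩ := h.val w (s hw)
    obtain ⟨ψ, b1, b2, b3⟩ := ext_vl S.gen a0 a1
    obtain ⟨χ, c1, c2, c3⟩ := ext_vl S.gen a0 a2
    have u := d2_lim (tendsto_id (x := 𝓝 (Γ w))) tendsto_const_nhds a0.1 x0
    refine ⟨fun y => (ψ y, χ y), b1.prod c1, by simp only [b2, c2, a3, a4], ?_⟩
    filter_upwards [b3, c3, u.eventually_lt_const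
      (hr w (ball_subset_ball (min_le_left _ _) hw))] with y k1 k2 k3 hy
    rw [k1 hy, k2 hy]
    exact (hδ y hy k3).2.2.2

end RImm

theorem rowImm : ImmStmt :=
  ⟨fun _ _ _ _ h => ⟨fun _ hq v v0 e => v0 (RImm.imm h hq v e), RImm.swap h⟩,
    fun _ _ _ _ _ _ _ _ _ _ h => RImm.par h⟩

end Pool.Agent.MP_c69980_ag.G3G
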