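import Pool.Agent.MP_c69980_ag.G3G.SpecB
import Pool.Agent.MP_c69980_ag.E1.Chart

/-!
Change of coordinates in a chart.
-/

set_option autoImplicit false

namespace Pool.Agent.MP_c69980_ag.G3G

open MvPolynomial Metric Filter Topology Set
open H60 H4 E1 G3

theorem rowInv : InvStmt := by
  intro n W O g q G h hq hG hi
  obtain ⟨H, h1, h2, h3⟩ := ChartAux.ift hG hi
  have e : H (G q) = q := h2.self_of_nhds
  have c : Tendsto H (𝓝 (G q)) (𝓝 q) := by simpa [ContinuousAt, e] using h1.continuousAt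
  obtain ⟨r, r0, hr⟩ := Metric.eventually_nhds_iff_ball.1 (h1.eventually_analyticAt.and (h3.and
    (c.eventually ((hG.eventually_analyticAt.and h2.eventually_nhds).and (h.op.mem_nhds hq)))))
  refine ⟨r, H, r0, fun y hy => (hr y hy).1, e, fun y hy => ⟨(hr y hy).2.2.2, (hr y hy).2.1⟩,
    isOpen_ball, fun y hy => (h.an _ (hr y hy).2.2.2).comp (hr y hy).1,
    fun y hy => h.mem _ (hr y hy).2.2.2, fun y hy y' hy' p => ?_, fun y hy => ?_⟩
  · rw [← (hr y hy).2.1, h.inj _ (hr y hy).2.2.2 _ (hr y' hy').2.2.2 p, (hr y' hy').2.1]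
  · obtain ⟨-, a2, ⟨a3, a4⟩, a5⟩ := hr y hy
    obtain ⟨ψ, k1, k2, k3⟩ := h.loc _ a5
    have c2 : Tendsto ψ (𝓝 (g (H y))) (𝓝 (H y)) := by
      simpa [ContinuousAt, k2] using k1.continuousAt
    refine ⟨fun w => G (ψ w), a3.comp_of_eq k1 k2, by simp only [k2, a2], ?_⟩
    filter_upwards [k3, c2.eventually a4] with w b1 b2 hw
    rw [b2]
    exact b1 hw

end Pool.Agent.MP_c69980_ag.G3G
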