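import Pool.Agent.MP_c69980_ag.G3G.SpecB

/-!
The monomial chart at a zero of the unit.
-/

set_option autoImplicit false

noncomputable section

namespace Pool.Agent.MP_c69980_ag.G3G

open MvPolynomial Metric Filter Topology Set
open H60 H4 E1 G3
open I2 (Sf Br Gm Par Sp PP CC G0 CP Ov GenO BrStmt ParStmt MaxStmt CPStmt)

namespace RMco

lemma im_iff (hP : PrjStmt) {n : ℕ} {S : Set (Pt n)} (h0 : ∀ x ∈ S, x.2 ≠ 0)
    (hS : ∀ t y w, Pp w y → (t, y) ∈ S → (t, w) ∈ S) {t : ℂ} {y : V n} (y0 : y ≠ 0) :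
    (t, prj y) ∈ Im S ↔ (t, y) ∈ S := by
  refine ⟨?_, fun h => ⟨(t, y), h, rfl⟩⟩
  rintro ⟨⟨t', w⟩, hx, e⟩
  obtain ⟨rfl, e2⟩ := Prod.mk.inj e
  exact hS _ w y (((hP n).1 y w y0 (h0 _ hx)).1 e2.symm) hx

/-- The Jacobian of a map whose image lies on the graph of a monomial. -/
lemma jac {x : C2 → C2} {p : C2} (hx : DifferentiableAt ℂ x p) {a b : ℕ} (a0 : 0 < a) (σ : ℂ)
    (h : ∀ᶠ p' in 𝓝 p, (x p').1 ^ a * (x p').2 ^ b = Complex.exp (-(σ * p'.1))) :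
    (a : ℂ) * jb (fun q => (x q).1) (fun q => (x q).2) p =
      -σ * (x p).1 * dw (fun q => (x q).2) p := by
  have hu := hx.fst.hasFDerivAt
  have hv := hx.snd.hasFDerivAt
  have h1 := (hu.pow a).fun_mul (hv.pow b)
  have h2 : HasFDerivAt (fun p' : C2 => Complex.exp (-(σ * p'.1)))
      (Complex.exp (-(σ * p.1)) • -(σ • ContinuousLinearMap.fst ℂ ℂ ℂ)) p :=
    ((hasFDerivAt_fst.const_mul σ).fun_neg).cexp
  have e := (h1.congr_of_eventuallyEq (h.mono fun _ k => k.symm)).unique h2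
  have e0 := h.self_of_nhds
  have n0 : (x p).1 ^ a * (x p).2 ^ b ≠ 0 := e0 ▸ Complex.exp_ne_zero _
  have e1 := congrArg (fun L : C2 →L[ℂ] ℂ => L (1, 0)) e
  have e2 := congrArg (fun L : C2 →L[ℂ] ℂ => L (0, 1)) e
  simp only [add_apply, smul_apply, smul_eq_mul, nsmul_eq_mul, neg_apply,
    ContinuousLinearMap.coe_fst', ← e0] at e1 e2
  obtain ⟨k, rfl⟩ : ∃ k, a = k + 1 := ⟨a - 1, by omega⟩
  have n1 : (x p).1 ^ k * (x p).2 ^ b ≠ 0 :=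
    mul_ne_zero (pow_ne_zero _ fun q => n0 (by simp [q])) (right_ne_zero_of_mul n0)
  refine mul_left_cancel₀ n1 ?_
  rw [jb, dw]
  simp only [Nat.add_sub_cancel] at e1 e2
  linear_combination fderiv ℂ (fun q => (x q).2) p (0, 1) * e1 -
    fderiv ℂ (fun q => (x q).2) p (1, 0) * e2

lemma jb_snd (P : C2 → ℂ) (y : C2) : jb P Prod.snd y = fderiv ℂ P y (1, 0) := by
  rw [jb, fderiv_snd]
  simp

variable {K : Type} [Field K] [Algebra ℂ K] {N : ℕ} {d : GD K N} {A : Amb (Wg (N + 1))}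
  {X : Set (Pt (N + 1))} {Ψ : Fin 3 → Pt (N + 1) → V (N + 1) → ℂ}

lemma x_pp (L : Lnk d A X Ψ) (t : ℂ) (y w : V (N + 1)) (h : Pp w y) (hy : (t, y) ∈ X) :
    (t, w) ∈ X := by
  obtain ⟨h1, h2, h3⟩ := (L.xl t y).1 hy
  exact (L.xl t w).2 ⟨cone_pp h h1, h.reg h2, (h.vl (Cone.on d.gen h1) h2).trans h3⟩

lemma zb_iff (hP : PrjStmt) (L : Lnk d A X Ψ) {t : ℂ} {y : V (N + 1)} (y0 : y ≠ 0) :
    (t, prj y) ∈ A.Zb ↔ (t, y) ∈ X := by
  rw [L.amb.zb]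
  exact im_iff hP (fun x hx => ((L.xl x.1 x.2).1 hx).1.1) (x_pp L) y0

lemma z_iff (hP : PrjStmt) (L : Lnk d A X Ψ) {t : ℂ} {y : V (N + 1)} (y0 : y ≠ 0) :
    (t, prj y) ∈ A.Z ↔ (t, y) ∈ X ∧ y ∈ Cone d.Uo := by
  rw [L.amb.z]
  exact im_iff hP (S := E2.Op X d.Uo) (fun x hx => hx.2.1)
    (fun t y w h hy => And.intro (x_pp L t y w h hy.1) (cone_pp h hy.2)) y0

variable {x : PP d.z} {p q ε : K} {a b c : ℕ} {g : C2 → V (N + 1)} {J : C2 → ℂ} {r : ℝ}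

lemma mem_iff (L : Lnk d A X Ψ) (hL : LA d x p q ε a b c) (hM : Mo d.toSf x p q ε a g J r)
    {y : C2} (hy : y ∈ ball (0 : C2) r) (t : ℂ) :
    (t, g y) ∈ X ↔ y.1 ^ a * y.2 ^ b = tau A t := by
  obtain ⟨-, r1, r2, r3, v1, v2, v3⟩ := hM.val y hy
  have m := hM.bi.mem y hy
  have o := Cone.on d.gen m
  have k1 := vl_mul o r3 (vl_pow o r1 a).1
  have k2 := vl_mul o k1.1 (vl_pow o r2 b).1
  have e : vl d.z d.τ (g y) = y.1 ^ a * y.2 ^ b := by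
    rw [hL.eq, k2.2, k1.2, (vl_pow o r1 a).2, (vl_pow o r2 b).2, v1, v2]
    linear_combination y.1 ^ a * y.2 ^ b * v3
  rw [L.xl, e]
  exact ⟨fun h => h.2.2, fun h => ⟨m, hL.eq ▸ k2.1, h⟩⟩

/-- The regular functions given by the forms. -/
def sl (d : GD K N) (p q : K) (c : ℕ) (l : Fin 3) : K :=
  (p * q ^ c) ^ d.m * d.h l / Wd d.D p q ^ d.m

/-- The coefficients of the forms. -/
def ph (d : GD K N) (σ : ℂ) (p q : K) (a c : ℕ) (g : C2 → V (N + 1)) (J : C2 → ℂ) (l : Fin 3)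
    (y : C2) : ℂ :=
  vl d.z (sl d p q c l) (g y) *
    (fderiv ℂ (fun y : C2 => y.1 * J y) y (1, 0) * -σ / (a * J y)) ^ d.m

lemma cf (hP : PrjStmt) (hF : FrmStmt) (B : Br d.toSf) (P : ∀ C : CC d.z, CP C)
    (L : Lnk d A X Ψ) (hL : LA d x p q ε a b c) (hM : Mo d.toSf x p q ε a g J r)
    {u : C2 → C2} {w : C2} (hu : AnalyticAt ℂ u w) (hw : u w ∈ ball (0 : C2) r)
    (hZ : A.LZ (fun w' => prj (g (u w'))) w) (l : Fin 3) (hs : Reg d.z (g (u w)) (sl d p q c l))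
    (hq : (u w).2 ^ c ≠ 0) :
    A.cf (fun w' => prj (g (u w'))) w l =
      ph d A.σ p q a c g J l (u w) * (dw (fun w' => (u w').2) w / (u w).2 ^ c) ^ A.m := by
  have eb : ∀ᶠ w' in 𝓝 w, u w' ∈ ball (0 : C2) r :=
    hu.continuousAt.eventually (isOpen_ball.mem_nhds hw)
  have an : AnalyticAt ℂ (fun w' => g (u w')) w := (hM.bi.an _ hw).comp hu
  have m := hM.bi.mem _ hw
  have o := Cone.on d.gen m
  obtain ⟨g', ⟨a1, a2, a3⟩, a4, a5, -⟩ := (L.amb.lc _ _).1 hZ.1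
  have pp : ∀ᶠ w' in 𝓝 w, Pp (g (u w')) (g' w') := by
    filter_upwards [eb, a3, a1.continuousAt.eventually_ne a2] with w' k1 k2 k3
    exact ((hP _).1 _ _ (hM.bi.mem _ k1).1 k3).1 k2
  have eX : ∀ᶠ w' in 𝓝 w, (w'.1, g (u w')) ∈ X := by
    filter_upwards [pp, a4] with w' k1 k2 using x_pp L _ _ _ k1 k2
  have em : ∀ᶠ w' in 𝓝 w, (u w').1 ^ a * (u w').2 ^ b = Complex.exp (-(A.σ * w'.1)) := by
    filter_upwards [eb, eX] with w' k1 k2 using (mem_iff L hL hM k1 _).1 k2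
  have u0 : (u w).1 ≠ 0 := fun k => Complex.exp_ne_zero _
    (em.self_of_nhds.symm.trans (by simp [k, hL.a0.ne']))
  obtain ⟨J0, r1, r2, -, v1, v2, -⟩ := hM.val _ hw
  have k1 := vl_mul o r1 (vl_pow o r2 c).1
  have k2 := vl_pow o k1.1 d.m
  have v3 : vl d.z ((p * q ^ c) ^ d.m) (g (u w)) = ((u w).1 * J (u w) * (u w).2 ^ c) ^ d.m := by
    rw [k2.2, k1.2, (vl_pow o r2 c).2, v1, v2]
  have n3 : vl d.z ((p * q ^ c) ^ d.m) (g (u w)) ≠ 0 :=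
    v3 ▸ pow_ne_zero _ (mul_ne_zero (mul_ne_zero u0 J0) hq)
  have n4 : (p * q ^ c) ^ d.m ≠ 0 := fun k => n3 (k ▸ (vl_zero o).2)
  have e : d.h l / Wd d.D p q ^ d.m = sl d p q c l / (p * q ^ c) ^ d.m := by
    rw [sl, mul_div_assoc, mul_div_cancel_left₀ _ n4]
  have k3 := vl_div o hs ⟨k2.1, n3⟩
  have dP : DifferentiableAt ℂ (fun y : C2 => y.1 * J y) (u w) :=
    (analyticAt_fst.mul (hM.an _ hw)).differentiableAt
  have j1 : jb (fun w' => vl d.z p (g (u w'))) (fun w' => vl d.z q (g (u w'))) w =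
      fderiv ℂ (fun y : C2 => y.1 * J y) (u w) (1, 0) *
        jb (fun w' => (u w').1) (fun w' => (u w').2) w := by
    rw [← jb_snd, ← jb_comp dP differentiableAt_snd hu.differentiableAt]
    exact jb_congr (eb.mono fun w' k => (hM.val _ k).2.2.2.2.1)
      (eb.mono fun w' k => (hM.val _ k).2.2.2.2.2.1)
  have j2 := jac hu.differentiableAt hL.a0 (A.σ : ℂ) em
  have a0 : (a : ℂ) ≠ 0 := by exact_mod_cast hL.a0.ne'
  rw [L.amb.cf _ _ (fun w' => g (u w')) hZ.1 ⟨an, m.1, .of_forall fun _ => rfl⟩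
      ((z_iff hP L m.1).1 hZ.2).2,
    hF K N d B P A X Ψ L _ w l p q an eX (Rx.pp a5 pp.self_of_nhds) r1 r2 hL.wd (e ▸ k3.1), e,
    k3.2, v3, j1, ph, L.amb.hm, mul_assoc (vl _ _ _), ← mul_pow, div_mul_eq_mul_div,
    mul_div_assoc, ← div_pow, eq_div_of_mul_eq a0 ((mul_comm _ _).trans j2)]
  congr 2
  field_simp

end RMco

open RMco in
theorem rowMco : McoOf := by
  intro hP hF K _ _ N d B P A X Ψ L F x p q ε a b c g J r hS hL hM
  obtain ⟨δ, δ0, hδ⟩ := hL.opn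
  have z0 : (0 : C2) ∈ ball (0 : C2) r := mem_ball_self hM.r0
  have eb : ∀ᶠ y in 𝓝 (0 : C2), y ∈ ball (0 : C2) r := isOpen_ball.mem_nhds z0
  have ga := hM.bi.an _ z0
  have g0 : g 0 ≠ 0 := (hM.bi.mem _ z0).1
  have x0 : x.z ≠ 0 := (B.cone x).1
  have va := fun l => vl_an (f := sl d p q c l) ga
    (eb.mono fun y k => Cone.on d.gen (hM.bi.mem y k)) ((B.reg x _ _ hM.zero).1 (hL.frm l))
  have e1 : ∀ᶠ y in 𝓝 (0 : C2), d2 (g y) x.z < δ :=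
    (d2_lim ga.continuousAt tendsto_const_nhds g0 x0).eventually
      (gt_mem_nhds (by rwa [(d2_eq_zero g0 x0).2 hM.zero]))
  have a0 : (a : ℂ) ≠ 0 := by exact_mod_cast hL.a0.ne'
  have cn : ∀ l, ContinuousAt (ph d A.σ p q a c g J l) 0 := fun l => by
    have c1 : ContinuousAt (fun y : C2 => fderiv ℂ (fun y : C2 => y.1 * J y) y (1, 0)) 0 :=
      (analyticAt_fst.mul (hM.an _ z0)).fderiv.continuousAt.clm_apply continuousAt_const
    exact (va l).1.continuousAt.mul (((c1.mul continuousAt_const).div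
      (continuousAt_const.mul (hM.an _ z0).continuousAt)
      (mul_ne_zero a0 (hM.val _ z0).1)).pow _)
  have e2 : ∀ᶠ y in 𝓝 (0 : C2), ∀ l, Reg d.z (g y) (sl d p q c l) ∧
      ‖ph d A.σ p q a c g J l y‖ ≤ ∑ i, ‖ph d A.σ p q a c g J i 0‖ + 1 := by
    refine eventually_all.2 fun l => (va l).2.and ((cn l).norm.eventually (ge_mem_nhds ?_))
    exact lt_of_le_of_lt (Finset.single_le_sum (f := fun i => ‖ph d A.σ p q a c g J i 0‖)
      (fun _ _ => norm_nonneg _) (Finset.mem_univ l)) (lt_add_one _)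
  obtain ⟨ρ, ρ0, hρ⟩ := Metric.eventually_nhds_iff_ball.1 (e1.and e2)
  have s1 : ball (0 : C2) (min ρ r) ⊆ ball 0 ρ := ball_subset_ball (min_le_left _ _)
  have s2 : ball (0 : C2) (min ρ r) ⊆ ball 0 r := ball_subset_ball (min_le_right _ _)
  have fib : ∀ y ∈ ball (0 : C2) (min ρ r), ∀ t,
      (t, prj (g y)) ∈ A.Zb ↔ y.1 ^ a * y.2 ^ b = tau A t := fun y hy t =>
    (zb_iff hP L (hM.bi.mem y (s2 hy)).1).trans (mem_iff L hL hM (s2 hy) t)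
  have opn : ∀ y ∈ ball (0 : C2) (min ρ r), ∀ t, (t, prj (g y)) ∈ A.Zb →
      ((t, prj (g y)) ∈ A.Z ↔ y.2 ^ c ≠ 0) := fun y hy t ht => by
    have m := hM.bi.mem y (s2 hy)
    obtain ⟨J0, -, -, -, v1, v2, -⟩ := hM.val y (s2 hy)
    have y0 : y.1 ≠ 0 := fun k => tau_ne t
      (((fib y hy t).1 ht).symm.trans (by simp [k, hL.a0.ne']))
    rw [z_iff hP L m.1, hδ _ m (hρ y (s1 hy)).1, v1, v2,
      and_iff_right ((zb_iff hP L m.1).1 ht)]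
    exact ⟨right_ne_zero_of_mul, mul_ne_zero (mul_ne_zero y0 J0)⟩
  refine ⟨min ρ r, ph d A.σ p q a c g J, min_le_right _ _, lt_min ρ0 hM.r0, hL.a0, hL.c1, hL.bc,
    fun y hy => (hS.ch _ _).2 ⟨_, g, hM.bi, s2 hy, .of_forall fun _ => rfl⟩,
    fun y hy y' hy' e => hM.bi.inj y (s2 hy) y' (s2 hy')
      (((hP _).1 _ _ (hM.bi.mem y (s2 hy)).1 (hM.bi.mem y' (s2 hy')).1).1 e),
    fib, opn, ⟨_, fun l y hy => ((hρ y (s1 hy)).2 l).2⟩, fun u w hu hw hZ l => ?_⟩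
  exact cf hP hF B P L hL hM hu (s2 hw) hZ l ((hρ _ (s1 hw)).2 l).1
    ((opn _ hw _ (A.sub hZ.2)).1 hZ.2)

end Pool.Agent.MP_c69980_ag.G3G
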