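import Pool.Agent.MP_c69980_ag.G3G.SpecB

/-! The unit is absorbed in the first coordinate. -/

set_option autoImplicit false

noncomputable section

namespace Pool.Agent.MP_c69980_ag.G3G

open MvPolynomial Metric Filter Topology Set
open H60 H4 E1 G3
open I2 (Sf Br Gm Par Sp PP CC G0 CP ParStmt)

namespace RMon

lemma root {E : C2 → ℂ} (hE : AnalyticAt ℂ E 0) (h0 : E 0 ≠ 0) {a : ℕ} (ha : 0 < a) :
    ∃ ρ : C2 → ℂ, ∀ᶠ w in 𝓝 (0 : C2), AnalyticAt ℂ ρ w ∧ ρ w ^ a = E w ∧ ρ w ≠ 0 := by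
  obtain ⟨c, hc⟩ := IsAlgClosed.exists_pow_nat_eq (E 0) ha
  have c0 : c ≠ 0 := fun e => h0 (by rw [← hc, e, zero_pow ha.ne'])
  have a0 : (a : ℂ) ≠ 0 := Nat.cast_ne_zero.2 ha.ne'
  have h1 : AnalyticAt ℂ (fun w => Complex.log (E w / E 0)) 0 :=
    (hE.div analyticAt_const h0).clog (by simp [div_self h0])
  have h2 : AnalyticAt ℂ (fun w => c * Complex.exp (Complex.log (E w / E 0) / a)) 0 :=
    analyticAt_const.mul (h1.div analyticAt_const a0).cexp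
  refine ⟨_, (h2.eventually_analyticAt.and (hE.continuousAt.eventually_ne h0)).mono
    fun w hw => ⟨hw.1, ?_, mul_ne_zero c0 (Complex.exp_ne_zero _)⟩⟩
  rw [mul_pow, hc, ← Complex.exp_nat_mul, mul_div_cancel₀ _ a0,
    Complex.exp_log (div_ne_zero hw.2 h0), mul_div_cancel₀ _ h0]

lemma der {ρ : C2 → ℂ} (h : AnalyticAt ℂ ρ 0) (h0 : ρ 0 ≠ 0) (v : C2)
    (e : fderiv ℂ (fun w : C2 => ((w.1 * ρ w, w.2) : C2)) 0 v = 0) : v = 0 := by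
  have h1 := ((hasFDerivAt_fst (𝕜 := ℂ) (p := (0 : C2))).mul
    h.differentiableAt.hasFDerivAt).prodMk (hasFDerivAt_snd (𝕜 := ℂ) (p := (0 : C2)))
  have h2 : fderiv ℂ (fun w : C2 => ((w.1 * ρ w, w.2) : C2)) 0 = _ := h1.fderiv
  rw [h2] at e
  simp [Prod.ext_iff, h0] at e
  exact Prod.ext e.1 e.2

end RMon

open RMon in
theorem rowMon : MonOf := by
  intro hP hI hM K _ _ N S hB _ x p q ε a hg hε e0 ha
  obtain ⟨Γ, ε₀, P⟩ := hP K N S hB x p q hg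
  obtain ⟨ε', p0, hle, hb⟩ := hM.2 K N S x p q Γ ε₀ P
  have m0 : (0 : C2) ∈ ball (0 : C2) ε' := mem_ball_self p0
  have n0 : ball (0 : C2) ε' ∈ 𝓝 (0 : C2) := isOpen_ball.mem_nhds m0
  obtain ⟨hE, hR⟩ := vl_an (hb.an 0 m0)
    (mem_of_superset n0 fun w hw => Cone.on S.gen (hb.mem w hw))
    ((hB.reg x _ ε P.zero).1 hε)
  have E0 : vl S.z ε (Γ 0) ≠ 0 := by
    rwa [P.zero.vl (Cone.on S.gen (hB.cone x)) ((hB.reg x _ ε (Pp.refl _)).1 hε)]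
  obtain ⟨ρ, hρ⟩ := root hE E0 ha
  obtain ⟨O, hO, oO, O0⟩ := _root_.eventually_nhds_iff.1 ((hρ.and hR).and n0)
  have r0 := (hO 0 O0).1.1
  obtain ⟨r, H, h1, h2, h3, h4, h5⟩ := hI _ S.W O Γ 0 (fun w => (w.1 * ρ w, w.2))
    (hb.mono oO fun w hw => (hO w hw).2) O0
    ((analyticAt_fst.mul r0.1).prod analyticAt_snd) (der r0.1 r0.2.2)
  have z : ((((0 : C2).1 * ρ 0, (0 : C2).2)) : C2) = 0 := by simp
  simp only [z] at h2 h3 h4 h5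
  refine ⟨fun y => Γ (H y), fun y => (ρ (H y))⁻¹, r, h1, h5, by simpa only [h3] using P.zero,
    fun y hy => (((hO _ (h4 y hy).1).1.1.1.comp (h2 y hy)).inv (hO _ (h4 y hy).1).1.1.2.2),
    fun y hy => ?_⟩
  obtain ⟨⟨⟨-, k1, k2⟩, k3⟩, k4⟩ := hO _ (h4 y hy).1
  obtain ⟨-, v1, v2, v3, v4⟩ := P.val _ (ball_subset_ball hle k4)
  have e1 : (H y).1 * ρ (H y) = y.1 := (Prod.ext_iff.1 (h4 y hy).2).1
  have e2 : (H y).2 = y.2 := (Prod.ext_iff.1 (h4 y hy).2).2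
  refine ⟨inv_ne_zero k2, v1, v2, k3, ?_, v4.trans e2, ?_⟩
  · rw [v3, ← e1, mul_inv_cancel_right₀ k2]
  · rw [← k1, ← mul_pow, mul_inv_cancel₀ k2, one_pow]

end Pool.Agent.MP_c69980_ag.G3G
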