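import Pool.Agent.MP_c69980_ag.G3G.SpecA

/-!
The ports in the fibres.
-/

set_option autoImplicit false

noncomputable section

namespace Pool.Agent.MP_c69980_ag.G3G

open Metric Filter Topology Set
open G3

namespace RPa

variable {M : Type} [MetricSpace M] {A : Amb M} (G : Geo A)

/-- The coordinates of a port. -/
def xx (π : G.Prt) (p : C2) : C2 :=
  (rt A (G.a π.i) π.k p.1 / p.2 ^ G.e' π.i π.q, p.2 ^ G.e π.i π.q)

lemma small {r δ : ℝ} (hr : 0 < r) (hδ : 0 < δ) :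
    ∀ᶠ t in A.l, ∀ (π : G.Prt) (w : ℂ), r ≤ ‖w‖ → ‖(xx G π (t, w)).1‖ < δ := by
  refine eventually_all.2 fun π => ?_
  filter_upwards [rt_small (A := A) (G.a0' π.i) (mul_pos hδ (pow_pos hr (G.e' π.i π.q)))]
    with t ht w hw
  change ‖rt A (G.a π.i) π.k t / w ^ G.e' π.i π.q‖ < δ
  rw [norm_div, norm_pow, div_lt_iff₀ (pow_pos (hr.trans_le hw) _)]
  exact (ht π.k).trans_le (mul_le_mul_of_nonneg_left (pow_le_pow_left₀ hr.le hw _) hδ.le)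

variable {G} {r₀ : ℝ}

lemma pow_lt (h : G.Rad r₀) (π : G.Prt) {w : ℂ} (hw : ‖w‖ < r₀) : ‖w ^ G.e π.i π.q‖ < r₀ := by
  rw [norm_pow]
  exact (pow_le_of_le_one (norm_nonneg _) (hw.le.trans h.2.1) (G.e0 _ _).ne').trans_lt hw

lemma rad_lt (h : G.Rad r₀) (π : G.Prt) : r₀ < (G.ch π.i π.q).r := by
  have := h.2.2 π.i π.q π.mem π.inS
  have := h.1
  linarith

lemma mem (h : G.Rad r₀) (π : G.Prt) {t w : ℂ} (h1 : ‖(xx G π (t, w)).1‖ < r₀) (hw : ‖w‖ < r₀) :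
    xx G π (t, w) ∈ ball (0 : C2) (G.ch π.i π.q).r :=
  mem_b.2 ⟨h1.trans (rad_lt h π), (pow_lt h π hw).trans (rad_lt h π)⟩

lemma an (π : G.Prt) {p : C2} (hp : p.2 ≠ 0) : AnalyticAt ℂ (xx G π) p :=
  (((rt_an _ _ _).comp analyticAt_fst).div (analyticAt_snd.pow _) (pow_ne_zero _ hp)).prod
    (analyticAt_snd.pow _)

lemma dw_eq (π : G.Prt) (p : C2) :
    dw (fun p' => (xx G π p').2) p = G.e π.i π.q * p.2 ^ (G.e π.i π.q - 1) := by
  have h : HasFDerivAt (fun q : C2 => q.2 ^ G.e π.i π.q) _ p :=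
    (hasFDerivAt_snd (𝕜 := ℂ)).pow (G.e π.i π.q)
  change fderiv ℂ (fun q : C2 => q.2 ^ G.e π.i π.q) p (0, 1) = _
  rw [h.fderiv]
  simp

lemma mono (π : G.Prt) {p : C2} (hp : p.2 ≠ 0) :
    (xx G π p).1 ^ (G.ch π.i π.q).a * (xx G π p).2 ^ (G.ch π.i π.q).b = tau A p.1 := by
  rw [(G.ok _ _ π.mem).2.1]
  exact G.mono_P π p.1 (Or.inl hp)

lemma lz (π : G.Prt) {p : C2} (hp : p.2 ≠ 0) (hb : xx G π p ∈ ball (0 : C2) (G.ch π.i π.q).r) :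
    A.LZ (G.P π) p := by
  have ok := (G.ok _ _ π.mem).1
  refine ⟨ok.lc (x := xx G π) (an π hp) hb ?_ ?_, ?_⟩
  · filter_upwards [continuous_snd.continuousAt.eventually_ne hp] with q hq using mono π hq
  · exact (dw_eq π p).trans_ne
      (mul_ne_zero (by exact_mod_cast (G.e0 _ _).ne') (pow_ne_zero _ hp))
  · exact (ok.opn _ hb _ ((ok.fib _ hb _).2 (mono π hp))).2 (pow_ne_zero _ (pow_ne_zero _ hp))

lemma bound (π : G.Prt) : ∃ B : ℝ, ∀ t w : ℂ, w ≠ 0 → ‖w‖ ≤ 1 →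
    xx G π (t, w) ∈ ball (0 : C2) (G.ch π.i π.q).r →
    ∀ l, ‖w ^ A.m * A.cf (G.P π) (t, w) l‖ ≤ B := by
  have ok := (G.ok _ _ π.mem).1
  obtain ⟨B, hB⟩ := ok.bd
  refine ⟨B * G.e π.i π.q ^ A.m, fun t w h0 h1 hb l => ?_⟩
  have h2 : A.cf (G.P π) (t, w) l = _ := ok.cf (xx G π) (t, w) (an π h0) hb (lz π h0 hb) l
  have h3 : w * (G.e π.i π.q * w ^ (G.e π.i π.q - 1)) = G.e π.i π.q * w ^ G.e π.i π.q := by
    rw [mul_left_comm, ← pow_succ', Nat.sub_add_cancel (G.e0 _ _)]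
  have h4 : ‖G.e π.i π.q * w ^ G.e π.i π.q / (w ^ G.e π.i π.q) ^ (G.ch π.i π.q).c‖ ≤
      G.e π.i π.q := by
    rcases Nat.le_one_iff_eq_zero_or_eq_one.1 ok.c1 with hc | hc
    · rw [hc, pow_zero, div_one, norm_mul, Complex.norm_natCast, norm_pow]
      exact mul_le_of_le_one_right (Nat.cast_nonneg _) (pow_le_one₀ (norm_nonneg _) h1)
    · rw [hc, pow_one, mul_div_cancel_right₀ _ (pow_ne_zero _ h0), Complex.norm_natCast]
  rw [h2, dw_eq, mul_left_comm, ← mul_pow, ← mul_div_assoc, norm_mul, norm_pow]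
  refine mul_le_mul (hB l _ hb) (pow_le_pow_left₀ (norm_nonneg _) ?_ _) (by positivity)
    ((norm_nonneg _).trans (hB l _ hb))
  exact h3 ▸ h4

lemma inj (hA : G.Ar) (π π' : G.Prt) {t w w' : ℂ} (h0 : w ≠ 0)
    (hb : xx G π (t, w) ∈ ball (0 : C2) (G.ch π.i π.q).r)
    (hb' : xx G π' (t, w') ∈ ball (0 : C2) (G.ch π'.i π'.q).r)
    (hs : ‖(xx G π (t, w)).1‖ < ‖w'‖ ^ G.e π'.i π'.q) (h : G.P π (t, w) = G.P π' (t, w')) :
    π = π' ∧ w = w' := by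
  have hq : π.q = π'.q := G.dj _ _ _ π.mem _ π'.mem π.inS π'.inS _ hb _ hb' h
  have ok := (G.ok _ _ π.mem).1
  obtain ⟨i, q, k, m, s, lt⟩ := π
  obtain ⟨i', q', k', m', s', lt'⟩ := π'
  obtain rfl : q = q' := hq
  by_cases hi : i = i'
  · subst hi
    have h1 := ok.inj hb hb' h
    obtain ⟨rfl, h2⟩ := hA.sep i q k lt k' lt' t w w' h0 (congrArg Prod.snd h1)
      (congrArg Prod.fst h1)
    exact ⟨rfl, h2⟩
  · obtain ⟨-, h1, h2⟩ := G.node i i' hi q m m'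
    have h3 : (xx G ⟨i', q, k', m', s', lt'⟩ (t, w')).swap ∈ ball (0 : C2) (G.ch i q).r :=
      mem_b.2 (h1 ▸ (mem_b.1 hb').symm)
    have h4 := congrArg (fun y : C2 => ‖y.1‖) (ok.inj hb h3 (h.trans (h2 _)))
    exact absurd (h4.trans (norm_pow _ _)) hs.ne

lemma lm (h : G.Rad r₀) (π : G.Prt) {r : ℝ} (hr : 0 < r) :
    Lm A.l (G.P π) (G.p π) {w | r ≤ ‖w‖ ∧ ‖w‖ < r₀} := by
  have hu := (isCompact_closedBall (0 : C2) r₀).uniformContinuousOn_of_continuous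
    ((G.ok _ _ π.mem).1.contOn.mono (closedBall_subset_ball (rad_lt h π)))
  refine Metric.tendstoUniformlyOn_iff.2 fun ε hε => ?_
  obtain ⟨δ, hδ, H⟩ := Metric.uniformContinuousOn_iff.1 hu ε hε
  filter_upwards [small G hr (lt_min hδ h.1)] with t ht w hw
  have h1 := lt_min_iff.1 (ht π w hw.1)
  have h2 := pow_lt h π hw.2
  refine H (0, w ^ G.e π.i π.q) (ball_subset_closedBall (mem_b.2 ⟨by simpa using h.1, h2⟩))
    (xx G π (t, w)) (ball_subset_closedBall (mem_b.2 ⟨h1.2, h2⟩)) ?_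
  rw [Prod.dist_eq, max_lt_iff]
  exact ⟨by simpa using h1.1, by simpa [xx] using hδ⟩

lemma cov (hA : G.Ar) (h : G.Rad r₀) (π : G.Prt) {w : ℂ} (hw : w ∈ ball (0 : ℂ) r₀ \ {0})
    {u : Ultrafilter (ℂ × M)} (hu : A.Out u) (hc : Cg u (G.p π w)) {ε : ℝ} (hε : 0 < ε) :
    ∀ᶠ x in (u : Filter (ℂ × M)),
      ∃ π' w', G.Fl π' π ∧ |‖w'‖ - ‖w‖| < ε ∧ x.2 = G.P π' (x.1, w') := by
  have ok := G.ok _ _ π.mem
  have he := (G.e0 π.i π.q).ne'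
  have key : ∀ v : ℂ, ‖v ^ G.e π.i π.q‖ ^ (G.e π.i π.q : ℝ)⁻¹ = ‖v‖ := fun v => by
    rw [norm_pow, Real.pow_rpow_inv_natCast (norm_nonneg _) he]
  have hb : ((0, w ^ G.e π.i π.q) : C2) ∈ ball (0 : C2) (G.ch π.i π.q).r :=
    mem_b.2 ⟨by simpa using ok.1.r0, (pow_lt h π (mem_ball_zero_iff.1 hw.1)).trans (rad_lt h π)⟩
  have h1 : ∀ᶠ y : C2 in 𝓝 (0, w ^ G.e π.i π.q), y.2 ≠ 0 :=
    continuous_snd.continuousAt.eventually_ne (pow_ne_zero _ hw.2)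
  have h2 : Continuous fun y : C2 => |‖y.2‖ ^ (G.e π.i π.q : ℝ)⁻¹ - ‖w‖| :=
    ((continuous_snd.norm.rpow_const fun _ => Or.inr (by positivity)).sub continuous_const).abs
  have h3 : ∀ᶠ y : C2 in 𝓝 (0, w ^ G.e π.i π.q), |‖y.2‖ ^ (G.e π.i π.q : ℝ)⁻¹ - ‖w‖| < ε :=
    h2.continuousAt.eventually_lt continuousAt_const (by simpa only [key, sub_self, abs_zero])
  filter_upwards [ok.1.near hb hu hc (h1.and h3)] with x hx
  obtain ⟨y, ⟨y0, y1⟩, -, y2, y3⟩ := hx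
  rw [ok.2.1] at y3
  obtain ⟨k, hk, w', e1, e2⟩ := hA.cov π.i π.q π.mem x.1 y y0 y3
  refine ⟨⟨π.i, π.q, k, π.mem, π.inS, hk⟩, w', ⟨rfl, rfl⟩, by rwa [← e1, key] at y1, ?_⟩
  rw [y2]
  exact congrArg (G.ch π.i π.q).Y (Prod.ext e2 e1.symm)

end RPa

open RPa in
theorem rowPa : PaStmt := by
  intro M _ A G hA r₀ h
  choose B hB using fun π : G.Prt => bound π
  obtain ⟨B₀, h0⟩ := Finite.exists_le B
  refine ⟨B₀, fun r hr => ?_, fun π r hr => lm h π hr,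
    fun π w hw u hu hc ε hε => cov hA h π hw hu hc hε⟩
  filter_upwards [small G hr h.1,
    eventually_all.2 fun π' : G.Prt => small G hr (pow_pos hr (G.e π'.i π'.q))]
    with t h1 h2 π w hw hw'
  have w0 : w ≠ 0 := norm_pos_iff.1 (hr.trans_le hw)
  have hb := mem h π (h1 π w hw) hw'
  exact ⟨lz π w0 hb, fun l => (hB π t w w0 (hw'.le.trans h.2.1) hb l).trans (h0 π),
    fun π' w' hv hv' e => inj hA π π' w0 hb (mem h π' (h1 π' w' hv) hv')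
      ((h2 π' π w hw).trans_le (pow_le_pow_left₀ hr.le hv _)) e⟩

end Pool.Agent.MP_c69980_ag.G3G
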