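import Pool.Agent.MP_c69980_ag.G3G.SpecA

/-!
The limits of the ports.
-/

set_option autoImplicit false

noncomputable section

namespace Pool.Agent.MP_c69980_ag.G3G

open Metric Filter Topology Set
open G3

namespace RPb

variable {M : Type} [MetricSpace M] {A : Amb M} {G : Geo A} {r₀ : ℝ}

lemma pw (hr : G.Rad r₀) (π : G.Prt) {w : ℂ} (hw : w ∈ ball (0 : ℂ) r₀) :
    w ^ G.e π.i π.q ∈ ball (0 : ℂ) (G.ch π.i π.q).r := by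
  rw [mem_ball_zero_iff] at hw ⊢
  have h1 := hr.2.2 π.i π.q π.mem π.inS
  have h2 : ‖w‖ ^ G.e π.i π.q ≤ ‖w‖ :=
    pow_le_of_le_one (norm_nonneg _) (hw.le.trans hr.2.1) (G.e0 _ _).ne'
  rw [norm_pow]
  linarith [hr.1]

lemma dne {e : ℕ} (he : 0 < e) {w : ℂ} (hw : w ≠ 0) : (e : ℂ) * w ^ (e - 1) ≠ 0 :=
  mul_ne_zero (by exact_mod_cast he.ne') (pow_ne_zero _ hw)

lemma maps (hA : G.Ax) (hr : G.Rad r₀) (π : G.Prt) :
    MapsTo (G.p π) (ball 0 r₀ \ {0}) (G.C π.i) := fun _ hw =>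
  hA.mem π.i π.q π.mem _ (pw hr π hw.1) (Or.inl (pow_ne_zero _ hw.2))

lemma cont (hA : G.Ax) (hr : G.Rad r₀) (π : G.Prt) : ContinuousOn (G.p π) (ball 0 r₀) :=
  (hA.cont π.i π.q π.mem).comp (continuous_pow _).continuousOn fun _ hw => pw hr π hw

lemma pinj (hA : G.Ax) (hr : G.Rad r₀) (π : G.Prt) {w : ℂ} (hw : w ∈ ball (0 : ℂ) r₀ \ {0}) :
    ∀ᶠ w' in 𝓝[≠] w, G.p π w' ≠ G.p π w := by
  have h1 : ∀ᶠ w' in 𝓝[≠] w, w' ^ G.e π.i π.q ≠ w ^ G.e π.i π.q :=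
    (hasDerivAt_pow (G.e π.i π.q) w).eventually_ne (dne (G.e0 _ _) hw.2)
  filter_upwards [h1, mem_nhdsWithin_of_mem_nhds (isOpen_ball.mem_nhds hw.1)] with w' h2 h3 h4
  exact h2 (hA.inj π.i π.q π.mem (pw hr π h3) (pw hr π hw.1) h4)

lemma po (hA : G.Ax) (hr : G.Rad r₀) (π : G.Prt) {w : ℂ} (hw : w ∈ ball (0 : ℂ) r₀ \ {0})
    {N : Set ℂ} (hN : N ∈ 𝓝 w) : G.p π '' N ∈ 𝓝[G.C π.i] (G.p π w) := by
  have h1 : (fun v : ℂ => v ^ G.e π.i π.q) '' N ∈ 𝓝 (w ^ G.e π.i π.q) := by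
    rw [← (hasStrictDerivAt_pow (G.e π.i π.q) w).map_nhds_eq (dne (G.e0 _ _) hw.2)]
    exact image_mem_map hN
  have h2 := hA.opn π.i π.q π.mem _ (pw hr π hw.1) _ h1
  rw [image_image] at h2
  exact nhdsWithin_mono _ (fun _ hx => hx.1) h2

lemma pnorm (hA : G.Ax) (hr : G.Rad r₀) (π π' : G.Prt) {w w' : ℂ}
    (hw : w ∈ ball (0 : ℂ) r₀ \ {0}) (hw' : w' ∈ ball (0 : ℂ) r₀ \ {0})
    (h : G.p π w = G.p π' w') : G.Fl π π' ∧ ‖w‖ = ‖w'‖ := by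
  have m := maps hA hr π hw
  have m' := maps hA hr π' hw'
  have b := pw hr π hw.1
  have b' := pw hr π' hw'.1
  have hi : π.i = π'.i := G.uniq m.1 (h ▸ m'.1) m.2
  have hq : π.q = π'.q := G.dj π.i π'.i π.q π.mem π'.q π'.mem π.inS π'.inS (0, w ^ G.e π.i π.q)
    (mem_b.2 ⟨by simpa using (G.ok _ _ π.mem).1.r0, mem_ball_zero_iff.1 b⟩)
    (0, w' ^ G.e π'.i π'.q)
    (mem_b.2 ⟨by simpa using (G.ok _ _ π'.mem).1.r0, mem_ball_zero_iff.1 b'⟩) h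
  refine ⟨⟨hi, hq⟩, ?_⟩
  unfold Geo.p at h
  rw [← hi, ← hq] at h b'
  have h1 := congrArg norm (hA.inj π.i π.q π.mem b b' h)
  rw [norm_pow, norm_pow] at h1
  exact (pow_left_inj₀ (norm_nonneg _) (norm_nonneg _) (G.e0 _ _).ne').1 h1

lemma cpt (hA : G.Ax) (hr : G.Rad r₀) (k : G.ι) {r : ℝ} (h0 : 0 < r) (h1 : r ≤ r₀) :
    IsCompact (G.C k \ ⋃ π : G.Prt, G.p π '' (ball 0 r \ {0})) := by
  have sub : G.C k \ ⋃ π : G.Prt, G.p π '' (ball 0 r \ {0}) ⊆ G.Cb k := fun _ hx => hx.1.1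
  refine (G.cpt k).of_isClosed_subset (isClosed_of_closure_subset fun x hx => ?_) sub
  have hxk : x ∈ G.Cb k := closure_minimal sub (G.cpt k).isClosed hx
  have := mem_closure_iff_nhdsWithin_neBot.1 hx
  have hS : x ∉ G.S := by
    intro hS
    have h2 := hA.opn k x hxk 0 (mem_ball_self (G.ok _ _ hxk).1.r0) _
      (ball_mem_nhds (0 : ℂ) (pow_pos h0 (G.e k x)))
    rw [G.ax0_zero hxk] at h2
    obtain ⟨y, ⟨s, hs, rfl⟩, hy⟩ :=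
      Filter.nonempty_of_mem (inter_mem (nhdsWithin_mono _ sub h2) self_mem_nhdsWithin)
    obtain ⟨w, rfl⟩ := IsAlgClosed.exists_pow_nat_eq s (G.e0 k x)
    rcases eq_or_ne w 0 with rfl | hw
    · rw [zero_pow (G.e0 k x).ne', G.ax0_zero hxk] at hy
      exact hy.1.2 hS
    · rw [mem_ball_zero_iff, norm_pow] at hs
      exact hy.2 (mem_iUnion.2 ⟨⟨k, x, 0, hxk, hS, G.g0 k x⟩, w,
        ⟨mem_ball_zero_iff.2 (lt_of_pow_lt_pow_left₀ _ h0.le hs), hw⟩, rfl⟩)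
  refine ⟨⟨hxk, hS⟩, fun hU => ?_⟩
  obtain ⟨π, w, hw, rfl⟩ := mem_iUnion.1 hU
  have hw' : w ∈ ball (0 : ℂ) r₀ \ {0} := ⟨ball_subset_ball h1 hw.1, hw.2⟩
  obtain rfl : π.i = k := G.uniq (maps hA hr π hw').1 hxk hS
  have h2 := po hA hr π hw' ((isOpen_ball.sdiff isClosed_singleton).mem_nhds hw)
  obtain ⟨y, hy, hy'⟩ := Filter.nonempty_of_mem
    (inter_mem (nhdsWithin_mono _ (fun _ hz => hz.1) h2) (self_mem_nhdsWithin (a := G.p π w)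
      (s := G.C π.i \ ⋃ π : G.Prt, G.p π '' (ball 0 r \ {0}))))
  exact hy'.2 (mem_iUnion.2 ⟨π, hy⟩)

lemma esc (hA : G.Ax) (hr : G.Rad r₀) (π : G.Prt) {k : G.ι} {c : M} (hc : c ∈ G.C k) :
    ∃ N ∈ 𝓝 c, ∀ᶠ w in 𝓝[≠] (0 : ℂ), G.p π w ∉ N := by
  have h1 : Tendsto (G.p π) (𝓝 0) (𝓝 (G.p π 0)) :=
    (cont hA hr π).continuousAt (ball_mem_nhds _ hr.1)
  have h2 : G.p π 0 = π.q := by
    rw [Geo.p, zero_pow (G.e0 _ _).ne', G.ax0_zero π.mem]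
  rw [h2] at h1
  obtain ⟨U, V, hU, hV, hd⟩ := t2_separation_nhds (show c ≠ π.q from fun e => hc.2 (e ▸ π.inS))
  refine ⟨U, hU, mem_nhdsWithin_of_mem_nhds ?_⟩
  filter_upwards [h1.eventually hV] with w hw hw'
  exact Set.disjoint_left.1 hd hw' hw

end RPb

theorem rowPb : PbStmt := fun _ _ _ _ hA _ hr =>
  ⟨fun π => ⟨(RPb.cont hA hr π).mono sdiff_subset, RPb.maps hA hr π⟩,
    fun π _ hw => RPb.pinj hA hr π hw, fun π _ hw _ hN => RPb.po hA hr π hw hN,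
    fun π π' _ hw _ hw' h => RPb.pnorm hA hr π π' hw hw' h,
    fun k _ h0 h1 => RPb.cpt hA hr k h0 h1, fun π _ _ hc => RPb.esc hA hr π hc⟩

end Pool.Agent.MP_c69980_ag.G3G
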