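import Pool.Agent.MP_c69980_ag.G3G.SpecB
import Pool.Agent.MP_c69980_ag.G3R.Gen

/-!
Rational function fields: values of the coordinate and the product formula.
-/

set_option autoImplicit false

noncomputable section

namespace Pool.Agent.MP_c69980_ag.G3G

open Set G3R.GenX Pool.Agent.MP_f3836a_nt.PK

namespace RPrd

variable {F : Type} [Field F] [Algebra ℂ F] (A : PlA ℂ F) (P : Place ℂ F) {f g : F}
include A

lemma one : P.ord 1 = 0 := by simpa using A.con P 1

lemma inv (hf : f ≠ 0) : P.ord f⁻¹ = -P.ord f := by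
  have := A.mul P f f⁻¹ hf (inv_ne_zero hf)
  rw [mul_inv_cancel₀ hf, one A] at this
  omega

lemma zp (hf : f ≠ 0) (n : ℤ) : P.ord (f ^ n) = n * P.ord f := by
  induction n with
  | zero => simp [one A]
  | succ n ih => rw [zpow_add_one₀ hf, A.mul P _ _ (zpow_ne_zero _ hf) hf, ih]; ring
  | pred n ih =>
    rw [zpow_sub_one₀ hf, A.mul P _ _ (zpow_ne_zero _ hf) (inv_ne_zero hf), ih, inv A P hf]; ring

lemma pr {ι : Type} (T : Finset ι) (u : ι → F) (hu : ∀ q ∈ T, u q ≠ 0) :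
    P.ord (∏ q ∈ T, u q) = ∑ q ∈ T, P.ord (u q) := by
  classical
  induction T using Finset.induction_on with
  | empty => simp [one A]
  | insert a s ha ih =>
    have h := fun q hq => hu q (Finset.mem_insert_of_mem hq)
    rw [Finset.prod_insert ha, Finset.sum_insert ha,
      A.mul P _ _ (hu a (Finset.mem_insert_self a s)) (Finset.prod_ne_zero_iff.2 h), ih h]

lemma ev_mul (hf : f ∈ P.V) (hg : g ∈ P.V) : ev P (f * g) = ev P f * ev P g := by
  obtain ⟨χ, h1, -⟩ := A.hom P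
  have := h1 (⟨f, hf⟩ * ⟨g, hg⟩)
  rw [map_mul, h1, h1] at this
  rw [ev, ev, ev, if_pos hf, if_pos hg, if_pos (mul_mem hf hg)]
  exact this.symm

lemma ev_c (c : ℂ) : ev P (algebraMap ℂ F c) = c := by
  obtain ⟨χ, -, h2⟩ := A.hom P
  rw [ev, if_pos (P.const c), h2]

lemma ev_zp (hf : f ≠ 0) (h0 : P.ord f = 0) (n : ℤ) : ev P (f ^ n) = ev P f ^ n := by
  have m : ∀ n : ℤ, f ^ n ∈ P.V := fun n =>
    (A.mem P _ (zpow_ne_zero _ hf)).2 (by rw [zp A P hf, h0, mul_zero])
  have m1 : f ∈ P.V := by simpa using m 1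
  have m2 : f⁻¹ ∈ P.V := by simpa using m (-1)
  have e1 : ev P (1 : F) = 1 := by simpa using ev_c A P 1
  have e := ev_mul A P m1 m2
  rw [mul_inv_cancel₀ hf, e1] at e
  have n0 : ev P f ≠ 0 := left_ne_zero_of_mul_eq_one e.symm
  induction n with
  | zero => simpa using e1
  | succ n ih => rw [zpow_add_one₀ hf, zpow_add_one₀ n0, ev_mul A P (m _) m1, ih]
  | pred n ih =>
    rw [zpow_sub_one₀ hf, zpow_sub_one₀ n0, ev_mul A P (m _) m2, ih,
      eq_inv_of_mul_eq_one_right e.symm]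

lemma ev_pr {ι : Type} (T : Finset ι) (u : ι → F) (hu : ∀ q ∈ T, u q ∈ P.V) :
    ev P (∏ q ∈ T, u q) = ∏ q ∈ T, ev P (u q) := by
  classical
  induction T using Finset.induction_on with
  | empty => simpa using ev_c A P 1
  | insert a s ha ih =>
    have h := fun q hq => hu q (Finset.mem_insert_of_mem hq)
    rw [Finset.prod_insert ha, Finset.prod_insert ha,
      ev_mul A P (hu a (Finset.mem_insert_self a s)) (prod_mem h), ih h]

lemma sp (B : PlB ℂ F) (hg : IntermediateField.adjoin ℂ {f} = ⊤) (ho : P.ord f < 0) : SP f P := by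
  classical
  have f0 : f ≠ 0 := fun e => by rw [e, PlB.ord_zero] at ho; omega
  have e := B.deg f⁻¹ (N96.tr_of_ord A P (by rw [inv A P f0]; omega))
  have t : IntermediateField.adjoin ℂ {f⁻¹} = ⊤ := top_unique (hg ▸ by
    rw [IntermediateField.adjoin_simple_le_iff]
    simpa using inv_mem (IntermediateField.mem_adjoin_simple_self ℂ f⁻¹))
  rw [IntermediateField.finrank_eq_one_iff_eq_top.2 t, finsum_eq_sum_of_support_subset _
    (s := (B.fin f).toFinset) (fun Q hQ => by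
      rw [Finite.coe_toFinset]
      intro r
      simp [inv A Q f0, r] at hQ)] at e
  have mP : P ∈ (B.fin f).toFinset := by simpa using ho.ne
  rw [← Finset.add_sum_erase _ _ mP, inv A P f0] at e
  have nn : ∀ Q ∈ (B.fin f).toFinset.erase P, 0 ≤ max (Q.ord f⁻¹) 0 := fun Q _ => le_max_right _ _
  have s0 := Finset.sum_nonneg nn
  refine ⟨by omega, fun Q hQ => by_contra fun r => ?_⟩
  have := (Finset.sum_eq_zero_iff_of_nonneg nn).1 (by omega) Q
    (Finset.mem_erase.2 ⟨hQ, by simpa using (not_le.1 r).ne⟩)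
  rw [inv A Q f0] at this
  omega

end RPrd

open RPrd in
theorem rowPrd : PrdStmt := by
  classical
  intro F _ _ _ A B ζ o hg ho
  have h := sp A o B hg ho
  have c := h.crd A B
  refine ⟨fun P hP => ⟨h.mem A hP, (h.sub A _).ne, (c.reg P hP).1, fun P' hP' e =>
    c.bij.2.1 hP' hP e⟩, fun ι T pl R R0 inj hT hR => ?_⟩
  obtain ⟨u, hu⟩ : ∃ u : ι → F, ∀ q, u q = ζ - algebraMap ℂ F (ev (pl q) ζ) := ⟨_, fun _ => rfl⟩
  have su : ∀ q, SP (u q) o := fun q => hu q ▸ h.sub A _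
  have u0 : ∀ q ∈ T, ∀ P : Place ℂ F, P ≠ o → pl q ≠ P → P.ord (u q) = 0 := fun q hq P hP hn => by
    refine le_antisymm (not_lt.1 fun r => hn ?_) ((su q).2 P hP)
    rw [hu] at r
    exact (c.bij.2.1 hP (hT q hq) ((h.pos A hP _).1 r)).symm
  have z0 : ∀ q ∈ T, u q ^ (pl q).ord R ≠ 0 := fun q _ => zpow_ne_zero _ (su q).ne
  have p0 := Finset.prod_ne_zero_iff.2 z0
  have od : ∀ P : Place ℂ F, P.ord (R / ∏ q ∈ T, u q ^ (pl q).ord R) =
      P.ord R - ∑ q ∈ T, (pl q).ord R * P.ord (u q) := fun P => by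
    rw [div_eq_mul_inv, A.mul P _ _ R0 (inv_ne_zero p0), inv A P p0, pr A P T _ z0, sub_eq_add_neg]
    simp only [zp A P (su _).ne]
  have o1 : ∀ P : Place ℂ F, P ≠ o → P.ord (R / ∏ q ∈ T, u q ^ (pl q).ord R) = 0 := fun P hP => by
    rw [od]
    by_cases r : ∃ q ∈ T, pl q = P
    · obtain ⟨q, hq, rfl⟩ := r
      rw [Finset.sum_eq_single_of_mem q hq fun q' hq' hn => by
        rw [u0 q' hq' _ hP fun e => hn (inj hq' hq e), mul_zero], hu, (c.reg _ hP).1]
      simp
    · rw [hR P hP fun q hq e => r ⟨q, hq, e⟩, Finset.sum_eq_zero fun q hq => by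
        rw [u0 q hq P hP fun e => r ⟨q, hq, e⟩, mul_zero], sub_zero]
  have o2 := B.sum (R / ∏ q ∈ T, u q ^ (pl q).ord R)
  rw [finsum_eq_single _ o o1] at o2
  obtain ⟨c₀, e⟩ := B.const _ fun P => (A.mem P _ (div_ne_zero R0 p0)).2 (by
    by_cases r : P = o
    · rw [r, o2]
    · rw [o1 P r])
  refine ⟨?_, c₀, fun r => div_ne_zero R0 p0 (by rw [e, r, map_zero]), fun P hP hn => ?_⟩
  · rw [od] at o2
    simp only [(su _).1, mul_neg, mul_one, Finset.sum_neg_distrib] at o2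
    omega
  · have m : ∀ q ∈ T, u q ^ (pl q).ord R ∈ P.V := fun q hq => (A.mem P _ (z0 q hq)).2 (by
      rw [zp A P (su q).ne, u0 q hq P hP (hn q hq), mul_zero])
    have e2 := ev_mul A P (P.const c₀) (prod_mem m)
    rw [← (div_eq_iff p0).1 e, ev_c A, ev_pr A P T _ m] at e2
    rw [e2]
    refine congrArg _ (Finset.prod_congr rfl fun q hq => ?_)
    rw [ev_zp A P (su q).ne (u0 q hq P hP (hn q hq)), hu, (c.reg P hP).2]

end Pool.Agent.MP_c69980_ag.G3G
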