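import Pool.Agent.MP_c69980_ag.G3G.SpecB
import Pool.Agent.MP_c69980_ag.I2.Sp
import Pool.Agent.MP_c69980_ag.I2.Log

/-! Row Prm: regular parameters and curves. -/

set_option autoImplicit false

noncomputable section

namespace Pool.Agent.MP_c69980_ag.G3G

open IsLocalRing H60 H4 E1
open I2 (Sf Br Gm Par Sp PP CC G0 CP FS Eqn)
open I2.SpA

namespace RPrm

variable {K : Type} [Field K] [Algebra ℂ K] {N : ℕ}

/-- A function that vanishes at `x` vanishes on a curve through `x`. -/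
theorem ex {ξ : Fin (N + 1) → K} (G : G0 ξ) (x : PP ξ) (a : x.ctr.O) (h0 : a ≠ 0)
    (hm : a ∈ maximalIdeal x.ctr.O) : ∃ C : CC ξ, x.On C ∧ C.res a = 0 := by
  have h1 : (a : K) ≠ 0 := fun h => h0 (Subtype.ext h)
  by_contra hn
  refine (mem_maximalIdeal _).1 hm (unit G x a h1 fun C hC => ?_)
  have h2 := (G.va.mem C a h1).1 (hC.le a.2)
  by_contra c
  exact hn ⟨C, hC, (G.va.pos C a h1 (hC.le a.2)).1 (by omega)⟩

theorem sp_of {S : Sf K N} (hB : Br S) {x : PP S.z} {C : CC S.z} (hx : x.On C)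
    (hD : IsDiscreteValuationRing (C.loc x)) (p q : x.ctr.O) (hp : Prime p)
    (hd : ∀ a : x.ctr.O, p ∣ a ↔ C.res a = 0) (hϖ : Irreducible (rho hB.g0 hx q))
    (hg : Gm S x p q) : Sp S x C p q := by
  classical
  have G := hB.g0
  have hloc : IsLocalHom (rho G hx) := IsLocalHom.of_surjective _ (rho_surj G hx)
  have hv : ∀ a : x.ctr.O, vl S.z a x.z = 0 ↔ ¬ IsUnit a := fun a =>
    (hB.max x a).symm.trans (mem_maximalIdeal a)
  have hker : ∀ a b : x.ctr.O, rho G hx a = rho G hx b → ∃ β : x.ctr.O, a = b + β * p := by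
    intro a b h
    obtain ⟨β, hβ⟩ := (hd (a - b)).2 ((rho_zero G hx _).1 (by rw [map_sub, h, sub_self]))
    exact ⟨β, by rw [mul_comm, ← hβ, add_sub_cancel]⟩
  have h0 : (p : K) ≠ 0 := fun h => hp.ne_zero (Subtype.ext h)
  have hv1 : C.v p = 1 := (G.va.pow x C hx p hp hd).1
  have hrp : C.res p = 0 := (hd p).1 dvd_rfl
  have hord : ∀ (u : (C.loc x)ˣ) (e : ℕ),
      C.ordAt x ((u * rho G hx q ^ e : C.loc x) : C.κ) = e := by
    intro u e
    have hq := pow_ne_zero e hϖ.ne_zero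
    refine (MP_f3836a_nt.PK.Ord.coe (mul_ne_zero u.ne_zero hq)).trans ?_
    rw [MP_f3836a_nt.PK.Ord.o_mul u.ne_zero hq, MP_f3836a_nt.PK.Ord.o_pow hϖ,
      (MP_f3836a_nt.PK.Ord.o_zero u.ne_zero).2 u.isUnit, zero_add]
  refine ⟨hg, fun f hf h => ?_,
    ⟨hrp, fun h => hϖ.ne_zero ((rho_zero G hx q).2 h), ?_⟩,
    ⟨h0, hv1, fun C' h' hne => I2.Adj.v_other G hx h' hne p hp hd⟩, ?_⟩
  · obtain ⟨e, u, hu⟩ := IsDiscreteValuationRing.eq_unit_mul_pow_irreducible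
      (x := rho G hx ⟨f, hf⟩) (fun c => h ((rho_zero G hx _).1 c)) hϖ
    obtain ⟨α, hα⟩ := rho_surj G hx u
    obtain ⟨β, hβ⟩ := hker ⟨f, hf⟩ (α * q ^ e) (by rw [map_mul, map_pow, hα, hu])
    refine ⟨e, α, β, α.2, β.2, fun c => (hv α).1 c (IsUnit.of_map (rho G hx) _ ?_),
      congrArg Subtype.val hβ, ?_⟩
    · rw [hα]
      exact u.isUnit
    · have := hord u e
      rw [← hu] at this
      exact this
  · have := hord 1 1
    rw [Units.val_one, one_mul, pow_one] at this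
    exact this
  · let n : CC S.z → ℤ := fun C' => if C' = C then 1 else 0
    have hn : FS n := (Set.finite_singleton C).subset fun C' h => by
      by_contra c
      exact h (if_neg c)
    have he : Eqn x n p := ⟨h0, fun C' h' => by
      by_cases c : C' = C
      · rw [c, hv1]
        exact (if_pos rfl).symm
      · rw [I2.Adj.v_other G hx h' c p hp hd]
        exact (if_neg c).symm⟩
    obtain ⟨δ, hδ, hne⟩ := hB.near x n p hn he
    refine ⟨δ, hδ, fun x' h' => ?_⟩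
    have he' := (hne x' h').2
    have hm : (p : K) ∈ x'.ctr.O := G.reg x' p h0 fun C' h => by
      rw [he' C' h]
      simp only [n]
      split_ifs <;> norm_num
    refine ⟨hm, fun h => hB.von x' C p h hm hrp, fun h => ?_⟩
    by_contra c
    refine (mem_maximalIdeal _).1 ((hB.max x' ⟨p, hm⟩).2 h) (unit G x' ⟨p, hm⟩ h0 fun C' k => ?_)
    exact (he' C' k).trans (if_neg fun e : C' = C => c (e ▸ k))

theorem one {S : Sf K N} (hB : Br S) (x : PP S.z) (p q : x.ctr.O) (hg : Gm S x p q) :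
    ∃ C : CC S.z, x.On C ∧ IsDiscreteValuationRing (C.loc x) ∧ Sp S x C p q := by
  have G := hB.g0
  have pm : p ∈ maximalIdeal x.ctr.O := (hB.max x p).2 hg.2.2.1
  have qm : q ∈ maximalIdeal x.ctr.O := (hB.max x q).2 hg.2.2.2.1
  have hm : ∀ f ∈ maximalIdeal x.ctr.O, ∃ α β, f = α * p + β * q := fun f hf => by
    obtain ⟨α, hα, β, hβ, e⟩ := hg.2.2.2.2 f f.2 ((hB.max x f).1 hf)
    exact ⟨⟨α, hα⟩, ⟨β, hβ⟩, Subtype.ext e⟩
  have p0 : p ≠ 0 := by
    intro h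
    by_cases c : q = 0
    · have h1 : maximalIdeal x.ctr.O = ⊥ := (Submodule.eq_bot_iff _).2 fun f hf => by
        obtain ⟨α, β, e⟩ := hm f hf
        rw [e, h, c, mul_zero, mul_zero, add_zero]
      have h2 := ringKrullDim_eq_zero_of_isField (isField_iff_maximalIdeal_eq.2 h1)
      rw [G.surf.dim x] at h2
      exact absurd h2 (by decide)
    · obtain ⟨C, hx, h1⟩ := ex G x q c qm
      exact I2.RLog.notboth G hx hm ⟨(rho_zero G hx p).1 (by rw [h, map_zero]), h1⟩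
  obtain ⟨C, hx, h1⟩ := ex G x p p0 pm
  have hq : C.res q ≠ 0 := fun h => I2.RLog.notboth G hx hm ⟨h1, h⟩
  obtain ⟨π, hπ, hr, -⟩ := G.cv.on x C hx
  obtain ⟨a, ha⟩ := (hr p).2 h1
  have hu : IsUnit a := by
    by_contra c
    obtain ⟨α, β, e⟩ := hm π hπ.not_isUnit
    have hd : π ∣ β * q := ⟨1 - α * a, by rw [ha] at e; linear_combination -e⟩
    obtain ⟨γ, hγ⟩ := (hπ.dvd_or_dvd hd).resolve_right fun h => hq ((hr q).1 h)
    have e1 : (1 : x.ctr.O) = α * a + γ * q := mul_left_cancel₀ hπ.ne_zero (by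
      rw [ha, hγ] at e; linear_combination e)
    refine (maximalIdeal.isMaximal x.ctr.O).ne_top ((Ideal.eq_top_iff_one _).2 ?_)
    rw [e1]
    exact Ideal.add_mem _ (Ideal.mul_mem_left _ _ ((mem_maximalIdeal _).2 c))
      (Ideal.mul_mem_left _ _ qm)
  have has : Associated π p := ⟨hu.unit, by rw [IsUnit.unit_spec, ha]⟩
  have hd : ∀ b : x.ctr.O, p ∣ b ↔ C.res b = 0 := fun b => has.dvd_iff_dvd_left.symm.trans (hr b)
  have hL : IsLocalRing (C.loc x) := IsLocalRing.of_surjective' _ (rho_surj G hx)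
  have hN : IsNoetherianRing (C.loc x) := (G.va.loc x C hx).2.1
  have hloc : IsLocalHom (rho G hx) := IsLocalHom.of_surjective _ (rho_surj G hx)
  have q0 : rho G hx q ≠ 0 := fun h => hq ((rho_zero G hx q).1 h)
  have hM : maximalIdeal (C.loc x) = Ideal.span {rho G hx q} := by
    refine le_antisymm (fun r hr => ?_) ((Ideal.span_singleton_le_iff_mem _).2 ?_)
    · obtain ⟨f, rfl⟩ := rho_surj G hx r
      obtain ⟨α, β, e⟩ := hm f ((mem_maximalIdeal _).2 fun c =>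
        (mem_maximalIdeal _).1 hr (c.map _))
      refine Ideal.mem_span_singleton'.2 ⟨rho G hx β, ?_⟩
      rw [e, map_add, map_mul, map_mul, (rho_zero G hx p).2 h1, mul_zero, zero_add]
    · exact (mem_maximalIdeal _).2 fun c => (mem_maximalIdeal _).1 qm (IsUnit.of_map _ _ c)
  have hF : ¬IsField (C.loc x) := fun h => by
    have h2 := isField_iff_maximalIdeal_eq.1 h
    rw [hM, Ideal.span_singleton_eq_bot] at h2
    exact q0 h2
  have hD : IsDiscreteValuationRing (C.loc x) :=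
    ((IsDiscreteValuationRing.TFAE (C.loc x) hF).out 0 4).2
      (show (maximalIdeal (C.loc x)).IsPrincipal from ⟨_, hM⟩)
  exact ⟨C, hx, hD, sp_of hB hx hD p q (has.prime hπ) hd
    (IsDiscreteValuationRing.irreducible_of_span_eq_maximalIdeal _ q0 hM) hg⟩

theorem two {S : Sf K N} (hB : Br S) (x : PP S.z) (C : CC S.z) (p q φ f : K) (hx : x.On C)
    (hs : Sp S x C p q) (hφ : φ ∈ x.ctr.O) (φ0 : φ ≠ 0) (hv : C.v φ = 1)
    (ho : ∀ C' : CC S.z, x.On C' → C' ≠ C → C'.v φ = 0) (hf : f ∈ x.ctr.O) (f0 : C.res f ≠ 0)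
    (h1 : C.ordAt x (C.res f) = 1) : Gm S x φ f := by
  have G := hB.g0
  obtain ⟨pO, qO, pv, qv, hg⟩ := hs.gm
  obtain ⟨p0, v1, v0⟩ := hs.eqn
  have hq : p / φ ∈ x.ctr.O := G.reg x _ (div_ne_zero p0 φ0) fun C' h' => by
    rw [I2.Adj.v_div G.va C' p0 φ0]
    by_cases c : C' = C
    · rw [c, v1, hv, sub_self]
    · rw [v0 C' h' c, ho C' h' c, sub_self]
  obtain ⟨e, α, β, hα, hβ, α0, ef, he⟩ := hs.ord f hf f0
  have e1 : e = 1 := by
    rw [h1] at he
    exact_mod_cast he.symm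
  rw [e1, pow_one] at ef
  have hu : IsUnit (⟨α, hα⟩ : x.ctr.O) := by
    by_contra c
    exact α0 ((hB.max x ⟨α, hα⟩).1 ((mem_maximalIdeal _).2 c))
  obtain ⟨γ, hγ⟩ := hu.exists_right_inv
  have hγ' : α * (γ : K) = 1 := congrArg Subtype.val hγ
  refine ⟨hφ, hf, hB.von x C φ hx hφ ((G.va.pos C φ φ0 (hx.le hφ)).1 (by omega)), ?_,
    fun g gO g0 => ?_⟩
  · refine (hB.max x ⟨f, hf⟩).1 ?_
    have e2 : (⟨f, hf⟩ : x.ctr.O) = ⟨α, hα⟩ * ⟨q, qO⟩ + ⟨β, hβ⟩ * ⟨p, pO⟩ := Subtype.ext ef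
    rw [e2]
    exact Ideal.add_mem _ (Ideal.mul_mem_left _ _ ((hB.max x ⟨q, qO⟩).2 qv))
      (Ideal.mul_mem_left _ _ ((hB.max x ⟨p, pO⟩).2 pv))
  · obtain ⟨a, ha, b, hb, eg⟩ := hg g gO g0
    refine ⟨(a - b * γ * β) * (p / φ), x.ctr.O.mul_mem (x.ctr.O.sub_mem ha
      (x.ctr.O.mul_mem (x.ctr.O.mul_mem hb γ.2) hβ)) hq, b * γ, x.ctr.O.mul_mem hb γ.2, ?_⟩
    rw [mul_assoc _ (p / φ), div_mul_cancel₀ _ φ0, eg, ef]
    linear_combination (-(b * q)) * hγ'

end RPrm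

theorem rowPrm : PrmStmt := fun _ _ _ _ _ hB _ =>
  ⟨fun x p q hg => RPrm.one hB x ⟨p, hg.1⟩ ⟨q, hg.2.1⟩ hg,
    fun x C p q φ f => RPrm.two hB x C p q φ f⟩

end Pool.Agent.MP_c69980_ag.G3G
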