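import Pool.Agent.MP_c69980_ag.G3G.SpecB
import Pool.Agent.MP_c69980_ag.I2.Max
import Pool.Agent.MP_c69980_ag.I2.Log

/-!
The local data at a zero of the parameter.
-/

set_option autoImplicit false

noncomputable section

namespace Pool.Agent.MP_c69980_ag.G3G

open MvPolynomial Metric Filter Topology Set
open H60 H4 E1 G3
open I2 (Sf Br Gm Par Sp PP CC G0 CP Ov GenO BrStmt ParStmt MaxStmt CPStmt)

namespace RPt

variable {K : Type} [Field K] [Algebra ℂ K] {N : ℕ} {S : Sf K N} {x : PP S.z} {C : CC S.z}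
  {p q ε : K} {g : C2 → V (N + 1)} {r : ℝ}

lemma gm_symm (h : Gm S x p q) : Gm S x q p :=
  ⟨h.2.1, h.1, h.2.2.2.1, h.2.2.1, fun f hf h0 => by
    obtain ⟨α, hα, β, hβ, e⟩ := h.2.2.2.2 f hf h0
    exact ⟨β, hβ, α, hα, e.trans (add_comm _ _)⟩⟩

lemma v_unit (B : Br S) (hx : x.On C) (h : ε ∈ x.ctr.O) (h0 : vl S.z ε x.z ≠ 0) :
    ε ≠ 0 ∧ C.v ε = 0 := by
  have e0 : ε ≠ 0 := fun e => h0 (e ▸ (vl_zero (I2.MaxA.z_on x)).2)
  exact ⟨e0, le_antisymm (not_lt.1 fun h1 => h0 (B.von x C ε hx h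
    ((B.g0.va.pos C ε e0 (hx.le h)).1 h1))) ((B.g0.va.mem C ε e0).1 (hx.le h))⟩

lemma pt (hP : PrjStmt) (B : Br S) {y : V (N + 1)} (hy : y ∈ Cone S.W) :
    ∃ x' : PP S.z, Pp y x'.z ∧ ∀ C : CC S.z, prj y ∈ cb C ↔ x'.On C := by
  obtain ⟨x', h⟩ := B.pt y hy
  have y0 := h.ne (I2.MaxA.z_ne x')
  refine ⟨x', h, fun C => ⟨fun ⟨x'', h1, h2⟩ => ?_, fun h1 =>
    ⟨x', h1, (((hP _).1 _ _ y0 (I2.MaxA.z_ne x')).2 h).symm⟩⟩⟩
  exact B.uniq x'' x' ((((hP _).1 _ _ (I2.MaxA.z_ne x'') y0).1 h2).trans h) ▸ h1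

lemma near (hg : Bi S.W (ball 0 r) g) (r0 : 0 < r) (h0 : Pp (g 0) x.z) {δ : ℝ} (hδ : 0 < δ) :
    ∀ᶠ y in 𝓝 (0 : C2), g y ∈ Cone S.W ∧ d2 (g y) x.z < δ := by
  have x0 := I2.MaxA.z_ne x
  have := d2_lim (hg.an 0 (mem_ball_self r0)).continuousAt.tendsto
    (tendsto_const_nhds (x := x.z)) (h0.ne x0) x0
  rw [(d2_eq_zero (h0.ne x0) x0).2 h0] at this
  filter_upwards [ball_mem_nhds 0 r0, this.eventually (gt_mem_nhds hδ)] with y h1 h2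
  exact ⟨hg.mem y h1, h2⟩

lemma axis (hP : PrjStmt) (B : Br S) (hg : Bi S.W (ball 0 r) g) (r0 : 0 < r) (h0 : Pp (g 0) x.z)
    (hS : Sp S x C p q) : ∀ᶠ y in 𝓝 (0 : C2), prj (g y) ∈ cb C ↔ vl S.z p (g y) = 0 := by
  obtain ⟨δ, hδ, h⟩ := hS.on
  filter_upwards [near hg r0 h0 hδ] with y hy
  obtain ⟨x', h1, h2⟩ := pt hP B hy.1
  obtain ⟨h3, h4⟩ := h x' (by rw [← h1.d2 (.refl _)]; exact hy.2)
  rw [h2, h4, h1.vl (I2.MaxA.z_on x') ((B.reg x' _ p (.refl _)).1 h3)]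

lemma away (hP : PrjStmt) (B : Br S) (hg : Bi S.W (ball 0 r) g) (r0 : 0 < r) (h0 : Pp (g 0) x.z)
    (hC : ¬x.On C) : ∀ᶠ y in 𝓝 (0 : C2), prj (g y) ∉ cb C := by
  obtain ⟨δ, hδ, h⟩ := B.away x C hC
  filter_upwards [near hg r0 h0 hδ] with y hy h3
  obtain ⟨x', h1, h2⟩ := pt hP B hy.1
  exact (h x' ((h2 C).1 h3)).not_gt (by rw [← h1.d2 (.refl _)]; exact hy.2)

lemma swap_ball {y : C2} : y.swap ∈ ball (0 : C2) r ↔ y ∈ ball (0 : C2) r := by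
  rw [mem_b, mem_b, and_comm]
  rfl

end RPt

open RPt in
theorem rowPt : PtOf := by
  intro hP hI hR hA hM hO hS K _ _ N d B H A X Φ Lk F x δ hF hx hδ
  obtain ⟨p, q, ε, a, b, c, L⟩ := hA K N d B H x hx
  obtain ⟨C, on, dvr, sp⟩ := (hR K N d.toSf B H).1 x p q L.gm
  obtain ⟨C1, on1, dvr1, sp1⟩ := (hR K N d.toSf B H).1 x q p (gm_symm L.gm)
  have ne : C1 ≠ C := fun e => sp.res.2.1 (e ▸ sp1.res.1)
  have hv : ∀ C' : CC d.z, x.On C' → C'.v d.τ = a * C'.v p + b * C'.v q := fun C' h => by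
    obtain ⟨e0, e1⟩ := v_unit B h L.un.1 L.un.2
    have p0 := pow_ne_zero a sp.eqn.1
    rw [L.eq, B.g0.va.mul _ _ _ (mul_ne_zero e0 p0) (pow_ne_zero _ sp1.eqn.1),
      B.g0.va.mul _ _ _ e0 p0, e1, I2.RLog.v_pow B.g0 _ sp.eqn.1, I2.RLog.v_pow B.g0 _ sp1.eqn.1,
      zero_add]
  have va : (a : ℤ) = C.v d.τ := by rw [hv C on, sp.eqn.2.1, sp1.eqn.2.2 C on ne.symm]; ring
  have vb : (b : ℤ) = C1.v d.τ := by rw [hv C1 on1, sp1.eqn.2.1, sp.eqn.2.2 C1 on1 ne]; ring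
  have oth : ∀ C' : CC d.z, 0 < C'.v d.τ → C' ≠ C → x.On C' → C' = C1 := fun C' h1 h2 h3 => by
    by_contra h4
    rw [hv C' h3, sp.eqn.2.2 C' h3 h2, sp1.eqn.2.2 C' h3 h4] at h1
    simp at h1
  obtain ⟨g, J, r, m⟩ := hM K N d.toSf B H x p q ε a L.gm L.un.1 L.un.2 L.a0
  obtain ⟨r', φ, hr, ok⟩ := hO K N d B H A X Φ Lk F x p q ε a b c g J r hF L m
  have x0 := I2.MaxA.z_ne x
  have z0 : prj (g 0) = prj x.z := ((hP _).1 _ _ (m.zero.ne x0) x0).2 m.zero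
  have fin : {C' : CC d.z | 0 < C'.v d.τ ∧ ¬x.On C'}.Finite :=
    (B.g0.fin.v d.τ).subset fun C hC => ne_of_gt hC.1
  have h1 : ∀ᶠ y in 𝓝 (0 : C2), dist (prj (g y)) (prj x.z) < δ :=
    z0 ▸ (((hP _).2.1 _ (m.zero.ne x0)).comp
      (m.bi.an 0 (mem_ball_self m.r0)).continuousAt).tendsto.eventually (ball_mem_nhds _ hδ)
  obtain ⟨s, s0, hs⟩ := Metric.eventually_nhds_iff_ball.1 (h1.and
    ((axis hP B m.bi m.r0 m.zero sp).and ((axis hP B m.bi m.r0 m.zero sp1).and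
    ((eventually_all_finite fin).2 fun C' hC => away hP B m.bi m.r0 m.zero hC.2))))
  have t0 : 0 < min s r' := lt_min s0 ok.r0
  have s1 : ball (0 : C2) (min s r') ⊆ ball 0 s := ball_subset_ball (min_le_left _ _)
  have s2 : ball (0 : C2) (min s r') ⊆ ball 0 r := ball_subset_ball ((min_le_right _ _).trans hr)
  have ok' := ok.shrink t0 (min_le_right _ _)
  have bi := m.bi.mono isOpen_ball s2
  refine ⟨C, ⟨fun y => prj (g y), min s r', a, b, c, φ⟩, va ▸ Nat.cast_pos.2 L.a0, ok',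
    ⟨on, dvr, va, z0, fun y hy => ?_, p, q, ε, g, fun _ => 1, sp, L.un.1, L.un.2, L.eq, bi, t0,
      fun _ => rfl, analyticAt_const, one_ne_zero, ?_⟩, fun y hy => (hs y (s1 hy)).1,
    fun C' k1 k2 k3 => ?_, fun C' k1 k2 y hy => (hs y (s1 hy)).2.2.2 C' ⟨k1, k2⟩,
    fun h => ⟨C1, vb ▸ Nat.cast_pos.2 h, ne, on1⟩,
    fun C' C'' k1 k2 k3 k4 k5 k6 => (oth C' k1 k3 k5).trans (oth C'' k2 k4 k6).symm,
    fun h => ⟨C1, ne, on1, L.bd h C1 on1 sp1.res.1⟩⟩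
  · have := m.val y (s2 hy)
    exact (hs y (s1 hy)).2.1.trans (by rw [this.2.2.2.2.1, mul_eq_zero, or_iff_left this.1])
  · filter_upwards [ball_mem_nhds (0 : ℂ) m.r0] with w hw
    rw [(m.val (0, w) (mem_b.2 ⟨by simpa using m.r0, by simpa using hw⟩)).2.2.2.2.2.1, mul_one]
  obtain rfl := oth C' k1 k2 k3
  have b0 : 0 < b := Nat.cast_pos.1 (vb ▸ k1)
  refine ⟨b0, hS _ _ _ F _ hF ok' b0, on1, dvr1, vb, z0, fun y hy => ?_, q, p, ε,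
    fun y => g y.swap, fun w => J (w, 0), sp1, L.un.1, L.un.2, L.eq.trans (mul_right_comm _ _ _),
    ?_, t0, fun _ => rfl, ?_, (m.val 0 (mem_ball_self m.r0)).1, ?_⟩
  · have hy' := swap_ball.2 hy
    exact (hs _ (s1 hy')).2.2.1.trans (by rw [(m.val _ (s2 hy')).2.2.2.2.2.1]; rfl)
  · exact (hI.1 _ _ _ _ bi).2.mono isOpen_ball fun y hy => swap_ball.2 hy
  · exact (m.an 0 (mem_ball_self m.r0)).comp_of_eq (analyticAt_id.prod analyticAt_const) rfl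
  · filter_upwards [ball_mem_nhds (0 : ℂ) m.r0] with w hw
    exact (m.val (w, 0) (mem_b.2 ⟨by simpa using hw, by simpa using m.r0⟩)).2.2.2.2.1

end Pool.Agent.MP_c69980_ag.G3G
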