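import Pool.Agent.MP_c69980_ag.G3G.SpecB
import Pool.Agent.MP_c69980_ag.E1.Chart

/-!
Points where the differential of the unit does not vanish are regular.
-/

set_option autoImplicit false

noncomputable section

namespace Pool.Agent.MP_c69980_ag.G3G

open MvPolynomial Metric Filter Topology Set
open H60 H4 E1 G3

namespace RRx

open ChartAux

variable {n : ℕ}

/-- The inverse function theorem for parametrisations of a cone. -/
lemma gen {X : Set (Pt n)} {a j : Fin n} {Y : ℂ × ℂ → V n} {T : ℂ × ℂ → ℂ} {Q : Pt n → ℂ × ℂ}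
    {p : ℂ × ℂ} (hX : ∀ x ∈ X, ∀ c : ℂ, c ≠ 0 → (x.1, c • x.2) ∈ X) (hY : AnalyticAt ℂ Y p)
    (hT : AnalyticAt ℂ T p) (hj : Y p j ≠ 0) (h1 : ∀ᶠ q in 𝓝 p, (T q, Y q) ∈ X)
    (hQ : Tendsto Q (𝓝 (T p, Y p)) (𝓝 p))
    (h2 : ∀ᶠ x in 𝓝 ((T p, Y p) : Pt n), x ∈ X → x.1 = T (Q x) ∧ Pp x.2 (Y (Q x)))
    (hd : fderiv ℂ T p (1, 0) * (dz Y p a * Y p j - Y p a * dz Y p j) ≠
      fderiv ℂ T p (0, 1) * (dt Y p a * Y p j - Y p a * dt Y p j)) : (T p, Y p) ∈ Rg X a j := by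
  have aj := analyticAt_pi_iff.1 hY j
  obtain ⟨φ, a1, a2, a3⟩ := ift (ψ := fun q => (T q, Y q a / Y q j))
    (hT.prod ((analyticAt_pi_iff.1 hY a).div aj hj)) (ker hY hT hj hd)
  set p' : ℂ × ℂ := (T p, Y p a / Y p j) with hp'
  have e0 : φ p' = p := a2.self_of_nhds
  have tφ : Tendsto φ (𝓝 p') (𝓝 p) := e0 ▸ a1.continuousAt.tendsto
  let Z : ℂ × ℂ → V n := fun q => (Y (φ q) j)⁻¹ • Y (φ q)
  have aZ : AnalyticAt ℂ Z p' :=
    ((aj.inv hj).comp_of_eq a1 e0).smul (hY.comp_of_eq a1 e0)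
  have eZ : Z p' = (Y p j)⁻¹ • Y p := by simp only [Z, e0]
  have nj := aj.continuousAt.eventually_ne hj
  have b1 : ∀ᶠ x in 𝓝 ((T p, Y p) : Pt n), x ∈ X → x.2 = x.2 j • Z (x.1, x.2 a / x.2 j) := by
    filter_upwards [h2, hQ.eventually a2, hQ.eventually nj] with x x1 x2 x3 hx
    obtain ⟨x4, x5⟩ := x1 hx
    refine sca x5 ?_
    simp only [Z, x4, x2, smul_inv_smul₀ x3]
  have b2 : ∀ᶠ x in 𝓝 ((p'.1, Z p') : Pt n), x ∈ X → x.2 = x.2 j • Z (x.1, x.2 a / x.2 j) := by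
    have c : Tendsto (fun x : Pt n => (x.1, Y p j • x.2)) (𝓝 (p'.1, Z p')) (𝓝 (T p, Y p)) :=
      Continuous.tendsto' (by fun_prop) _ _ (by rw [eZ, smul_inv_smul₀ hj])
    filter_upwards [c.eventually b1] with x hx xX
    exact sca (Pp.smul hj _).symm (hx (hX x xX _ hj))
  have b3 := (continuousAt_fst.prodMk aZ.continuousAt).tendsto.eventually
    (eventually_eventually_nhds.2 b2)
  obtain ⟨U, u1, u2, u3⟩ := _root_.eventually_nhds_iff.1
    (aZ.eventually_analyticAt.and (b3.and (a3.and ((tφ.eventually nj).and (tφ.eventually h1)))))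
  refine ⟨U, Z, ⟨u2, fun q hq => (u1 q hq).1, fun q hq => ?_⟩, _, u3, ?_⟩
  · obtain ⟨-, v1, v2, v3, v4⟩ := u1 q hq
    refine ⟨inv_mul_cancel₀ v3, ?_, ?_, v1⟩
    · rw [← congrArg Prod.snd v2]
      exact (div_eq_inv_mul _ _).symm
    · rw [← congrArg Prod.fst v2]
      exact hX _ v4 _ (inv_ne_zero v3)
  · exact (eZ ▸ Pp.smul (inv_ne_zero hj) (Y p) : Pp (Z p') (Y p)).symm

lemma coord {y w : V n} (h : wg y w ≠ 0) : ∃ a j, y j ≠ 0 ∧ y j * w a - y a * w j ≠ 0 := by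
  obtain ⟨⟨i, k⟩, e⟩ := Function.ne_iff.1 h
  have e : y i * w k - y k * w i ≠ 0 := e
  by_cases h0 : y i = 0
  · exact ⟨i, k, fun r => e (by rw [h0, r]; ring), fun r => e (by linear_combination -r)⟩
  · exact ⟨k, i, h0, e⟩

/-- The local logarithm. -/
lemma exT {τ : C2 → ℂ} {q : C2} {σ t : ℂ} (hσ : σ ≠ 0) (hτ : AnalyticAt ℂ τ q)
    (hd : fderiv ℂ τ q ≠ 0) (e : τ q = Complex.exp (-(σ * t))) :
    ∃ T : C2 → ℂ, AnalyticAt ℂ T q ∧ T q = t ∧
      ((-fderiv ℂ T q (0, 1), fderiv ℂ T q (1, 0)) : C2) ≠ 0 ∧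
      (∀ᶠ x in 𝓝 q, τ x = Complex.exp (-(σ * T x))) ∧
      ∀ᶠ s in 𝓝 t, ∀ x, τ x = Complex.exp (-(σ * s)) → s = T x := by
  have t0 : τ q ≠ 0 := e ▸ Complex.exp_ne_zero _
  have a1 : AnalyticAt ℂ (fun x => t - Complex.log (τ x / τ q) / σ) q :=
    analyticAt_const.sub (((hτ.div analyticAt_const t0).clog
      (by simp [div_self t0])).div analyticAt_const hσ)
  have a2 : ∀ᶠ x in 𝓝 q, τ x = Complex.exp (-(σ * (t - Complex.log (τ x / τ q) / σ))) := by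
    filter_upwards [hτ.continuousAt.eventually_ne t0] with x hx
    rw [mul_sub, mul_div_cancel₀ _ hσ, neg_sub, sub_eq_add_neg, Complex.exp_add, ← e,
      Complex.exp_log (div_ne_zero hx t0), div_mul_cancel₀ _ t0]
  refine ⟨_, a1, by simp [div_self t0], fun v => hd ?_, a2, ?_⟩
  · have d := (((a1.differentiableAt.hasFDerivAt.const_mul σ).neg.cexp).congr_of_eventuallyEq
      a2).fderiv
    have z : fderiv ℂ (fun x => t - Complex.log (τ x / τ q) / σ) q = 0 :=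
      ContinuousLinearMap.ext fun w => by
        rw [← Prod.mk.eta (p := w), fd_apply, neg_eq_zero.1 (Prod.mk_eq_zero.1 v).1,
          (Prod.mk_eq_zero.1 v).2]
        simp
    rw [d, z]
    ext <;> simp
  · have c : Tendsto (fun s : ℂ => (-(σ * (s - t))).im) (𝓝 t) (𝓝 0) :=
      Continuous.tendsto' (by fun_prop) _ _ (by simp)
    filter_upwards [c.eventually (lt_mem_nhds (neg_lt_zero.2 Real.pi_pos)),
      c.eventually (gt_mem_nhds Real.pi_pos)] with s s1 s2 x hx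
    rw [hx, e, ← Complex.exp_sub, show -(σ * s) - -(σ * t) = -(σ * (s - t)) by ring,
      Complex.log_exp s1 s2.le]
    field_simp
    ring

end RRx

open RRx

theorem rowRx : RxOf := by
  intro _ hI n W X σ O g τ q t hσ hX hB hq hτ hd hiff e
  obtain ⟨T, t1, t2, t3, t4, t5⟩ := exT hσ hτ hd e
  obtain ⟨a, j, hj, h⟩ := coord ((hI.1 n W O g hB).1 q hq _ t3)
  obtain ⟨ψ, p1, p2, p3⟩ := hB.loc q hq
  have c1 : Tendsto (Prod.snd : Pt n → V n) (𝓝 (T q, g q)) (𝓝 (g q)) := continuous_snd.tendsto _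
  have c2 : Tendsto (Prod.fst : Pt n → ℂ) (𝓝 (T q, g q)) (𝓝 t) := t2 ▸ continuous_fst.tendsto _
  have c3 := p1.continuousAt.tendsto
  rw [p2] at c3
  refine t2 ▸ ⟨a, j, gen (Q := fun x => ψ x.2) (fun x hx => (hX x hx).2) (hB.an q hq) t1 hj ?_
    (c3.comp c1) ?_ fun r => h ?_⟩
  · filter_upwards [hiff, t4] with x x1 x2 using (x1 _).2 x2
  · filter_upwards [c1.eventually p3, c2.eventually t5, (c3.comp c1).eventually hiff] with
      x x1 x2 x3 hx
    have k := x1 (hX x hx).1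
    obtain ⟨c, c0, hc⟩ := k.symm
    exact ⟨x2 _ ((x3 _).1 (by
      simp only [Function.comp_apply, hc]
      exact (hX x hx).2 c c0)), k⟩
  · rw [fd_apply]
    simp only [Pi.add_apply, Pi.smul_apply, smul_eq_mul]
    simp only [dz, dt] at r
    linear_combination r

end Pool.Agent.MP_c69980_ag.G3G
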