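import Pool.Agent.MP_c69980_ag.G3G.SpecA

/-!
The skeleton and the initial state.
-/

set_option autoImplicit false

noncomputable section

namespace Pool.Agent.MP_c69980_ag.G3G

open Metric Filter Topology Set
open G3

variable {M : Type} [MetricSpace M] {A : Amb M}

lemma rt_per {a N : ℕ} (h : a = 0 ∨ a ∣ N) (k : ℕ) (t : ℂ) :
    rt A a k (t + tp N) = rt A a k t := by
  rcases eq_or_ne a 0 with rfl | ha
  · simp [rt]
  obtain ⟨n, rfl⟩ := h.resolve_left ha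
  have h0 : (a : ℂ) ≠ 0 := by exact_mod_cast ha
  rw [rt, rt, Complex.exp_eq_exp_iff_exists_int]
  rcases A.hσ with e | e
  · exact ⟨-n, by rw [e, tp]; push_cast; field_simp; ring⟩
  · exact ⟨n, by rw [e, tp]; push_cast; field_simp; ring⟩

namespace RSk

variable (G : Geo A)

lemma rad : ∃ r₀, G.Rad r₀ := by
  have h1 : ∀ᶠ r in 𝓝[>] (0 : ℝ), ∀ i, ∀ q ∈ G.S, q ∈ G.Cb i → 2 * r ≤ (G.ch i q).r := by
    refine eventually_all.2 fun i => (eventually_all_finset _).2 fun q _ => ?_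
    by_cases h : q ∈ G.Cb i
    · have := (G.ok i q h).1.r0
      filter_upwards [Ioc_mem_nhdsGT (half_pos this)] with r hr _
      linarith [hr.2]
    · exact Eventually.of_forall fun _ h' => absurd h' h
  obtain ⟨r, h2, h3⟩ := (h1.and (Ioc_mem_nhdsGT (zero_lt_one' ℝ))).exists
  exact ⟨r, h3.1, h3.2, fun i q a b => h2 i q b a⟩

/-- A common period. -/
def NN : ℕ := (∏ i, G.a i) * ∏ i, G.a i

lemma dv0 (i : G.ι) : G.a i ∣ ∏ i, G.a i := Finset.dvd_prod_of_mem _ (Finset.mem_univ i)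

lemma dv (i : G.ι) : G.a i ∣ NN G := (dv0 G i).mul_right _

lemma dv' (π : G.Prt) :
    G.a π.i * G.e' π.i π.q = 0 ∨ G.a π.i * G.e' π.i π.q ∣ NN G := by
  rcases Nat.eq_zero_or_pos (G.ch π.i π.q).b with h | h
  · exact Or.inl (by rw [(G.e_b0 h).2.2, mul_zero])
  · obtain ⟨i', h1, h2⟩ := G.nb _ _ π.mem h
    refine Or.inr (mul_dvd_mul (dv0 G _) (Dvd.dvd.trans ?_ (dv0 G i')))
    rw [← (G.node _ _ h1.symm _ π.mem h2).1, ← G.ge' π.i π.q]
    exact Dvd.intro_left _ rfl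

lemma cca (c : M) : (G.cc c).a ∣ NN G := by
  unfold Geo.cc
  split_ifs with h
  · rw [(G.ok _ _ h.choose_spec).2.1]
    exact dv G _
  · exact one_dvd _

variable {G}

lemma T_eq {k : G.ι} {c : M} (hc : c ∈ G.C k) (j : ℕ) : G.T c j = G.Ts k c j := by
  funext x
  rw [Geo.T, Geo.Ts, G.cc_eq hc.1 hc.2, (G.ok k c hc.1).2.1]

lemma ψ_eq {k : G.ι} {c : M} (hc : c ∈ G.C k) : (fun w => (G.cc c).Y (0, w)) = G.ax0 k c := by
  funext w
  rw [Geo.ax0, G.cc_eq hc.1 hc.2]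

lemma r_eq {k : G.ι} {c : M} (hc : c ∈ G.C k) : (G.cc c).r / 2 = G.hr k c := by
  rw [Geo.hr, G.cc_eq hc.1 hc.2]

lemma hsub {k : G.ι} {c : M} (hc : c ∈ G.C k) :
    ball (0 : ℂ) (G.hr k c) ⊆ ball 0 (G.ch k c).r :=
  ball_subset_ball (half_le_self (G.ok k c hc.1).1.r0.le)

/-- The skeleton. -/
def sk (ax : G.Ax) (tu : G.Tu) {r₀ B : ℝ} (hr : G.Rad r₀) (pa : G.Pa r₀ B) (pb : G.Pb r₀) :
    Sk A where
  Cmp := G.ι
  Prt := G.Prt
  Sp := G.ι × M
  fP := Fintype.ofFinite _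
  C := G.C
  a := G.a
  cm := fun π => π.i
  fl := fun π => (π.i, π.q)
  r₀ := r₀
  B := B
  rad := fun c => (G.cc c).r / 2
  ψ := fun c w => (G.cc c).Y (0, w)
  T := G.T
  P := G.P
  p := G.p
  N := NN G
  N0 := Nat.pos_of_ne_zero (mul_self_ne_zero.2 (Finset.prod_ne_zero_iff.2 fun i _ => (G.a0' i).ne'))
  Tp := fun c j t w => by simp only [Geo.T, rt_per (Or.inr (cca G c))]
  Pp := fun π t w => by simp only [Geo.P, rt_per (Or.inr (dv G π.i))]
  r0 := hr.1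
  flc := fun _ _ h => congrArg Prod.fst h
  disj := fun _ _ _ h h' => G.uniq h.1 h'.1 h.2
  conn := G.conn
  ne := G.ne
  rad0 := fun k c hc => by
    rw [r_eq hc]
    exact half_pos (G.ok k c hc.1).1.r0
  ψ0 := fun k c hc => (congrFun (ψ_eq hc) 0).trans (G.ax0_zero hc.1)
  ψc := fun k c hc => by
    rw [r_eq hc, ψ_eq hc]
    exact ⟨(ax.cont k c hc.1).mono (hsub hc), (ax.inj k c hc.1).mono (hsub hc),
      fun w hw => ax.mem k c hc.1 w (hsub hc hw) (Or.inr hc.2)⟩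
  ψo := fun k c hc w hw N hN => by
    rw [r_eq hc] at hw
    rw [ψ_eq hc, congrFun (ψ_eq hc) w]
    exact nhdsWithin_mono _ diff_subset (ax.opn k c hc.1 w (hsub hc hw) N hN)
  a0 := G.a0'
  Tlc := fun k c hc => by
    simp only [r_eq hc, T_eq hc]
    exact tu.lc k c hc
  Tlm := fun k c hc j hj => by
    rw [r_eq hc, T_eq hc, ψ_eq hc]
    exact tu.lm k c hc j hj
  Tcov := fun k c hc w hw u hu h N hN => by
    rw [r_eq hc] at hw
    rw [congrFun (ψ_eq hc) w] at h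
    simp only [T_eq hc]
    exact tu.cov k c hc w hw u hu h N hN
  Plc := pa.lc
  Plm := pa.lm
  pc := pb.pc
  pinj := pb.pinj
  po := pb.po
  pnorm := fun π π' w hw w' hw' h =>
    (pb.pnorm π π' w hw w' hw' h).imp_left fun e => Prod.ext e.1 e.2
  Pcov := fun π w hw u hu h ε hε => (pa.cov π w hw u hu h ε hε).mono fun _ ⟨π', w', a, b⟩ =>
    ⟨π', w', Prod.ext a.1 a.2, b⟩
  cpt := pb.cpt
  esc := pb.esc

lemma kd_eq {π π' : G.Prt} (h : π.i = π'.i) (h' : π.q = π'.q) : G.kd π = G.kd π' := by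
  simp only [Geo.kd, h, h']

lemma neck {π : G.Prt} (h : G.kd π = .neck) : 0 < (G.ch π.i π.q).b := by
  by_contra h'
  rw [Geo.kd, if_neg h'] at h
  split_ifs at h

end RSk

open RSk in
theorem rowSk : SkOf := by
  intro h1 h2 h3 h4 h5 h6 h7 h8 M _ A G
  have ax := h1 M A G
  have ar := h3 M A G
  have dq := h8 M A G ar
  obtain ⟨r₀, hr⟩ := rad G
  obtain ⟨B, pa⟩ := h4 M A G ar r₀ hr
  obtain ⟨far, hf⟩ := h6 M A G
  have ed := h7 M A G ar far r₀ hf hr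
  refine ⟨sk ax (h2 M A G) hr pa (h5 M A G ax r₀ hr), ⟨⟨Equiv.refl _, Equiv.refl _, hr,
    fun _ => rfl, fun _ => rfl, fun _ => rfl, fun _ _ => Prod.ext_iff, fun k c hc => ?_,
    fun k c hc => ψ_eq hc, fun _ => rfl, fun _ => rfl, dv G⟩⟩, ⟨⟨r₀, ⟨G.kd, G.P, G.md, far,
      fun π _ => ⟨fun t w => ?_, fun t => rt_per (dv' G π) _ t⟩, fun π _ => ed.ise π,
      fun π _ h => ?_, fun r' h => (ed.dj r' h).mono fun t ht π _ π' _ => ht π π'⟩,
      hr.1, le_rfl, fun π _ π' _ h => ?_, fun π _ u hu h k _ x hx hc => ?_, fun u hu => ?_⟩⟩⟩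
  · change 2 * ((G.cc c).r / 2) = (G.ch k c).r
    rw [G.cc_eq hc.1 hc.2]
    ring
  · exact (sk ax (h2 M A G) hr pa (h5 M A G ax r₀ hr)).Pp π t w
  · obtain ⟨a, b, c, d⟩ := hf.nk π (neck h)
    exact ⟨Finset.mem_univ _, fun e => (hf.q π (neck h)).2.2 (congrArg Geo.Prt.i e), b,
      if_pos a, c, Eventually.of_forall d⟩
  · have e := Prod.ext_iff.1 h
    refine ⟨kd_eq e.1 e.2, fun k => ?_⟩
    obtain ⟨a, -, b⟩ := hf.q π (neck k)
    obtain ⟨a', -, b'⟩ := hf.q π' (neck ((kd_eq e.1 e.2).symm.trans k))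
    have e1 : π.i = π'.i := e.1
    have e2 : π.q = π'.q := e.2
    exact Prod.ext (G.two π.i _ _ π.q π.mem (a ▸ (far π).mem) (e2 ▸ a' ▸ (far π').mem) b
      (e1 ▸ b')) (a.trans (e2.trans a'.symm))
  · exact hx.2 (tendsto_nhds_unique hc (dq.te π u hu h) ▸ π.inS)
  · obtain ⟨i, q, hq, hc⟩ := G.out u hu
    by_cases hS : q ∈ G.S
    · obtain ⟨π, h⟩ := dq.cov u hu i q hq hS hc
      exact Or.inr ⟨π, Finset.mem_univ _, h⟩
    · exact Or.inl ⟨i, Finset.mem_univ _, q, ⟨hq, hS⟩, hc⟩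

end Pool.Agent.MP_c69980_ag.G3G
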