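import Pool.Agent.MP_c69980_ag.G3G.SpecB

/-!
The surface and its charts inside the space of projectors.
-/

set_option autoImplicit false

noncomputable section

namespace Pool.Agent.MP_c69980_ag.G3G

open MvPolynomial Metric Filter Topology Set
open H60 H4 E1 G3

namespace RSrf

variable {n : ℕ} {W : Set (PS n)} {X : Set (Pt n)}

lemma ne0 {y : V n} (h : y ∈ Cone W) : y ≠ 0 := h.choose

lemma pe (P : PrjStmt) {y w : V n} (h : Pp y w) (y0 : y ≠ 0) : prj y = prj w :=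
  ((P n).1 y w y0 (h.symm.ne y0)).2 h

lemma im_iff (P : PrjStmt) (hX : XC W X) {t : ℂ} {y : V n} (y0 : y ≠ 0) :
    (t, prj y) ∈ Im X ↔ (t, y) ∈ X := by
  refine ⟨?_, fun h => ⟨_, h, rfl⟩⟩
  rintro ⟨⟨s, w⟩, hw, e⟩
  obtain ⟨e1, e2⟩ := Prod.mk.inj e
  obtain ⟨c, c0, e3⟩ := ((P n).1 y w y0 (ne0 (hX _ hw).1)).1 e2.symm
  have := (hX _ hw).2 c c0
  rw [e3, ← e1]
  exact this

/-- The charts. -/
def Ch (W : Set (PS n)) (Y : C2 → Wg n) (q : C2) : Prop :=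
  ∃ O g, Bi W O g ∧ q ∈ O ∧ ∀ᶠ x in 𝓝 q, Y x = prj (g x)

lemma ev {Y : C2 → Wg n} {q : C2} (h : Ch W Y q) : ∀ᶠ x in 𝓝 q, Ch W Y x := by
  obtain ⟨O, g, B, hq, e⟩ := h
  filter_upwards [B.op.mem_nhds hq, e.eventually_nhds] with x a b
  exact ⟨O, g, B, a, b⟩

lemma cont (P : PrjStmt) {Y : C2 → Wg n} {q : C2} (h : Ch W Y q) : ContinuousAt Y q := by
  obtain ⟨O, g, B, hq, e⟩ := h
  exact (((P n).2.1 _ (ne0 (B.mem q hq))).comp (B.an q hq).continuousAt).congr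
    (EventuallyEq.symm e)

lemma mem {Y : C2 → Wg n} {q : C2} (h : Ch W Y q) : Y q ∈ prj '' Cone W := by
  obtain ⟨O, g, B, hq, e⟩ := h
  exact ⟨g q, B.mem q hq, e.self_of_nhds.symm⟩

lemma onto (P : PrjStmt) {Y : C2 → Wg n} {q : C2} (h : Ch W Y q) {N : Set C2} (hN : N ∈ 𝓝 q) :
    Y '' N ∈ 𝓝[prj '' Cone W] (Y q) := by
  obtain ⟨O, g, B, hq, e⟩ := h
  have g0 := ne0 (B.mem q hq)
  obtain ⟨l, l1, l2, l3⟩ := (P n).2.2.2 (g q) g0
  obtain ⟨ψ, p1, p2, p3⟩ := B.loc q hq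
  have c1 : Tendsto l (𝓝 (prj (g q))) (𝓝 (g q)) := by
    simpa [ContinuousAt, l2] using l1.continuousAt
  have c2 : Tendsto ψ (𝓝 (g q)) (𝓝 q) := by simpa [ContinuousAt, p2] using p1.continuousAt
  rw [e.self_of_nhds, ← eventually_mem_set, eventually_nhdsWithin_iff]
  filter_upwards [c1.eventually p3, c1.eventually (eventually_ne_nhds g0),
    (c2.comp c1).eventually hN, (c2.comp c1).eventually e]
  rintro _ k1 k2 k3 k4 ⟨w, hw, rfl⟩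
  obtain ⟨c, hc⟩ := l3 w (ne0 hw)
  have E : Pp (l (prj w)) w := ⟨c, fun z => k2 (by rw [hc, z, zero_smul]), hc⟩
  exact ⟨_, k3, k4.trans ((pe P (k1 (cone_pp E hw)) k2).symm.trans (pe P E k2))⟩

lemma trans (P : PrjStmt) {Y Y' : C2 → Wg n} {q q' : C2} (h : Ch W Y q) (h' : Ch W Y' q')
    (E : Y q = Y' q') :
    ∃ θ : C2 → C2, AnalyticAt ℂ θ q ∧ θ q = q' ∧ ∀ᶠ x in 𝓝 q, Y x = Y' (θ x) := by
  obtain ⟨O, g, B, hq, e⟩ := h
  obtain ⟨O', g', B', hq', e'⟩ := h'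
  rw [e.self_of_nhds, e'.self_of_nhds] at E
  obtain ⟨c, c0, hc⟩ := (((P n).1 _ _ (ne0 (B.mem q hq)) (ne0 (B'.mem q' hq'))).1 E).symm
  obtain ⟨ψ, p1, p2, p3⟩ := B'.loc q' hq'
  have a : AnalyticAt ℂ (fun x => c • g x) q := (analyticAt_const (v := c)).smul (B.an q hq)
  have c1 : Tendsto (fun x => c • g x) (𝓝 q) (𝓝 (g' q')) := by
    simpa [ContinuousAt, hc] using a.continuousAt
  have c2 : Tendsto ψ (𝓝 (g' q')) (𝓝 q') := by simpa [ContinuousAt, p2] using p1.continuousAt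
  refine ⟨fun x => ψ (c • g x), p1.comp_of_eq a hc.symm, by simp only [← hc, p2], ?_⟩
  filter_upwards [c1.eventually p3, (c2.comp c1).eventually e', e, B.op.mem_nhds hq]
    with x k1 k2 k3 k4
  have m := B.mem x k4
  exact k3.trans ((pe P ((Pp.smul c0 _).symm.trans (k1 (cone_pp (Pp.smul c0 _) m))) (ne0 m)).trans
    k2.symm)

lemma lc (P : PrjStmt) (I : ImmStmt) (R : RxStmt) {U : Set (PS n)} {m : ℕ}
    {Φ : Fin 3 → Pt n → V n → ℂ} {A : Amb (Wg n)} (hA : IsAmb A X U m Φ) (hX : XC W X)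
    {Y : C2 → Wg n} {x : C2 → C2} {p : C2} {τ : C2 → ℂ} (h : Ch W Y (x p))
    (hx : AnalyticAt ℂ x p) (hτ : AnalyticAt ℂ τ (x p)) (h0 : fderiv ℂ τ (x p) ≠ 0)
    (h1 : ∀ᶠ q in 𝓝 (x p), ∀ t, (t, Y q) ∈ A.Zb ↔ τ q = tau A t)
    (h2 : ∀ᶠ p' in 𝓝 p, τ (x p') = tau A p'.1) (h3 : dw (fun p' => (x p').2) p ≠ 0) :
    A.LC (fun p' => Y (x p')) p := by
  obtain ⟨O, g, B, hq, e⟩ := h
  have c : Tendsto x (𝓝 p) (𝓝 (x p)) := hx.continuousAt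
  have k : ∀ᶠ q in 𝓝 (x p), ∀ t, (t, g q) ∈ X ↔ τ q = Complex.exp (-((A.σ : ℂ) * t)) := by
    filter_upwards [h1, e, B.op.mem_nhds hq] with q a b d t
    rw [← im_iff P hX (ne0 (B.mem q d)), ← b, ← hA.zb]
    exact a t
  have s0 : (A.σ : ℂ) ≠ 0 := by rcases A.hσ with s | s <;> simp [s]
  refine (hA.lc _ _).2 ⟨fun p' => g (x p'), ⟨(B.an _ hq).comp hx, ne0 (B.mem _ hq),
    c.eventually e⟩, ?_, R n W X A.σ O g τ (x p) p.1 s0 hX B hq hτ h0 k h2.self_of_nhds, ?_⟩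
  · filter_upwards [c.eventually k, h2] with q a b
    exact (a _).2 b
  · have d : dz (fun p' => g (x p')) p = fderiv ℂ g (x p) (fderiv ℂ x p (0, 1)) := by
      rw [dz, fderiv_fun_comp p (B.an _ hq).differentiableAt hx.differentiableAt]
      rfl
    rw [d]
    refine (I.1 n W O g B).1 _ hq _ fun z => h3 ?_
    rw [dw, hx.differentiableAt.hasFDerivAt.snd.fderiv]
    simp [z]

end RSrf

theorem rowSrf : SrfOf := by
  intro P I R n W U X m Φ A hA hX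
  refine ⟨⟨prj '' Cone W, RSrf.Ch W, ?_, fun _ _ => RSrf.ev, fun _ _ => RSrf.cont P,
    fun _ _ => RSrf.mem, fun _ _ h _ hN => RSrf.onto P h hN, fun _ _ _ _ => RSrf.trans P,
    fun _ _ _ _ => RSrf.lc P I R hA hX⟩, rfl, fun _ _ => Iff.rfl⟩
  rw [hA.zb]
  rintro _ ⟨x, hx, rfl⟩
  exact ⟨x.2, (hX x hx).1, rfl⟩

end Pool.Agent.MP_c69980_ag.G3G
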