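import Pool.Agent.MP_c69980_ag.G3G.SpecB
import Pool.Agent.MP_c69980_ag.I2.Max
import Pool.Agent.MP_c69980_ag.I2.Log
import Pool.Agent.MP_c69980_ag.I2.Adj

/-!
Row Tb: tubes along rational components.
-/

set_option autoImplicit false

noncomputable section

namespace Pool.Agent.MP_c69980_ag.G3G

open MvPolynomial Metric Filter Topology Set
open H60 H4 E1 G3
open I2 (Sf Br Gm Par Sp PP CC G0 CP Ov GenO)
open Pool.Agent.MP_f3836a_nt.PK (Place IsFF PlA PlB)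

namespace RTb

section

variable {F : Type} [Field F] [Algebra ℂ F]

lemma ord0 (pa : PlA ℂ F) (P : Place ℂ F) {f : F} (h : ev P f ≠ 0) : f ≠ 0 ∧ P.ord f = 0 := by
  have m : f ∈ P.V := by_contra fun q => h (if_neg q)
  rw [ev, if_pos m] at h
  have z : ¬P.Zero f := fun q => h ((pa.val P f m 0).1 (by simpa using q))
  have f0 : f ≠ 0 := fun e => z (.inl e)
  exact ⟨f0, le_antisymm (not_lt.1 fun q => z (.inr q)) ((pa.mem P f f0).1 m)⟩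

lemma ord_pow (pa : PlA ℂ F) (P : Place ℂ F) {f : F} (h : f ≠ 0) (k : ℕ) :
    P.ord (f ^ k) = k * P.ord f := by
  induction k with
  | zero => simpa using pa.con P 1
  | succ k ih =>
    rw [pow_succ, pa.mul P _ _ (pow_ne_zero _ h) h, ih]
    push_cast
    ring

end

variable {K : Type} [Field K] [Algebra ℂ K] {N : ℕ}

lemma res_pow {ξ : Fin (N + 1) → K} (C : CC ξ) {f : K} (h : f ∈ C.O) (k : ℕ) :
    C.res (f ^ k) = C.res f ^ k := by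
  induction k with
  | zero => simpa using C.res_const 1
  | succ k ih => rw [pow_succ, C.res_mul (pow_mem h k) h, ih, pow_succ]

lemma unit {ξ : Fin (N + 1) → K} (g : G0 ξ) (C : CC ξ) {f : K} (h : f ≠ 0) (v : C.v f = 0) :
    f ∈ C.O ∧ C.res f ≠ 0 :=
  have m := (g.va.mem C f h).2 v.ge
  ⟨m, fun e => ((g.va.pos C f h m).2 e).ne' v⟩

lemma vl_pp {n : ℕ} {z : Fin n → K} {y y' : V n} (hy : On z y) (h : Pp y y') (f : K) :
    vl z f y = vl z f y' := by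
  by_cases r : Reg z y f
  · exact (h.symm.vl hy r).symm
  · rw [vl, dif_neg r, vl, dif_neg fun q => r (h.reg q)]

variable {d : GD K N} {A : Amb (Wg (N + 1))} {X : Set (Pt (N + 1))}
  {Φ : Fin 3 → Pt (N + 1) → V (N + 1) → ℂ}

lemma zb (hP : PrjStmt) (L : Lnk d A X Φ) {y : V (N + 1)} (hy : y ∈ Cone d.W) (r : Reg d.z y d.τ)
    (t : ℂ) : (t, prj y) ∈ A.Zb ↔ vl d.z d.τ y = tau A t := by
  rw [L.amb.zb]
  refine ⟨?_, fun e => ⟨(t, y), (L.xl t y).2 ⟨hy, r, e⟩, rfl⟩⟩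
  rintro ⟨⟨s, w⟩, hw, e⟩
  obtain rfl : s = t := congrArg Prod.fst e
  obtain ⟨w1, -, w2⟩ := (L.xl _ _).1 hw
  rw [← w2, vl_pp (Cone.on d.gen w1) (((hP _).1 _ _ w1.1 hy.1).1 (congrArg Prod.snd e))]

/-- The order of the unit part of the parameter at a point of the component. -/
lemma dvd (B : Br d.toSf) {C : CC d.z} {pl : Wg (N + 1) → Place ℂ C.κ} (pa : PlA ℂ C.κ)
    (h : PL d.toSf C pl) {x : PP d.z} {T : MC (Wg (N + 1))} (ad : Ad d x C T) {φ : K} (φ0 : φ ≠ 0)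
    (v : C.v φ = 1) : (T.a : ℤ) ∣ (pl (prj x.z)).ord (C.res (d.τ / φ ^ T.a)) - T.b := by
  obtain ⟨p, q, ε, -, -, sp, e1, e2, e3, -⟩ := ad.ex
  obtain ⟨u1, u2⟩ := unit B.g0 C (div_ne_zero sp.eqn.1 φ0)
    (by rw [I2.Adj.v_div B.g0.va C sp.eqn.1 φ0, sp.eqn.2.1, v, sub_self])
  have q1 := ad.on.le sp.gm.2.1
  obtain ⟨o1, o2⟩ := ord0 pa (pl (prj x.z)) (f := C.res ε) (by rwa [h.val x ad.on ε e1])
  have e : d.τ / φ ^ T.a = ε * q ^ T.b * (p / φ) ^ T.a := by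
    rw [e3, div_pow]
    ring
  rw [e, C.res_mul (mul_mem (ad.on.le e1) (pow_mem q1 _)) (pow_mem u1 _),
    C.res_mul (ad.on.le e1) (pow_mem q1 _), res_pow C q1, res_pow C u1,
    pa.mul _ _ _ (mul_ne_zero o1 (pow_ne_zero _ sp.res.2.1)) (pow_ne_zero _ u2),
    pa.mul _ _ _ o1 (pow_ne_zero _ sp.res.2.1), ord_pow pa _ sp.res.2.1, ord_pow pa _ u2, o2,
    h.ord x ad.on (C.res q), sp.res.2.2]
  exact ⟨(pl (prj x.z)).ord (C.res (p / φ)), by ring⟩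

lemma mem_sf {M : Type} [MetricSpace M] {A : Amb M} {G : Geo A} {i : G.ι} {o q : M} :
    q ∈ Sfin G i o ↔ q ∈ G.S ∧ q ∈ G.Cb i ∧ q ≠ o := by
  simp only [Sfin, Finset.mem_filter]

lemma near (hP : PrjStmt) {F : Srf A} (h : FIs d.W A F) {T : MC (Wg (N + 1))} (ok : T.OK F)
    {y : V (N + 1)} (y0 : y ≠ 0) (e : T.Y 0 = prj y) : ∃ δ : ℝ, 0 < δ ∧ ∀ w ∈ Cone d.W,
      d2 w y < δ → ∃ q ∈ ball (0 : C2) T.r, T.Y q = prj w := by
  obtain ⟨ε, e0, he⟩ := Metric.mem_nhdsWithin_iff.1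
    (F.onto _ _ (ok.ch 0 (mem_ball_self ok.r0)) _ (ball_mem_nhds 0 ok.r0))
  refine ⟨ε ^ 2 / 2, by positivity, fun w hw q => he ⟨?_, h.w ▸ mem_image_of_mem _ hw⟩⟩
  rw [e, mem_ball]
  have := ((hP _).2.2.1 w y hw.1 y0).1
  exact lt_of_pow_lt_pow_left₀ 2 e0.le (by linarith)

end RTb

open RTb I2.MaxA in
theorem rowTb : TbOf := by
  classical
  intro hP hPrm hPrd hGlu hTl K _ _ N d B cp A X Ψ L G cv i pl Z j φ g D h bad hZ ζ hζ o ho oS oo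
  have cb : ∀ p ∈ G.Cb i, ∃ x : PP d.z, x.On (cv i) ∧ prj x.z = p := fun p hp => by
    rwa [g.cb i] at hp
  have cb' : ∀ x : PP d.z, x.On (cv i) → prj x.z ∈ G.Cb i := fun x hx => by
    rw [g.cb i]
    exact ⟨x, hx, rfl⟩
  have ha : (G.a i : ℤ) = (cv i).v d.τ := by
    obtain ⟨x, hx, -⟩ := cb o ho
    rw [← (G.ok i _ (cb' x hx)).2.1, (g.ad i x hx).a]
  have ha' : ((cv i).v d.τ).toNat = G.a i := by rw [← ha, Int.toNat_natCast]
  obtain ⟨φ0, φ1⟩ := bad.v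
  have loc := bad.loc
  rw [ha'] at loc
  obtain ⟨R, hR⟩ : ∃ R, R = d.τ / φ ^ G.a i := ⟨_, rfl⟩
  have eτ : d.τ = φ ^ G.a i * R := by rw [hR, mul_div_cancel₀ _ (pow_ne_zero _ φ0)]
  have R1 : (cv i).res R ≠ 0 := by
    rw [hR]
    refine (unit B.g0 _ (div_ne_zero d.t0 (pow_ne_zero _ φ0)) ?_).2
    rw [I2.Adj.v_div B.g0.va _ d.t0 (pow_ne_zero _ φ0), I2.RLog.v_pow B.g0 _ φ0, φ1, ha, mul_one,
      sub_self]
  have dv : ∀ q ∈ G.Cb i, (G.a i : ℤ) ∣ (pl q).ord ((cv i).res R) - (G.ch i q).b := fun q hq => by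
    obtain ⟨x, hx, rfl⟩ := cb q hq
    have := dvd B D.pa h (g.ad i x hx) φ0 φ1
    rwa [(G.ok i _ hq).2.1, ← hR] at this
  rw [← hR] at loc
  obtain ⟨f, f1, f2, f3⟩ := bad.lift ζ hζ
  obtain ⟨p1, p2⟩ := hPrd _ D.ff D.pa D.pb ζ (pl o) hζ oo
  have sf : ∀ q ∈ Sfin G i o, q ∈ G.S ∧ q ∈ G.Cb i ∧ q ≠ o := fun q => mem_sf.1
  have no : ∀ p ∈ G.Cb i, p ≠ o → pl p ≠ pl o := fun p hp n e => n (D.bij.injOn hp ho e)
  have no' : ∀ p ∈ G.Cb i, p ∉ G.S → pl p ≠ pl o := fun p hp n => no p hp fun e => n (e ▸ oS)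
  have uq : ∀ p ∈ G.Cb i, ∀ p' ∈ G.Cb i, p ≠ o → p' ≠ o → ev (pl p) ζ = ev (pl p') ζ → p = p' :=
    fun p hp p' hp' n n' e => D.bij.injOn hp hp' ((p1 _ (no _ hp' n')).2.2.2 _ (no _ hp n) e)
  obtain ⟨p3, c₀, c0, p4⟩ := p2 _ (Sfin G i o) pl _ R1
    (D.bij.injOn.mono fun q hq => (sf q hq).2.1) (fun q hq => no q (sf q hq).2.1 (sf q hq).2.2)
    fun P n1 n2 => by
      obtain ⟨p, hp, rfl⟩ := D.bij.surjOn (mem_univ P)
      obtain ⟨x, hx, rfl⟩ := cb p hp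
      obtain ⟨-, -, -, r1, r2⟩ := loc x hx fun q => n2 _ (mem_sf.2
        ⟨hZ x q hx, hp, fun e => n1 (by rw [e])⟩) rfl
      exact (ord0 D.pa _ (by rwa [h.val x hx R r1])).2
  obtain ⟨R₀, hR₀⟩ : ∃ R₀ : ℂ → ℂ, R₀ = fun s =>
    c₀ * ∏ q ∈ Sfin G i o, (s - ev (pl q) ζ) ^ (pl q).ord ((cv i).res R) := ⟨_, rfl⟩
  have key : ∀ c ∈ (fun p => ev (pl p) ζ) '' (G.Cb i \ G.S), ∃ (ρ : ℝ) (T : C2 → V (N + 1)),
      0 < ρ ∧ Bi d.W (ball (0, c) ρ) T ∧ ∀ y ∈ ball ((0, c) : C2) ρ, (T y j = 1 ∧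
        Gt d.z φ f R R₀ (G.a i) (T y) = y) ∧ (∀ q ∈ Sfin G i o, y.2 ≠ ev (pl q) ζ) ∧
        (∀ t, (t, prj (T y)) ∈ A.Zb ↔ y.1 ^ G.a i * R₀ y.2 = tau A t) ∧
        (∀ t, (t, prj (T y)) ∈ A.Zb → (t, prj (T y)) ∈ A.Z) ∧ (y.1 = 0 →
          prj (T y) ∈ G.Cb i \ G.S ∧ ev (pl (prj (T y))) ζ = y.2) := by
    rintro _ ⟨p, ⟨hp, pS⟩, rfl⟩
    obtain ⟨x, hx, rfl⟩ := cb p hp
    obtain ⟨l1, l2, l3, l4, l5⟩ := loc x hx fun q => pS (hZ x q hx)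
    obtain ⟨q1, q2, q3, -⟩ := p1 _ (no' _ hp pS)
    obtain ⟨c, hc⟩ : ∃ c, c = ev (pl (prj x.z)) ζ := ⟨_, rfl⟩
    have ne : ∀ q ∈ Sfin G i o, c ≠ ev (pl q) ζ := fun q hq e => pS <| by
      rw [uq _ hp q (sf q hq).2.1 (fun e => pS (e ▸ oS)) (sf q hq).2.2 (hc ▸ e)]
      exact (sf q hq).1
    have r0 : vl d.z R x.z = R₀ c := by
      rw [← h.val x hx R l4, p4 _ (no' _ hp pS) fun q hq e =>
        pS (D.bij.injOn (sf q hq).2.1 hp e ▸ (sf q hq).1), hR₀, hc]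
    simp only [← hc] at q2 q3 ⊢
    have fx := f3 x hx (fun q => pS (hZ x q hx)) _ (h.ov x hx) q1
    have e : (cv i).res (f - algebraMap ℂ K c) = ζ - algebraMap ℂ _ c := by
      rw [res_sub _ f1 (hx.le (const_mem B x c)), f2, (cv i).res_const]
    obtain ⟨p, q, -, -, -, sp, -⟩ := (g.ad i x hx).ex
    have gm := (hPrm K N d.toSf B cp).2 x (cv i) p q φ _ hx sp l2 φ0 φ1 l3
      (sub_mem fx (const_mem B x c)) (e ▸ q2) (by rw [e, ← h.ord x hx, q3])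
    obtain ⟨C', k1, -, sp'⟩ := (hPrm K N d.toSf B cp).1 x _ _ gm
    obtain rfl : C' = cv i := by_contra fun n => one_ne_zero (sp'.eqn.2.1.symm.trans (l3 C' k1 n))
    obtain ⟨δ₁, d1, h1⟩ := sp'.on
    obtain ⟨ok, -, y0⟩ := G.ok i _ hp
    obtain ⟨δ₂, d2, h2⟩ := near hP g.fis ok (z_ne x) y0
    obtain ⟨ρ, T, ρ0, bi, -, hT⟩ := hTl K N d.toSf B cp x φ f R R₀ c (G.a i) j (min δ₁ δ₂) gm l4
      (hR₀ ▸ analyticAt_const.mul (Finset.analyticAt_fun_prod _ fun q hq =>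
        (analyticAt_id.sub analyticAt_const).zpow (sub_ne_zero.2 (ne q hq))))
      (r0 ▸ l5) r0 (G.a0 hp) l1 (lt_min d1 d2)
    obtain ⟨ρ', ρ1, hρ⟩ := Metric.eventually_nhds_iff_ball.1 (Eventually.and
      (ball_mem_nhds ((0, c) : C2) ρ0) ((eventually_all_finset _).2 fun q hq =>
        (continuousAt_snd (p := ((0, c) : C2))).eventually_ne (ne q hq)))
    refine ⟨ρ', T, ρ1, bi.mono isOpen_ball fun y hy => (hρ y hy).1, fun y hy => ?_⟩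
    obtain ⟨y1, y2⟩ := hρ y hy
    obtain ⟨t1, t2, t3, t4, t5, t6, t7⟩ := hT y y1
    have m := bi.mem y y1
    have on := Cone.on d.gen m
    obtain ⟨s, s1, s2⟩ := h2 _ m (t2.trans_le (min_le_right _ _))
    refine ⟨⟨t1, t6⟩, y2, fun t => ?_, fun t ht => ?_, fun z => ?_⟩
    · have := vl_mul on (vl_pow on t3 (G.a i)).1 t5
      rw [← eτ, (vl_pow on t3 (G.a i)).2, t7] at this
      rw [zb hP L m this.1, this.2]
    · rw [← s2] at ht ⊢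
      refine (ok.opn s s1 t ht).2 ?_
      rw [G.off i _ hp pS, pow_zero]
      exact one_ne_zero
    · obtain ⟨x', e'⟩ := B.pt _ m
      have e1 := ((hP _).1 _ _ m.1 (z_ne x')).2 e'
      have hx' : x'.On (cv i) := by
        refine (h1 x' ?_).2.2 ?_
        · rw [← e'.d2 (.refl x.z)]
          exact t2.trans_le (min_le_left _ _)
        · rw [← vl_pp on e']
          exact (mul_eq_zero.1 ((congrArg Prod.fst t6).trans z)).resolve_right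
            (Complex.exp_ne_zero _)
      refine ⟨⟨e1 ▸ cb' x' hx', fun q => pS ?_⟩, ?_⟩
      · rwa [← y0, ← G.av i _ hp s s1 (s2 ▸ q), s2]
      · rw [e1, ← f2, h.val x' hx' f ((B.reg x' _ f e').2 t4), ← vl_pp on e']
        exact congrArg Prod.snd t6
  choose! ρ T ρ0 bi hT using key
  obtain ⟨T', b', e'⟩ := hGlu _ d.W j (Gt d.z φ f R R₀ (G.a i)) _ ρ T
    (fun y hy y' e => by simp only [Gt, vl_pp (Cone.on d.gen hy) e])
    (fun c hc => ⟨bi c hc, fun y hy => (hT c hc y hy).1⟩) fun c hc c' hc' s h1 h2 => by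
      obtain ⟨⟨a1, -⟩, -, -, -, a2⟩ := hT c hc _ h1
      obtain ⟨⟨b1, -⟩, -, -, -, b2⟩ := hT c' hc' _ h2
      obtain ⟨a2, a3⟩ := a2 rfl
      obtain ⟨b2, b3⟩ := b2 rfl
      have := (((hP _).1 _ _ ((bi c hc).mem _ h1).1 ((bi c' hc').mem _ h2).1).1 (uq _ a2.1 _ b2.1
        (fun e => a2.2 (e ▸ oS)) (fun e => b2.2 (e ▸ oS)) (a3.trans b3.symm))).eq_smul b1
      rw [this.2, a1, one_smul]
  refine ⟨c₀, fun q => (pl q).ord ((cv i).res R), _, fun y => prj (T' y), c0, b'.op,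
    fun y hy => (g.fis.ch _ _).2 ⟨_, T', b', hy, .of_forall fun _ => rfl⟩, fun y hy y' hy' e =>
      b'.inj y hy y' hy' (((hP _).1 _ _ (b'.mem y hy).1 (b'.mem y' hy').1).1 e), fun p hp => ?_,
    fun y hy => ?_, fun y hy => ?_, fun y hy => ?_, fun q hq => dv q (sf q hq).2.1, ?_⟩
  · have hc := mem_image_of_mem (fun p => ev (pl p) ζ) hp
    have m := mem_ball_self (x := ((0, ev (pl p) ζ) : C2)) (ρ0 _ hc)
    obtain ⟨a2, a3⟩ := (hT _ hc _ m).2.2.2.2 rfl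
    refine ⟨mem_biUnion hc m, ?_⟩
    rw [e' _ hc _ m]
    exact uq _ a2.1 _ hp.1 (fun e => a2.2 (e ▸ oS)) (fun e => hp.2 (e ▸ oS)) a3
  · obtain ⟨c, hc, hy⟩ := mem_iUnion₂.1 hy
    exact (hT c hc y hy).2.1
  · obtain ⟨c, hc, hy⟩ := mem_iUnion₂.1 hy
    have := (hT c hc y hy).2.2.1
    rwa [← e' c hc y hy, hR₀] at this
  · obtain ⟨c, hc, hy⟩ := mem_iUnion₂.1 hy
    have := (hT c hc y hy).2.2.2.1
    rwa [← e' c hc y hy] at this
  · have := (dv o ho).neg_right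
    rwa [p3, neg_sub, sub_neg_eq_add, Int.add_comm] at this

end Pool.Agent.MP_c69980_ag.G3G
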