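import Pool.Agent.MP_c69980_ag.G3G.SpecB

/-!
Row Tl: the local coordinates on a tube.
-/

set_option autoImplicit false

noncomputable section

namespace Pool.Agent.MP_c69980_ag.G3G

open MvPolynomial Metric Filter Topology Set
open H60 H4 E1 G3
open I2 (Sf Br Gm Par Sp PP CC G0 CP Ov GenO BrStmt ParStmt MaxStmt CPStmt)

namespace RTl

lemma root_pow {k : ℂ} (hk : k ≠ 0) {a : ℕ} (ha : 0 < a) :
    Complex.exp (Complex.log k / a) ^ a = k := by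
  have h : (a : ℂ) ≠ 0 := Nat.cast_ne_zero.2 ha.ne'
  rw [← Complex.exp_nat_mul, mul_div_cancel₀ _ h, Complex.exp_log hk]

lemma der {ρ : C2 → ℂ} (hρ : AnalyticAt ℂ ρ 0) (h1 : ρ 0 = 1) (c : ℂ) (v : C2)
    (hv : fderiv ℂ (fun w : C2 => ((w.1 * ρ w, c + w.2) : C2)) 0 v = 0) : v = 0 := by
  have a : HasFDerivAt (fun w : C2 => ((w.1 * ρ w, c + w.2) : C2)) _ (0 : C2) :=
    (hasFDerivAt_fst.mul hρ.differentiableAt.hasFDerivAt).prodMk (hasFDerivAt_snd.const_add c)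
  rw [a.fderiv] at hv
  have e1 := (Prod.ext_iff.1 hv).1
  have e2 := (Prod.ext_iff.1 hv).2
  simp [h1] at e1 e2
  exact Prod.ext e1 e2

end RTl

theorem rowTl : TlOf := by
  intro par inv imm K _ _ N S B _ x φ f R R₀ c a j δ gm hR aR R0 vR ha hj hδ
  obtain ⟨Γ, ε, P⟩ := par K N S B x _ _ gm
  obtain ⟨ε', e0, e1, bi⟩ := imm.2 K N S x _ _ Γ ε P
  have b0 : (0 : C2) ∈ ball (0 : C2) ε' := mem_ball_self e0
  have nb : ball (0 : C2) ε' ∈ 𝓝 (0 : C2) := ball_mem_nhds _ e0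
  have on : ∀ w ∈ ball (0 : C2) ε', On S.z (Γ w) := fun w hw => Cone.on S.gen (bi.mem w hw)
  have aΓ : AnalyticAt ℂ Γ 0 := bi.an 0 b0
  have r0 : Reg S.z (Γ 0) R := (B.reg x _ R P.zero).1 hR
  obtain ⟨a1, a2⟩ := vl_an aΓ (mem_of_superset nb on) r0
  have v0 : vl S.z R (Γ 0) = R₀ c := by
    rw [P.zero.vl (Cone.on S.gen (B.cone x)) ((B.reg x _ R (.refl _)).1 hR), vR]
  have a3 : AnalyticAt ℂ (fun w : C2 => R₀ (c + w.2)) 0 :=
    aR.comp_of_eq (analyticAt_const.add analyticAt_snd) (by simp)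
  have R1 : R₀ (c + (0 : C2).2) ≠ 0 := by simpa using R0
  let k : C2 → ℂ := fun w => vl S.z R (Γ w) / R₀ (c + w.2)
  have ak : AnalyticAt ℂ k 0 := a1.div a3 R1
  have k0 : k 0 = 1 := by
    simp only [k, v0, Prod.snd_zero, add_zero]
    exact div_self R0
  let ρ : C2 → ℂ := fun w => Complex.exp (Complex.log (k w) / a)
  have aρ : AnalyticAt ℂ ρ 0 :=
    ((ak.clog (by rw [k0]; exact Complex.one_mem_slitPlane)).div_const).cexp
  have ρ0 : ρ 0 = 1 := by simp [ρ, k0]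
  have Γ0 : Γ 0 ≠ 0 := (bi.mem 0 b0).1
  have x0 : x.z ≠ 0 := (B.cone x).1
  have ev : ∀ᶠ w in 𝓝 (0 : C2), w ∈ ball (0 : C2) ε' ∧ Γ w j ≠ 0 ∧ d2 (Γ w) x.z < δ ∧
      Reg S.z (Γ w) R ∧ k w ≠ 0 ∧ R₀ (c + w.2) ≠ 0 := by
    have c1 : ContinuousAt (fun w => Γ w j) 0 := (analyticAt_pi_iff.1 aΓ j).continuousAt
    have c2 := d2_lim (l := 𝓝 (0 : C2)) aΓ.continuousAt (tendsto_const_nhds (x := x.z)) Γ0 x0
    rw [(d2_eq_zero Γ0 x0).2 P.zero] at c2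
    filter_upwards [nb, c1.eventually_ne ((P.zero.coord j).2 hj), c2.eventually (gt_mem_nhds hδ),
      a2, ak.continuousAt.eventually_ne (by rw [k0]; exact one_ne_zero),
      a3.continuousAt.eventually_ne R1] with w h1 h2 h3 h4 h5 h6
    exact ⟨h1, h2, h3, h4, h5, h6⟩
  obtain ⟨O, hO, oO, O0⟩ := _root_.eventually_nhds_iff.1 ev
  obtain ⟨r, H, r0, -, H0, hH, bH⟩ := inv _ S.W O Γ 0 (fun w => (w.1 * ρ w, c + w.2))
    (bi.mono oO fun w hw => (hO w hw).1) O0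
    ((analyticAt_fst.mul aρ).prod (analyticAt_const.add analyticAt_snd)) (RTl.der aρ ρ0 c)
  simp only [Prod.fst_zero, Prod.snd_zero, zero_mul, add_zero] at H0 hH bH
  have nj : ∀ y ∈ ball ((0, c) : C2) r, Γ (H y) j ≠ 0 := fun y hy => (hO _ (hH y hy).1).2.1
  refine ⟨r, fun y => (Γ (H y) j)⁻¹ • Γ (H y), r0,
    bH.smul (fun y hy => (analyticAt_pi_iff.1 (bH.an y hy) j).inv (nj y hy))
      fun y hy => inv_ne_zero (nj y hy), ?_, fun y hy => ?_⟩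
  · refine (Pp.smul (inv_ne_zero (nj _ (mem_ball_self r0))) _).trans ?_
    rw [H0]
    exact P.zero
  obtain ⟨h1, h2⟩ := hH y hy
  obtain ⟨w1, w2, w3, w4, w5, w6⟩ := hO _ h1
  have pp : Pp ((Γ (H y) j)⁻¹ • Γ (H y)) (Γ (H y)) := Pp.smul (inv_ne_zero w2) _
  obtain ⟨-, p1, p2, p3, p4⟩ := P.val _ (ball_subset_ball e1 w1)
  have o := on _ w1
  obtain ⟨q1, q2⟩ := vl_add o p2 (vl_const o c).1
  rw [sub_add_cancel] at q1 q2
  rw [p4, (vl_const o c).2, add_comm _ c] at q2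
  have y1 : y.1 = (H y).1 * ρ (H y) := (Prod.ext_iff.1 h2).1.symm
  have y2 : y.2 = c + (H y).2 := (Prod.ext_iff.1 h2).2.symm
  beta_reduce
  refine ⟨?_, ?_, pp.reg p1, pp.reg q1, pp.reg w4, ?_, ?_⟩
  · rw [Pi.smul_apply, smul_eq_mul, inv_mul_cancel₀ w2]
  · rw [pp.d2 (.refl _)]
    exact w3
  · rw [Gt, pp.vl o p1, pp.vl o q1, pp.vl o w4, p3, q2]
    exact h2
  · rw [pp.vl o p1, pp.vl o w4, p3, y1, y2, mul_pow, RTl.root_pow w5 ha, mul_assoc,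
      div_mul_cancel₀ _ w6]

end Pool.Agent.MP_c69980_ag.G3G
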