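import Pool.Agent.MP_c69980_ag.G3G.SpecA

/-!
The sheets near an ordinary point of a component.
-/

set_option autoImplicit false

noncomputable section

namespace Pool.Agent.MP_c69980_ag.G3G

open Metric Filter Topology Set
open G3

namespace RTu

theorem dw_snd (p : C2) : dw (fun p' : C2 => p'.2) p = 1 := by
  rw [dw, (hasFDerivAt_snd (𝕜 := ℂ)).fderiv]
  rfl

end RTu

theorem rowTu : TuStmt := by
  intro M _ A G
  refine ⟨fun k c hc => ?_, fun k c hc j _ => ?_, fun k c hc w hw u hu hg N hN => ?_⟩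
  · obtain ⟨h, ha, -⟩ := G.ok k c hc.1
    have hb := G.b0 hc.1 hc.2
    have h0 := G.off k c hc.1 hc.2
    obtain ⟨B, hB⟩ := h.bd
    refine ⟨B, (rt_small (A := A) (G.a0' k) h.r0).mono fun t ht j hj w hw => ?_⟩
    have hm : ∀ j, ∀ w ∈ ball (0 : ℂ) (G.hr k c),
        ((rt A (G.a k) j t, w) : C2) ∈ ball (0 : C2) (G.ch k c).r := fun j w hw =>
      mem_b.2 ⟨ht j, (mem_ball_zero_iff.1 hw).trans (half_lt_self h.r0)⟩
    have hx : AnalyticAt ℂ (fun p : C2 => ((rt A (G.a k) j p.1, p.2) : C2)) (t, w) :=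
      ((rt_an _ _ _).comp_of_eq analyticAt_fst rfl).prod analyticAt_snd
    have h1 : A.LC (G.Ts k c j) (t, w) := h.lc hx (hm j w hw)
      (Eventually.of_forall fun p => by rw [ha, hb, pow_zero, mul_one, rt_pow (G.a0' k)])
      (by rw [RTu.dw_snd]; exact one_ne_zero)
    have h2 : A.LZ (G.Ts k c j) (t, w) :=
      ⟨h1, (h.opn _ (hm j w hw) t (A.mem _ _ h1)).2 (by rw [h0, pow_zero]; exact one_ne_zero)⟩
    refine ⟨h2, fun l => ?_, fun j' hj' w' hw' e => ?_⟩
    · have := h.cf _ _ hx (hm j w hw) h2 l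
      rw [h0, pow_zero, RTu.dw_snd, div_one, one_pow, mul_one] at this
      exact (congrArg norm this).trans_le (hB l _ (hm j w hw))
    · have := h.inj (hm j w hw) (hm j' w' hw') e
      exact ⟨rt_inj hj hj' (congrArg Prod.fst this), congrArg Prod.snd this⟩
  · obtain ⟨h, -, -⟩ := G.ok k c hc.1
    have hr : 0 < G.hr k c := half_pos h.r0
    have hu : UniformContinuousOn (G.ch k c).Y (closedBall 0 (G.hr k c)) :=
      (isCompact_closedBall _ _).uniformContinuousOn_of_continuous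
        (h.contOn.mono (closedBall_subset_ball (half_lt_self h.r0)))
    refine Metric.tendstoUniformlyOn_iff.2 fun ε hε => ?_
    obtain ⟨δ, hδ, hd⟩ := Metric.uniformContinuousOn_iff.1 hu ε hε
    filter_upwards [rt_small (A := A) (G.a0' k) (lt_min hδ hr)] with t ht w hw
    have hw' := mem_ball_zero_iff.1 hw
    refine hd (0, w) (ball_subset_closedBall (mem_b.2 ⟨by simpa using hr, hw'⟩)) _
      (ball_subset_closedBall (mem_b.2 ⟨(ht j).trans_le (min_le_right _ _), hw'⟩)) ?_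
    rw [Prod.dist_eq, dist_self, dist_zero_left]
    exact max_lt ((ht j).trans_le (min_le_left _ _)) hδ
  · obtain ⟨h, ha, -⟩ := G.ok k c hc.1
    have hq : ((0, w) : C2) ∈ ball (0 : C2) (G.ch k c).r :=
      mem_b.2 ⟨by simpa using h.r0, (mem_ball_zero_iff.1 hw).trans (half_lt_self h.r0)⟩
    filter_upwards [h.near hq hu hg (O := Prod.snd ⁻¹' N)
      (continuous_snd.continuousAt.preimage_mem_nhds hN)] with x ⟨y, h1, _, h3, h4⟩
    rw [ha, G.b0 hc.1 hc.2, pow_zero, mul_one] at h4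
    obtain ⟨j, hj, e⟩ := rt_ex (G.a0' k) h4
    exact ⟨j, hj, y.2, h1, by rw [h3, Geo.Ts, ← e]⟩

end Pool.Agent.MP_c69980_ag.G3G
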