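import Pool.Agent.MP_c69980_ag.G3.PrjA
import Pool.Agent.MP_c69980_ag.I2.G0
import Pool.Agent.MP_c69980_ag.I2.CP
import Pool.Agent.MP_c69980_ag.I2.Br
import Pool.Agent.MP_c69980_ag.I2.Par
import Pool.Agent.MP_c69980_ag.I2.Sp
import Pool.Agent.MP_c69980_ag.I2.Max
import Pool.Agent.MP_c69980_ag.G3G.RAx
import Pool.Agent.MP_c69980_ag.G3G.RTu
import Pool.Agent.MP_c69980_ag.G3G.RAr
import Pool.Agent.MP_c69980_ag.G3G.RPa
import Pool.Agent.MP_c69980_ag.G3G.RPb
import Pool.Agent.MP_c69980_ag.G3G.RFar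
import Pool.Agent.MP_c69980_ag.G3G.REd
import Pool.Agent.MP_c69980_ag.G3G.RDq
import Pool.Agent.MP_c69980_ag.G3G.RSk
import Pool.Agent.MP_c69980_ag.G3G.RFn
import Pool.Agent.MP_c69980_ag.G3G.RDr
import Pool.Agent.MP_c69980_ag.G3G.RDf
import Pool.Agent.MP_c69980_ag.G3G.RDif
import Pool.Agent.MP_c69980_ag.G3G.RInv
import Pool.Agent.MP_c69980_ag.G3G.RImm
import Pool.Agent.MP_c69980_ag.G3G.RRx
import Pool.Agent.MP_c69980_ag.G3G.RSrf
import Pool.Agent.MP_c69980_ag.G3G.RSw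
import Pool.Agent.MP_c69980_ag.G3G.RGlu
import Pool.Agent.MP_c69980_ag.G3G.RPrm
import Pool.Agent.MP_c69980_ag.G3G.RAlg
import Pool.Agent.MP_c69980_ag.G3G.RFin
import Pool.Agent.MP_c69980_ag.G3G.RBad
import Pool.Agent.MP_c69980_ag.G3G.RPrd
import Pool.Agent.MP_c69980_ag.G3G.RMon
import Pool.Agent.MP_c69980_ag.G3G.RFrm2
import Pool.Agent.MP_c69980_ag.G3G.RMco
import Pool.Agent.MP_c69980_ag.G3G.RPt
import Pool.Agent.MP_c69980_ag.G3G.RCpt
import Pool.Agent.MP_c69980_ag.G3G.RCon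
import Pool.Agent.MP_c69980_ag.G3G.RGeo
import Pool.Agent.MP_c69980_ag.G3G.RDic
import Pool.Agent.MP_c69980_ag.G3G.RTl
import Pool.Agent.MP_c69980_ag.G3G.RTb
import Pool.Agent.MP_c69980_ag.G3G.Adp
import Pool.Agent.MP_c69980_ag.G3R.All

/-!
The geometry of the ends: assembly.
-/

set_option autoImplicit false

namespace Pool.Agent.MP_c69980_ag.G3G

open G3 I2

theorem skS : SkStmt := rowSk rowAx rowTu rowAr rowPa rowPb rowFar rowEd rowDq

theorem difS : DifStmt := rowDif rowAx rowFn rowDr rowDf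

theorem geoS : GeoStmt :=
  rowGeo prjS (rowSrf prjS rowImm (rowRx rowInv rowImm))
    (rowPt prjS rowImm rowPrm (rowAlg rowPrm) (rowMon parS rowInv rowImm) (rowMco prjS rowFrm2)
      (rowSw rowImm)) rowFin (rowCpt prjS) (rowCon prjS (maxS parS spS))

theorem gS : GStmt :=
  g_of (brS g0S) cpS rowBad geoS (rowDic prjS)
    (rowTb prjS rowPrm rowPrd rowGlu (rowTl parS rowInv rowImm))

theorem triS : TriStmt := G3R.triS difS

/-- The ends are semistable. -/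
theorem seS : SEStmt := se_dat (end_of gS skS triS)

end Pool.Agent.MP_c69980_ag.G3G
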