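import Pool.Agent.MP_c69980_ag.G3G.Defs

/-!
Elementary facts on roots of the parameter and on monomial charts.
-/

set_option autoImplicit false

noncomputable section

namespace Pool.Agent.MP_c69980_ag.G3G

open Metric Filter Topology Set
open G3

variable {M : Type} [MetricSpace M] {A : Amb M}

lemma tau_ne (t : ℂ) : tau A t ≠ 0 := Complex.exp_ne_zero _

lemma rt_ne (a k : ℕ) (t : ℂ) : rt A a k t ≠ 0 := Complex.exp_ne_zero _

lemma norm_tau (t : ℂ) : ‖tau A t‖ = Real.exp (-A.dp t) := by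
  simp [tau, Complex.norm_exp, Amb.dp]

lemma norm_rt (a k : ℕ) (t : ℂ) : ‖rt A a k t‖ = Real.exp (-A.dp t / a) := by
  simp [rt, Complex.norm_exp, Amb.dp, Complex.div_natCast_re]

lemma rt_pow_mul {a b : ℕ} (hb : 0 < b) (k : ℕ) (t : ℂ) : rt A (a * b) k t ^ b = rt A a k t := by
  have : (b : ℂ) ≠ 0 := by exact_mod_cast hb.ne'
  rw [rt, rt, ← Complex.exp_nat_mul]
  congr 1
  rcases eq_or_ne (a : ℂ) 0 with h | h
  · simp [h]
  · push_cast
    field_simp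

lemma rt_pow {a : ℕ} (ha : 0 < a) (k : ℕ) (t : ℂ) : rt A a k t ^ a = tau A t := by
  have : (a : ℂ) ≠ 0 := by exact_mod_cast ha.ne'
  rw [rt, tau, ← Complex.exp_nat_mul, mul_div_cancel₀ _ this, sub_eq_add_neg, Complex.exp_add,
    mul_comm _ (k : ℂ), Complex.exp_nat_mul_two_pi_mul_I, one_mul]

lemma rt_eq (a k : ℕ) (t : ℂ) :
    rt A a k t = Complex.exp (2 * Real.pi * Complex.I / a) ^ k * rt A a 0 t := by
  rw [rt, rt, ← Complex.exp_nat_mul, ← Complex.exp_add]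
  congr 1
  push_cast
  ring

lemma rt_inj {a k k' : ℕ} (hk : k < a) (hk' : k' < a) {t : ℂ} (h : rt A a k t = rt A a k' t) :
    k = k' := by
  rw [rt_eq a k, rt_eq a k'] at h
  exact (Complex.isPrimitiveRoot_exp a (by omega)).pow_inj hk hk'
    (mul_right_cancel₀ (rt_ne _ _ _) h)

lemma rt_ex {a : ℕ} (ha : 0 < a) {x t : ℂ} (h : x ^ a = tau A t) : ∃ k < a, x = rt A a k t := by
  haveI : NeZero a := ⟨ha.ne'⟩
  have h1 : (x / rt A a 0 t) ^ a = 1 := by rw [div_pow, h, rt_pow ha, div_self (tau_ne t)]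
  obtain ⟨k, hk, e⟩ := (Complex.isPrimitiveRoot_exp a ha.ne').eq_pow_of_pow_eq_one h1
  exact ⟨k, hk, by rw [rt_eq, e, div_mul_cancel₀ _ (rt_ne _ _ _)]⟩

lemma rt_an (a k : ℕ) (t : ℂ) : AnalyticAt ℂ (rt A a k) t := by
  unfold rt
  fun_prop

lemma tau_an (t : ℂ) : AnalyticAt ℂ (tau A) t := by
  unfold tau
  fun_prop

lemma dp_tend : Tendsto A.dp A.l atTop := tendsto_comap

lemma rt_tend {a : ℕ} (ha : 0 < a) (k : ℕ) : Tendsto (rt A a k) A.l (𝓝 0) := by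
  rw [tendsto_zero_iff_norm_tendsto_zero]
  simp only [norm_rt]
  exact Real.tendsto_exp_atBot.comp
    ((tendsto_neg_atTop_atBot.comp dp_tend).atBot_div_const (by exact_mod_cast ha))

lemma tau_tend : Tendsto (tau A) A.l (𝓝 0) := by
  rw [tendsto_zero_iff_norm_tendsto_zero]
  simp only [norm_tau]
  exact Real.tendsto_exp_atBot.comp (tendsto_neg_atTop_atBot.comp dp_tend)

/-- All the roots are small. -/
lemma rt_small {a : ℕ} (ha : 0 < a) {ε : ℝ} (hε : 0 < ε) :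
    ∀ᶠ t in A.l, ∀ k, ‖rt A a k t‖ < ε := by
  filter_upwards [(rt_tend (A := A) ha 0).norm.eventually (gt_mem_nhds (by simpa using hε))]
    with t ht k
  rwa [norm_rt] at ht ⊢

lemma mem_b {q : C2} {r : ℝ} : q ∈ ball (0 : C2) r ↔ ‖q.1‖ < r ∧ ‖q.2‖ < r := by
  rw [mem_ball_zero_iff, Prod.norm_def, max_lt_iff]

namespace MC.OK

variable {F : Srf A} {N : MC M}

lemma contOn (h : N.OK F) : ContinuousOn N.Y (ball 0 N.r) := fun q hq =>
  (F.cont _ _ (h.ch q hq)).continuousWithinAt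

/-- Points of the family near a point of the chart are in the chart. -/
lemma near (h : N.OK F) {q : C2} (hq : q ∈ ball (0 : C2) N.r) {u : Ultrafilter (ℂ × M)}
    (hu : A.Out u) (hc : Cg u (N.Y q)) {O : Set C2} (hO : O ∈ 𝓝 q) :
    ∀ᶠ x in (u : Filter (ℂ × M)), ∃ y ∈ O, y ∈ ball (0 : C2) N.r ∧ x.2 = N.Y y ∧
      y.1 ^ N.a * y.2 ^ N.b = tau A x.1 := by
  have h1 := F.onto _ _ (h.ch q hq) _ (inter_mem hO (isOpen_ball.mem_nhds hq))
  have h2 : Tendsto Prod.snd (u : Filter (ℂ × M)) (𝓝[F.W] (N.Y q)) :=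
    tendsto_nhdsWithin_iff.2 ⟨hc, hu.2.mono fun x hx => F.zb x hx⟩
  filter_upwards [h2.eventually h1, hu.2] with x hx hz
  obtain ⟨y, hy, e⟩ := hx
  exact ⟨y, hy.1, hy.2, e.symm, (h.fib y hy.2 x.1).1 (by rw [e]; exact hz)⟩

/-- Charts of the fibres. -/
lemma lc (h : N.OK F) {x : C2 → C2} {p : C2} (hx : AnalyticAt ℂ x p)
    (hp : x p ∈ ball (0 : C2) N.r)
    (he : ∀ᶠ p' in 𝓝 p, (x p').1 ^ N.a * (x p').2 ^ N.b = tau A p'.1)
    (hd : dw (fun p' => (x p').2) p ≠ 0) : A.LC (fun p' => N.Y (x p')) p := by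
  refine F.lc _ x p (fun q => q.1 ^ N.a * q.2 ^ N.b) (h.ch _ hp) hx
    ((analyticAt_fst.pow _).mul (analyticAt_snd.pow _)) ?_ ?_ he hd
  · intro h0
    have h1 := he.self_of_nhds
    have h2 : HasFDerivAt (fun q : C2 => q.1 ^ N.a * q.2 ^ N.b) _ (x p) :=
      ((hasFDerivAt_fst (𝕜 := ℂ)).pow N.a).mul ((hasFDerivAt_snd (𝕜 := ℂ)).pow N.b)
    have h3 := congrArg (fun L : C2 →L[ℂ] ℂ => L (1, 0)) (h2.fderiv.symm.trans h0)
    have h4 := mul_ne_zero_iff.1 (h1 ▸ tau_ne (A := A) p.1)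
    have h5 : (x p).1 ≠ 0 := fun e => h4.1 (by rw [e, zero_pow h.a0.ne'])
    have h6 : (N.a : ℂ) ≠ 0 := by exact_mod_cast h.a0.ne'
    simp [h4.2, h5, h6] at h3
  · filter_upwards [isOpen_ball.mem_nhds hp] with q hq t using h.fib q hq t

/-- A smaller chart. -/
lemma shrink (h : N.OK F) {r : ℝ} (r0 : 0 < r) (hr : r ≤ N.r) : MC.OK F { N with r := r } :=
  have s : ball (0 : C2) r ⊆ ball 0 N.r := ball_subset_ball hr
  ⟨r0, h.a0, h.c1, h.bc, fun q hq => h.ch q (s hq), h.inj.mono s, fun q hq => h.fib q (s hq),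
    fun q hq => h.opn q (s hq), h.bd.imp fun _ hB l q hq => hB l q (s hq),
    fun x p hx hp => h.cf x p hx (s hp)⟩

end MC.OK

namespace Geo

variable (G : Geo A) {i i' : G.ι} {p : M}

lemma a0 (hp : p ∈ G.Cb i) : 0 < G.a i := (G.ok i p hp).2.1 ▸ (G.ok i p hp).1.a0

lemma a0' (i : G.ι) : 0 < G.a i := (G.ne i).elim fun _ hp => G.a0 hp.1

lemma b0 (hp : p ∈ G.Cb i) (hS : p ∉ G.S) : (G.ch i p).b = 0 := by
  by_contra h
  have := (G.ok i p hp).1.bc (Nat.pos_of_ne_zero h)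
  rw [G.off i p hp hS] at this
  exact zero_ne_one this

lemma uniq (hp : p ∈ G.Cb i) (hp' : p ∈ G.Cb i') (hS : p ∉ G.S) : i = i' := by
  by_contra h
  have := (G.node i i' h p hp hp').1
  rw [G.b0 hp hS] at this
  exact (G.a0 hp').ne this

lemma cc_eq (hp : p ∈ G.Cb i) (hS : p ∉ G.S) : G.cc p = G.ch i p := by
  have h : ∃ i, p ∈ G.Cb i := ⟨i, hp⟩
  rw [cc, dif_pos h, G.uniq h.choose_spec hp hS]

lemma g0 (i : G.ι) (p : M) : 0 < G.g i p := Nat.gcd_pos_of_pos_left _ (G.a0' i)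

lemma ge (i : G.ι) (p : M) : G.g i p * G.e i p = G.a i :=
  Nat.mul_div_cancel' (Nat.gcd_dvd_left _ _)

lemma ge' (i : G.ι) (p : M) : G.g i p * G.e' i p = (G.ch i p).b :=
  Nat.mul_div_cancel' (Nat.gcd_dvd_right _ _)

lemma e0 (i : G.ι) (p : M) : 0 < G.e i p :=
  Nat.pos_of_ne_zero fun h => (G.a0' i).ne' (by rw [← G.ge i p, h, mul_zero])

lemma cop (i : G.ι) (p : M) : Nat.Coprime (G.e i p) (G.e' i p) :=
  Nat.coprime_div_gcd_div_gcd (G.g0 i p)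

lemma e'0 (hb : 0 < (G.ch i p).b) : 0 < G.e' i p :=
  Nat.pos_of_ne_zero fun h => hb.ne' (by rw [← G.ge' i p, h, mul_zero])

lemma e_b0 (hb : (G.ch i p).b = 0) : G.g i p = G.a i ∧ G.e i p = 1 ∧ G.e' i p = 0 := by
  simp [g, e, e', hb, Nat.div_self (G.a0' i)]

lemma g_le (i : G.ι) (p : M) : G.g i p ≤ G.a i := Nat.gcd_le_left _ (G.a0' i)

/-- At a node the numbers are exchanged. -/
lemma node' (h : i ≠ i') (hp : p ∈ G.Cb i) (hp' : p ∈ G.Cb i') :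
    G.g i' p = G.g i p ∧ G.e i' p = G.e' i p ∧ G.e' i' p = G.e i p := by
  have h1 := (G.node i i' h p hp hp').1
  have h2 := (G.node i' i h.symm p hp' hp).1
  simp [g, e, e', h1, h2, Nat.gcd_comm]

/-- The port charts lie in the fibres. -/
lemma mono_P (π : G.Prt) (t : ℂ) {w : ℂ} (hw : w ≠ 0 ∨ (G.ch π.i π.q).b = 0) :
    (rt A (G.a π.i) π.k t / w ^ G.e' π.i π.q) ^ G.a π.i *
      (w ^ G.e π.i π.q) ^ (G.ch π.i π.q).b = tau A t := by
  rcases hw with hw | hb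
  · have : G.e' π.i π.q * G.a π.i = G.e π.i π.q * (G.ch π.i π.q).b := by
      rw [← G.ge π.i π.q, ← G.ge' π.i π.q]
      ring
    rw [div_pow, rt_pow (G.a0' _), ← pow_mul, ← pow_mul, this, div_mul_cancel₀ _ (pow_ne_zero _ hw)]
  · simp [(G.e_b0 hb).2.2, hb, rt_pow (G.a0' _)]

lemma ax0_mem (hp : p ∈ G.Cb i) {w : ℂ} (hw : ‖w‖ < (G.ch i p).r) : G.ax0 i p w ∈ G.Cb i :=
  (G.ax i p hp _ (mem_b.2 ⟨by simpa using (G.ok i p hp).1.r0, hw⟩)).2 rfl

lemma ax0_zero (hp : p ∈ G.Cb i) : G.ax0 i p 0 = p := (G.ok i p hp).2.2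

instance : Finite G.Prt := by
  classical
  refine Finite.of_injective (fun π : G.Prt => ((⟨π.i, ⟨π.k, π.lt.trans_le (G.g_le _ _)⟩⟩ :
    Σ i, Fin (G.a i)), (⟨π.q, π.inS⟩ : G.S))) ?_
  rintro ⟨i, q, k, _, _, _⟩ ⟨i', q', k', _, _, _⟩ h
  simp only [Prod.mk.injEq, Sigma.mk.injEq, Subtype.mk.injEq] at h
  obtain ⟨⟨rfl, h⟩, rfl⟩ := h
  obtain rfl : k = k' := by simpa using h
  rfl

end Geo

end Pool.Agent.MP_c69980_ag.G3G
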