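import Pool.Agent.MP_c69980_ag.G3.Defs
import Pool.Agent.MP_f3836a_nt.PK.SpecA

/-!
The geometry of a surface near a fibre with normal crossings: monomial charts, ports, the
dictionary between a component and its function field, tubes.
-/

set_option autoImplicit false

noncomputable section

namespace Pool.Agent.MP_c69980_ag.G3G

open Metric Filter Topology Set
open G3 Pool.Agent.MP_f3836a_nt.PK

variable {M : Type} [MetricSpace M]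

/-- The parameter of the base; it tends to `0` at the end. -/
def tau (A : Amb M) (t : ℂ) : ℂ := Complex.exp (-(A.σ * t))

/-- The root number `k` of order `a` of the parameter. -/
def rt (A : Amb M) (a k : ℕ) (t : ℂ) : ℂ :=
  Complex.exp ((2 * Real.pi * Complex.I * k - A.σ * t) / a)

/-- The surface `W` and its local charts. -/
structure Srf (A : Amb M) where
  W : Set M
  Ch : (C2 → M) → C2 → Prop
  zb : ∀ x ∈ A.Zb, x.2 ∈ W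
  ev : ∀ Y q, Ch Y q → ∀ᶠ x in 𝓝 q, Ch Y x
  cont : ∀ Y q, Ch Y q → ContinuousAt Y q
  mem : ∀ Y q, Ch Y q → Y q ∈ W
  onto : ∀ Y q, Ch Y q → ∀ N ∈ 𝓝 q, Y '' N ∈ 𝓝[W] (Y q)
  trans : ∀ Y Y' q q', Ch Y q → Ch Y' q' → Y q = Y' q' →
    ∃ θ : C2 → C2, AnalyticAt ℂ θ q ∧ θ q = q' ∧ ∀ᶠ x in 𝓝 q, Y x = Y' (θ x)
  lc : ∀ Y (x : C2 → C2) p (τ : C2 → ℂ), Ch Y (x p) → AnalyticAt ℂ x p → AnalyticAt ℂ τ (x p) →
    fderiv ℂ τ (x p) ≠ 0 → (∀ᶠ q in 𝓝 (x p), ∀ t, (t, Y q) ∈ A.Zb ↔ τ q = tau A t) →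
    (∀ᶠ p' in 𝓝 p, τ (x p') = tau A p'.1) → dw (fun p' => (x p').2) p ≠ 0 →
    A.LC (fun p' => Y (x p')) p

/-- A monomial chart. -/
structure MC (M : Type) where
  Y : C2 → M
  r : ℝ
  a : ℕ
  b : ℕ
  c : ℕ
  φ : Fin 3 → C2 → ℂ

variable {A : Amb M}

/-- In the chart the parameter is a monomial, the boundary is a union of axes and the forms have
logarithmic poles. -/
structure MC.OK (F : Srf A) (N : MC M) : Prop where
  r0 : 0 < N.r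
  a0 : 0 < N.a
  c1 : N.c ≤ 1
  bc : 0 < N.b → N.c = 1
  ch : ∀ q ∈ ball (0 : C2) N.r, F.Ch N.Y q
  inj : InjOn N.Y (ball 0 N.r)
  fib : ∀ q ∈ ball (0 : C2) N.r, ∀ t, (t, N.Y q) ∈ A.Zb ↔ q.1 ^ N.a * q.2 ^ N.b = tau A t
  opn : ∀ q ∈ ball (0 : C2) N.r, ∀ t, (t, N.Y q) ∈ A.Zb → ((t, N.Y q) ∈ A.Z ↔ q.2 ^ N.c ≠ 0)
  bd : ∃ B : ℝ, ∀ l, ∀ q ∈ ball (0 : C2) N.r, ‖N.φ l q‖ ≤ B
  cf : ∀ (x : C2 → C2) p, AnalyticAt ℂ x p → x p ∈ ball (0 : C2) N.r →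
    A.LZ (fun p' => N.Y (x p')) p → ∀ l, A.cf (fun p' => N.Y (x p')) p l =
      N.φ l (x p) * (dw (fun p' => (x p').2) p / (x p).2 ^ N.c) ^ A.m

/-- The fibre at the end: components `Cb i` of multiplicity `a i`, monomial charts, special
points `S`. -/
structure Geo (A : Amb M) where
  F : Srf A
  ι : Type
  [fι : Fintype ι]
  Cb : ι → Set M
  a : ι → ℕ
  ch : ι → M → MC M
  S : Finset M
  ok : ∀ i, ∀ p ∈ Cb i, (ch i p).OK F ∧ (ch i p).a = a i ∧ (ch i p).Y 0 = p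
  ax : ∀ i, ∀ p ∈ Cb i, ∀ q ∈ ball (0 : C2) (ch i p).r, (ch i p).Y q ∈ Cb i ↔ q.1 = 0
  oth : ∀ i i', ∀ p ∈ Cb i, ∀ q ∈ ball (0 : C2) (ch i p).r, (ch i p).Y q ∈ Cb i' → p ∈ Cb i'
  node : ∀ i i', i ≠ i' → ∀ p ∈ Cb i, p ∈ Cb i' → (ch i p).b = a i' ∧
    (ch i' p).r = (ch i p).r ∧ ∀ q, (ch i' p).Y q = (ch i p).Y q.swap
  nb : ∀ i, ∀ p ∈ Cb i, 0 < (ch i p).b → ∃ i', i' ≠ i ∧ p ∈ Cb i'
  two : ∀ i i' i'' p, p ∈ Cb i → p ∈ Cb i' → p ∈ Cb i'' → i' ≠ i → i'' ≠ i → i' = i''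
  off : ∀ i, ∀ p ∈ Cb i, p ∉ S → (ch i p).c = 0
  av : ∀ i, ∀ p ∈ Cb i, ∀ q ∈ ball (0 : C2) (ch i p).r, (ch i p).Y q ∈ S → q = 0
  S3 : ∀ i, 3 ≤ (Cb i ∩ S).ncard
  dj : ∀ i i', ∀ p ∈ Cb i, ∀ p' ∈ Cb i', p ∈ S → p' ∈ S → ∀ q ∈ ball (0 : C2) (ch i p).r,
    ∀ q' ∈ ball (0 : C2) (ch i' p').r, (ch i p).Y q = (ch i' p').Y q' → p = p'
  cpt : ∀ i, IsCompact (Cb i)
  out : ∀ u, A.Out u → ∃ i, ∃ p ∈ Cb i, Cg u p
  conn : ∀ i, IsPreconnected (Cb i \ S)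
  ne : ∀ i, (Cb i \ S).Nonempty

attribute [instance] Geo.fι

namespace Geo

variable (G : Geo A)

/-- The parametrisation of the component `i` near `p`. -/
def ax0 (i : G.ι) (p : M) (w : ℂ) : M := (G.ch i p).Y (0, w)

/-- The number of ports at `p`. -/
def g (i : G.ι) (p : M) : ℕ := Nat.gcd (G.a i) (G.ch i p).b

/-- The ramification of the ports at `p`. -/
def e (i : G.ι) (p : M) : ℕ := G.a i / G.g i p

/-- The ramification at the other end. -/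
def e' (i : G.ι) (p : M) : ℕ := (G.ch i p).b / G.g i p

/-- Ports: a component, a special point on it, and a number. -/
structure Prt where
  i : G.ι
  q : M
  k : ℕ
  mem : q ∈ G.Cb i
  inS : q ∈ G.S
  lt : k < G.g i q

/-- The chart of a port. -/
def P (π : G.Prt) (x : C2) : M :=
  (G.ch π.i π.q).Y (rt A (G.a π.i) π.k x.1 / x.2 ^ G.e' π.i π.q, x.2 ^ G.e π.i π.q)

/-- Its limit. -/
def p (π : G.Prt) (w : ℂ) : M := G.ax0 π.i π.q (w ^ G.e π.i π.q)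

open Classical in
/-- The chart at a point of the fibre. -/
def cc (c : M) : MC M :=
  if h : ∃ i, c ∈ G.Cb i then G.ch h.choose c else ⟨fun _ => c, 1, 1, 0, 0, fun _ _ => 0⟩

/-- The sheets near an ordinary point. -/
def T (c : M) (j : ℕ) (x : C2) : M := (G.cc c).Y (rt A (G.cc c).a j x.1, x.2)

/-- `r₀` is a common radius for the ports. -/
def Rad (r₀ : ℝ) : Prop := 0 < r₀ ∧ r₀ ≤ 1 ∧ ∀ i, ∀ q ∈ G.Cb i, q ∈ G.S → 2 * r₀ ≤ (G.ch i q).r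

/-- The skeleton `S` is the one given by `G`. -/
structure Is (S : Sk A) where
  ec : S.Cmp ≃ G.ι
  ep : S.Prt ≃ G.Prt
  rad : G.Rad S.r₀
  C : ∀ k, S.C k = G.Cb (ec k) \ G.S
  a : ∀ k, S.a k = G.a (ec k)
  cm : ∀ π, ec (S.cm π) = (ep π).i
  fl : ∀ π π', S.fl π = S.fl π' ↔ (ep π).i = (ep π').i ∧ (ep π).q = (ep π').q
  rd : ∀ k, ∀ c ∈ S.C k, 2 * S.rad c = (G.ch (ec k) c).r
  ψ : ∀ k, ∀ c ∈ S.C k, S.ψ c = G.ax0 (ec k) c
  P : ∀ π, S.P π = G.P (ep π)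
  p : ∀ π, S.p π = G.p (ep π)
  dv : ∀ i, G.a i ∣ S.N

end Geo

/-! ### The function field of a component -/

section

variable {F : Type} [Field F] [Algebra ℂ F]

open Classical in
/-- The value at a place, and `0` at a pole. -/
def ev (P : Place ℂ F) (f : F) : ℂ := if f ∈ P.V then P.val f else 0

/-- The order of the differential `f / δ ^ μ`, where `u P` is a uniformiser at `P`. -/
def od (δ : Derivation ℂ F F) (u : Place ℂ F → F) (μ : ℕ) (f : F) (P : Place ℂ F) : ℤ :=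
  P.ord f - μ * P.ord (δ (u P))

/-- The points of the component `i` are the places of `F`. -/
structure Dic (G : Geo A) (i : G.ι) (F : Type) [Field F] [Algebra ℂ F] (pl : M → Place ℂ F) :
    Prop where
  ff : IsFF ℂ F
  pa : PlA ℂ F
  pb : PlB ℂ F
  bij : BijOn pl (G.Cb i) univ
  an : ∀ p ∈ G.Cb i, ∀ f : F, f ≠ 0 → ∃ H : ℂ → ℂ, AnalyticAt ℂ H 0 ∧ H 0 ≠ 0 ∧
    ∀ᶠ w in 𝓝 (0 : ℂ), ev (pl (G.ax0 i p w)) f = w ^ (pl p).ord f * H w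

open Classical in
/-- The special points of the component `i` other than `o`. -/
def Sfin (G : Geo A) (i : G.ι) (o : M) : Finset M := G.S.filter fun q => q ∈ G.Cb i ∧ q ≠ o

/-- Coordinates on a neighbourhood of a rational component without its special points. -/
structure Tb (G : Geo A) (i : G.ι) (pl : M → Place ℂ F) (ζ : F) (o : M) (c₀ : ℂ) (κ : M → ℤ)
    (O : Set C2) (T : C2 → M) : Prop where
  c0 : c₀ ≠ 0
  op : IsOpen O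
  ch : ∀ y ∈ O, G.F.Ch T y
  inj : InjOn T O
  ax : ∀ p ∈ G.Cb i \ G.S, ((0, ev (pl p) ζ) : C2) ∈ O ∧ T (0, ev (pl p) ζ) = p
  av : ∀ y ∈ O, ∀ q ∈ Sfin G i o, y.2 ≠ ev (pl q) ζ
  fib : ∀ y ∈ O, ∀ t, (t, T y) ∈ A.Zb ↔
    y.1 ^ G.a i * (c₀ * ∏ q ∈ Sfin G i o, (y.2 - ev (pl q) ζ) ^ κ q) = tau A t
  opn : ∀ y ∈ O, ∀ t, (t, T y) ∈ A.Zb → (t, T y) ∈ A.Z
  cg : ∀ q ∈ Sfin G i o, (G.a i : ℤ) ∣ κ q - (G.ch i q).b
  co : (G.a i : ℤ) ∣ ∑ q ∈ Sfin G i o, κ q + (G.ch i o).b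

/-- Tubes exist for all generators with a special pole. -/
def Tube (G : Geo A) (i : G.ι) (pl : M → Place ℂ F) : Prop :=
  ∀ ζ : F, IntermediateField.adjoin ℂ {ζ} = ⊤ → ∀ o ∈ G.Cb i, o ∈ G.S → (pl o).ord ζ < 0 →
    ∃ c₀ κ O T, Tb G i pl ζ o c₀ κ O T

end

/-- Every component has a function field and tubes. -/
def Geo.Alg (G : Geo A) : Prop := ∀ i, ∃ (F : Type) (_ : Field F) (_ : Algebra ℂ F)
  (pl : M → Place ℂ F), Dic G i F pl ∧ Tube G i pl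

/-- Quantification over all ends. -/
def AllG (Φ : ∀ (M : Type) [MetricSpace M] (A : Amb M) (_ : Geo A), Prop) : Prop :=
  ∀ (M : Type) [MetricSpace M] (A : Amb M) (G : Geo A), Φ M A G

/-- The skeleton and the initial state. -/
def SkStmt : Prop := AllG fun _ _ A G => ∃ S : Sk A, Nonempty (G.Is S) ∧ Nonempty (St S Finset.univ)

/-- Differentials of the function field are differentials on the skeleton. -/
def DifStmt : Prop := AllG fun M _ A G => ∀ (S : Sk A) (h : G.Is S) (k : S.Cmp) (F : Type) [Field F]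
  [Algebra ℂ F] (pl : M → Place ℂ F) (δ : Derivation ℂ F F) (u : Place ℂ F → F) (μ : ℕ),
  Dic G (h.ec k) F pl → δ ≠ 0 → (∀ P : Place ℂ F, P.ord (u P) = 1) →
  ∃ η : F → M ⊕ S.Prt → ℂ → ℂ,
    (∀ f : F, f ≠ 0 → (∀ c ∈ S.C k, 0 ≤ od δ u μ f (pl c)) → S.Dif k μ (η f) ∧
      (∀ i, ∀ w ∈ S.dom k i, η f i w = 0 ↔ 0 < od δ u μ f (pl (S.par i w))) ∧
      ∀ π, S.cm π = k → ∃ H : ℂ → ℂ, AnalyticAt ℂ H 0 ∧ H 0 ≠ 0 ∧ ∀ᶠ w in 𝓝[≠] (0 : ℂ),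
        η f (.inr π) w = w ^ (G.e (h.ep π).i (h.ep π).q * od δ u μ f (pl (h.ep π).q) +
          μ * (G.e (h.ep π).i (h.ep π).q - 1 : ℤ)) * H w) ∧
    ∀ f f' : F, f ≠ 0 → f' ≠ 0 → (∀ s : ℂ, f' ≠ algebraMap ℂ F s * f) → ∀ c c' : ℂ,
      (c ≠ 0 ∨ c' ≠ 0) → ∀ i, ∀ w ∈ S.dom k i, ¬∀ᶠ v in 𝓝 w, c * η f i v = c' * η f' i v

/-- The trichotomy. -/
def TriStmt : Prop := AllG fun _ _ A G => G.Alg → ∀ S : Sk A, G.Is S →
  ∀ k op, S.Hyp k op ∨ S.Deg k op ∨ Nonempty (S.XV k op)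

lemma se_of (h1 : SkStmt) (h2 : TriStmt) (G : Geo A) (hG : G.Alg) : Nonempty (SE A) := by
  obtain ⟨S, ⟨i⟩, ⟨s⟩⟩ := h1 M A G
  exact ⟨⟨S, s, h2 M A G hG S i⟩⟩

end Pool.Agent.MP_c69980_ag.G3G
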