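import Pool.Agent.MP_c69980_ag.G3G.SpecB

/-!
A curve without finitely many points is connected.
-/

set_option autoImplicit false

noncomputable section

namespace Pool.Agent.MP_c69980_ag.G3G

open Metric Filter Topology Set
open H60 H4 E1 G3
open I2 (Sf Br PP CC CP MaxStmt)

namespace RCon

variable {K : Type} [Field K] [Algebra ℂ K] {N : ℕ} {S : Sf K N}

lemma ne (hB : Br S) (x : PP S.z) : x.z ≠ 0 := by
  obtain ⟨h, -⟩ := hB.cone x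
  exact h

lemma inj (hP : PrjStmt) (hB : Br S) : Function.Injective fun x : PP S.z => prj x.z :=
  fun x y h => hB.uniq x y (((hP _).1 _ _ (ne hB x) (ne hB y)).1 h)

lemma near (hP : PrjStmt) (hB : Br S) (x : PP S.z) {U : Set (Wg (N + 1))} (hU : IsOpen U)
    (hx : prj x.z ∈ U) : ∃ δ : ℝ, 0 < δ ∧ ∀ y : PP S.z, d2 y.z x.z < δ → prj y.z ∈ U := by
  obtain ⟨ε, hε, h⟩ := Metric.isOpen_iff.1 hU _ hx
  refine ⟨ε ^ 2 / 2, by positivity, fun y hy => h (lt_of_pow_lt_pow_left₀ 2 hε.le ?_)⟩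
  have := ((hP _).2.2.1 _ _ (ne hB y) (ne hB x)).1
  linarith

end RCon

open RCon in
theorem rowCon : ConOf := by
  intro hP hM K _ _ N S hB hC C T
  refine ⟨fun u v hu hv hs ⟨_, ⟨⟨y, hy, rfl⟩, hyT⟩, hyu⟩ ⟨_, ⟨⟨z, hz, rfl⟩, hzT⟩, hzv⟩ => ?_,
    (hC C).inf.image (inj hP hB).injOn⟩
  by_contra hn
  have key : ∀ x : PP S.z, x.On C → prj x.z ∉ T → prj x.z ∈ u → prj x.z ∉ v :=
    fun x h1 h2 h3 h4 => hn ⟨_, ⟨⟨x, h1, rfl⟩, h2⟩, h3, h4⟩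
  have h := hM K N S hB C {x | prj x.z ∈ T ∨ prj x.z ∈ u} {x | prj x.z ∈ T} (hC C)
    (T.finite_toSet.preimage (inj hP hB).injOn) (fun x hx H => ?_) (fun x hA _ hZ => ?_)
    ⟨y, Or.inr hyu, hy, hyT⟩ z hz
  · exact key z hz hzT (h.resolve_left hzT) hzv
  · by_contra hA
    obtain ⟨h1, h2⟩ := not_or.1 hA
    obtain ⟨δ, hδ, h3⟩ := near hP hB x (hv.inter T.finite_toSet.isClosed.isOpen_compl)
      ⟨(hs ⟨⟨x, hx, rfl⟩, h1⟩).resolve_left h2, h1⟩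
    obtain ⟨w, w1, w2, w3⟩ := H δ hδ
    exact key w w2 (h3 w w3).2 (w1.resolve_left (h3 w w3).2) (h3 w w3).1
  · obtain ⟨δ, hδ, h3⟩ := near hP hB x hu (hA.resolve_left hZ)
    exact ⟨δ, hδ, fun w _ hw => Or.inr (h3 w hw)⟩

end Pool.Agent.MP_c69980_ag.G3G
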