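import Pool.Agent.MP_c69980_ag.G3G.SpecA

/-!
The port at the other end of a neck.
-/

set_option autoImplicit false

namespace Pool.Agent.MP_c69980_ag.G3G

open G3

namespace RFar

variable {M : Type} [MetricSpace M] {A : Amb M} {G : Geo A}

lemma key (π π' : G.Prt) (hq : π'.q = π.q) (hk : π'.k = π.k) (hi : π'.i ≠ π.i) :
    0 < (G.ch π'.i π'.q).b ∧ G.md π' = G.md π ∧
      ∀ t b, G.P π' (t, b) = G.P π (t, G.md π t / b) := by
  obtain ⟨i, q, k, m, s, l⟩ := π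
  obtain ⟨i', q', k', m', s', l'⟩ := π'
  obtain rfl : q' = q := hq
  obtain rfl : k' = k := hk
  obtain ⟨n1, n2, n3⟩ := G.node' hi.symm m m'
  obtain ⟨c1, -, c3⟩ := G.node i i' hi.symm _ m m'
  have e0 : 0 < G.e' i q' := n2 ▸ G.e0 i' q'
  have e : G.a i' * G.e i q' = G.a i * G.e' i q' := by
    rw [← G.ge i q', ← G.ge i' q', n1, n2]
    ring
  refine ⟨(G.node i' i hi _ m' m).1 ▸ G.a0 m, ?_, fun t b => ?_⟩
  · simp only [Geo.md, n3, e]
  · simp only [Geo.P, Geo.md, c3, n2, n3, Prod.swap, div_pow]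
    rw [rt_pow_mul e0, div_div_cancel₀ (rt_ne _ _ _), ← e, rt_pow_mul (G.e0 i q')]

end RFar

theorem rowFar : FarStmt := by
  intro M _ A G
  have : ∀ π : G.Prt, ∃ π' : G.Prt, 0 < (G.ch π.i π.q).b →
      π'.q = π.q ∧ π'.k = π.k ∧ π'.i ≠ π.i := fun π => by
    by_cases h : 0 < (G.ch π.i π.q).b
    · obtain ⟨i', h1, h2⟩ := G.nb _ _ π.mem h
      exact ⟨⟨i', π.q, π.k, h2, π.inS, (G.node' h1.symm π.mem h2).1 ▸ π.lt⟩,
        fun _ => ⟨rfl, rfl, h1⟩⟩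
    · exact ⟨π, fun q => (h q).elim⟩
  choose far hf using this
  refine ⟨far, hf, fun π h => ?_⟩
  obtain ⟨a1, a2, a3⟩ := hf π h
  obtain ⟨b1, b2, b3⟩ := RFar.key π _ a1 a2 a3
  obtain ⟨c1, c2, c3⟩ := hf _ b1
  refine ⟨b1, ?_, b2, b3⟩
  have c4 := G.two _ _ _ _ (far π).mem (c1 ▸ (far (far π)).mem) (a1 ▸ π.mem) c3 a3.symm
  have c5 := c1.trans a1
  have c6 := c2.trans a2
  generalize far (far π) = π' at c4 c5 c6
  obtain ⟨i, q, k, m, s, l⟩ := π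
  obtain ⟨i', q', k', m', s', l'⟩ := π'
  obtain rfl : i' = i := c4
  obtain rfl : q' = q := c5
  obtain rfl : k' = k := c6
  rfl

end Pool.Agent.MP_c69980_ag.G3G
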