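import Pool.Agent.MP_c69980_ag.G3G.SpecB
import Pool.Agent.MP_c69980_ag.G3.PrjA

/-!
The forms along an analytic family of points of the fibres.
-/

set_option autoImplicit false

noncomputable section

namespace Pool.Agent.MP_c69980_ag.G3G

open Metric Filter Topology Set
open H60 H4 E1 G3 G3.PrjX

namespace RFrm

variable {n : ℕ} {X : Set (Pt n)} {p : C2} {a j : Fin n} {O : Set C2} {G g : C2 → V n}
  {φ : C2 → ℂ} {y : V n}

lemma dz_eq (hg : AnalyticAt ℂ g p) (hG : AnalyticAt ℂ G (p.1, φ p)) (h : AnalyticAt ℂ φ p)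
    (e : ∀ᶠ q in 𝓝 p, g q = g q j • G (q.1, φ q)) : dz g p =
      (g p j * dw φ p) • dz G (p.1, φ p) + dw (fun q => g q j) p • G (p.1, φ p) := by
  have e' : g =ᶠ[𝓝 p] fun q => g q j • G (q.1, φ q) := e
  have k : AnalyticAt ℂ (fun q : C2 => G (q.1, φ q)) p := hG.comp_of_eq (psi_an h) rfl
  rw [dz, e'.fderiv_eq, fderiv_fun_smul (analyticAt_pi_iff.1 hg j).differentiableAt
    k.differentiableAt]
  simp only [add_apply, smul_apply, ContinuousLinearMap.smulRight_apply]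
  rw [fd_comp hG h, smul_smul]
  rfl

lemma ev (h : Chart X a j O G) (hX : ∀ x ∈ X, ∀ c : ℂ, c ≠ 0 → (x.1, c • x.2) ∈ X) (hp : p ∈ O)
    (hy : Pp y (G p)) : ∀ᶠ x in 𝓝 ((p.1, y) : Pt n), x ∈ X → x.2 j ≠ 0 ∧
      x.2 = x.2 j • G (x.1, x.2 a / x.2 j) := by
  obtain ⟨c, c0, hc⟩ := hy.symm
  have c1 : Tendsto (fun x : Pt n => ((x.1, c • x.2) : Pt n)) (𝓝 (p.1, y)) (𝓝 (p.1, G p)) := by
    rw [hc]
    exact Continuous.tendsto' (by fun_prop) _ _ rfl
  have c2 : ContinuousAt (fun x : Pt n => x.2 j) (p.1, y) := by fun_prop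
  filter_upwards [c1.eventually (h.2.2 p hp).2.2.2, c2.eventually_ne (h.eq hp hy).1] with
    x x1 x2 hx
  have := x1 (hX x hx c c0)
  simp only [Pi.smul_apply, smul_eq_mul, mul_div_mul_left _ _ c0, mul_smul] at this
  exact ⟨x2, smul_right_injective _ c0 this⟩

lemma jb_fst (φ : C2 → ℂ) (p : C2) : jb (fun q => q.1) φ p = dw φ p := by
  rw [jb, dw, show (fun q : ℂ × ℂ => q.1) = Prod.fst from rfl, fderiv_fst]
  simp

end RFrm

theorem rowFrm : FrmStmt := by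
  intro K _ _ N d _ _ A X Φ L γ p l f g hγ hX ⟨a, j, O, Y, c, z, hz, q⟩ rf rg w0 rh
  dsimp only at hz q
  have on : ∀ x ∈ X, On d.z x.2 := fun x hx => Cone.on d.gen ((L.xl x.1 x.2).1 hx).1
  have sc : ∀ x ∈ X, ∀ c : ℂ, c ≠ 0 → (x.1, c • x.2) ∈ X := fun x hx c c0 => by
    obtain ⟨h1, h2, h3⟩ := (L.xl x.1 x.2).1 hx
    exact (L.xl _ _).2 ⟨cone_pp (Pp.smul c0 _) h1, (Pp.smul c0 _).reg h2,
      ((Pp.smul c0 _).vl (on x hx) h2).trans h3⟩
  have an : AnalyticAt ℂ (fun q => γ q a / γ q j) p :=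
    (analyticAt_pi_iff.1 hγ a).div (analyticAt_pi_iff.1 hγ j) (c.eq hz q).1
  obtain rfl : γ p a / γ p j = z := c.div hz q
  have e : ∀ᶠ x in 𝓝 p, γ x j ≠ 0 ∧ γ x = γ x j • Y (x.1, γ x a / γ x j) := by
    filter_upwards [((continuousAt_fst (p := p)).tendsto.prodMk_nhds hγ.continuousAt).eventually
      (RFrm.ev (p := (p.1, γ p a / γ p j)) c sc hz q), hX] with x x1 x2 using x1 x2
  have oX : ∀ᶠ x in 𝓝 p, On d.z (γ x) := hX.mono fun x hx => on (x.1, γ x) hx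
  have oY : ∀ᶠ x in 𝓝 ((p.1, γ p a / γ p j) : C2), On d.z (Y x) := by
    filter_upwards [c.nhds hz] with x hx using on (x.1, Y x) (c.mem hx)
  have k : ∀ u : K, Reg d.z (γ p) u → (fun x => vl d.z u (γ x)) =ᶠ[𝓝 p]
      fun x => vl d.z u (Y (x.1, γ x a / γ x j)) := fun u hu => by
    filter_upwards [e, oX, (vl_an hγ oX hu).2] with x x1 x2 x3
    exact (Pp.vl (Pp.symm ⟨_, x1.1, x1.2⟩) x2 x3).symm
  have h1 := L.kl a j O Y c _ hz (γ p j) (γ p j * dw (fun q => γ q a / γ q j) p)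
    (dw (fun q => γ q j) p) l f g (c.eq hz q).1 (q.symm.reg rf) (q.symm.reg rg) w0 (q.symm.reg rh)
  rw [← (c.eq hz q).2, ← RFrm.dz_eq hγ (c.an hz) an (e.mono fun x hx => hx.2),
    mul_div_cancel_left₀ _ (c.eq hz q).1] at h1
  have h2 := jb_comp (f := fun x => vl d.z f (Y x)) (g := fun x => vl d.z g (Y x))
    (φ := fun x => (x.1, γ x a / γ x j)) (p := p)
    (vl_an (c.an hz) oY (q.symm.reg rf)).1.differentiableAt
    (vl_an (c.an hz) oY (q.symm.reg rg)).1.differentiableAt (psi_an an).differentiableAt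
  have h3 := (jb_congr (k f rf) (k g rg)).trans (h2.trans (congrArg _ (RFrm.jb_fst _ p)))
  rw [h1, h3, q.vl oY.self_of_nhds (q.symm.reg rh)]
  ring

end Pool.Agent.MP_c69980_ag.G3G
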