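import Pool.Agent.MP_c69980_ag.G3G.SpecB

/-!
The monomial chart with the two coordinates exchanged.
-/

set_option autoImplicit false

noncomputable section

namespace Pool.Agent.MP_c69980_ag.G3G

open Metric Filter Topology Set
open G3

namespace RSw

lemma sw_mem {q : C2} {r : ℝ} (h : q ∈ ball (0 : C2) r) : q.swap ∈ ball (0 : C2) r :=
  mem_b.2 (mem_b.1 h).symm

/-- The logarithmic derivatives of the two factors of a function of the first variable. -/
lemma dlog {u v : C2 → ℂ} {τ : ℂ → ℂ} {p : C2} {a b : ℕ} (hu : AnalyticAt ℂ u p)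
    (hv : AnalyticAt ℂ v p) (u0 : u p ≠ 0) (v0 : v p ≠ 0) (hb : 0 < b)
    (he : ∀ᶠ q in 𝓝 p, u q ^ a * v q ^ b = τ q.1) :
    dw v p / v p = -(a : ℂ) / b * (dw u p / u p) := by
  have c : HasDerivAt (fun w : ℂ => ((p.1, w) : C2)) (0, 1) p.2 :=
    (hasDerivAt_const _ _).prodMk (hasDerivAt_id _)
  have d1 : HasDerivAt (fun w => u (p.1, w)) (dw u p) p.2 :=
    hu.differentiableAt.hasFDerivAt.comp_hasDerivAt p.2 c
  have d2 : HasDerivAt (fun w => v (p.1, w)) (dw v p) p.2 :=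
    hv.differentiableAt.hasFDerivAt.comp_hasDerivAt p.2 c
  have d3 := (d1.fun_pow a).fun_mul (d2.fun_pow b)
  have d4 : HasDerivAt (fun w => u (p.1, w) ^ a * v (p.1, w) ^ b) 0 p.2 :=
    (hasDerivAt_const p.2 (τ p.1)).congr_of_eventuallyEq (c.continuousAt.eventually he)
  have e := d3.unique d4
  have b0 : (b : ℂ) ≠ 0 := by exact_mod_cast hb.ne'
  have e1 : (a : ℂ) * u p ^ (a - 1) * u p = a * u p ^ a := by
    rcases a with _ | a
    · simp
    · rw [Nat.add_sub_cancel, pow_succ, mul_assoc]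
  have e2 : v p ^ (b - 1) * v p = v p ^ b := pow_sub_one_mul hb.ne' _
  have e3 : (a : ℂ) * dw u p * v p + b * dw v p * u p = 0 := by
    refine mul_left_cancel₀ (mul_ne_zero (pow_ne_zero a u0) (pow_ne_zero b v0)) ?_
    change (a : ℂ) * u p ^ (a - 1) * dw u p * v p ^ b +
      u p ^ a * (b * v p ^ (b - 1) * dw v p) = 0 at e
    linear_combination u p * v p * e - dw u p * v p ^ b * v p * e1 -
      u p ^ a * b * dw v p * u p * e2
  field_simp
  linear_combination e3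

end RSw

open RSw in
theorem rowSw : SwOf := by
  intro hI n W A F T hF h hb
  have nz : ∀ q ∈ ball (0 : C2) T.r, ∀ t, (t, T.Y q) ∈ A.Zb → q.1 ≠ 0 ∧ q.2 ≠ 0 := by
    intro q hq t ht
    have e := mul_ne_zero_iff.1 (((h.fib q hq t).1 ht).symm ▸ tau_ne (A := A) t)
    exact ⟨fun z => e.1 (by rw [z, zero_pow h.a0.ne']), fun z => e.2 (by rw [z, zero_pow hb.ne'])⟩
  refine ⟨h.r0, hb, le_rfl, fun _ => rfl, fun q hq => ?_, fun q hq q' hq' e => ?_,
    fun q hq t => ?_, fun q hq t ht => ?_, ?_, fun x p hx hp hZ l => ?_⟩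
  · obtain ⟨O, g, h1, h2, h3⟩ := (hF.ch _ _).1 (h.ch _ (sw_mem hq))
    exact (hF.ch _ _).2 ⟨_, _, (hI.1 n W O g h1).2, h2,
      continuous_swap.continuousAt.eventually h3⟩
  · exact Prod.swap_injective (h.inj (sw_mem hq) (sw_mem hq') e)
  · exact (h.fib _ (sw_mem hq) t).trans (by rw [mul_comm]; rfl)
  · have e := nz _ (sw_mem hq) t ht
    exact iff_of_true ((h.opn _ (sw_mem hq) t ht).2 (pow_ne_zero _ e.2)) (pow_ne_zero _ e.1)
  · obtain ⟨B, hB⟩ := h.bd
    refine ⟨B * ‖(-(T.a : ℂ) / T.b) ^ A.m‖, fun l q hq => ?_⟩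
    show ‖T.φ l q.swap * (-(T.a : ℂ) / T.b) ^ A.m‖ ≤ _
    rw [norm_mul]
    exact mul_le_mul_of_nonneg_right (hB l _ (sw_mem hq)) (norm_nonneg _)
  · have x1 : AnalyticAt ℂ (fun p' => (x p').1) p := analyticAt_fst.comp hx
    have x2 : AnalyticAt ℂ (fun p' => (x p').2) p := analyticAt_snd.comp hx
    have e := nz _ (sw_mem hp) _ (A.sub hZ.2)
    have he : ∀ᶠ q in 𝓝 p, (x q).2 ^ T.a * (x q).1 ^ T.b = tau A q.1 := by
      filter_upwards [A.ev _ _ hZ.1, hx.continuousAt.eventually (isOpen_ball.mem_nhds hp)]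
        with q k1 k2 using (h.fib _ (sw_mem k2) _).1 (A.mem _ _ k1)
    have e1 := dlog x2 x1 e.1 e.2 hb he
    have e2 := h.cf (fun p' => (x p').swap) p (x2.prod x1) (sw_mem hp) hZ l
    rw [h.bc hb, pow_one] at e2
    refine e2.trans ?_
    show T.φ l (x p).swap * (dw (fun p' => (x p').1) p / (x p).1) ^ A.m =
      T.φ l (x p).swap * (-(T.a : ℂ) / T.b) ^ A.m *
        (dw (fun p' => (x p').2) p / (x p).2 ^ 1) ^ A.m
    rw [e1, mul_pow, pow_one, mul_assoc]

end Pool.Agent.MP_c69980_ag.G3G
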