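import Pool.Agent.MP_c69980_ag.G3G.Base

/-!
The rows that lead from monomial charts to the skeleton, the initial state and the differentials.
-/

set_option autoImplicit false

noncomputable section

namespace Pool.Agent.MP_c69980_ag.G3G

open Metric Filter Topology Set
open G3 Pool.Agent.MP_f3836a_nt.PK

variable {M : Type} [MetricSpace M] {A : Amb M}

namespace Geo

variable (G : Geo A)

/-- The component without its special points. -/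
def C (i : G.ι) : Set M := G.Cb i \ G.S

/-- The sheets near an ordinary point of the component `i`. -/
def Ts (i : G.ι) (c : M) (j : ℕ) (x : C2) : M := (G.ch i c).Y (rt A (G.a i) j x.1, x.2)

/-- Half the radius of the chart. -/
def hr (i : G.ι) (c : M) : ℝ := (G.ch i c).r / 2

/-- Two ports with the same flag. -/
def Fl (π π' : G.Prt) : Prop := π.i = π'.i ∧ π.q = π'.q

/-- The parametrisations of a component by the axes. -/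
structure Ax : Prop where
  cont : ∀ i, ∀ p ∈ G.Cb i, ContinuousOn (G.ax0 i p) (ball 0 (G.ch i p).r)
  inj : ∀ i, ∀ p ∈ G.Cb i, InjOn (G.ax0 i p) (ball 0 (G.ch i p).r)
  mem : ∀ i, ∀ p ∈ G.Cb i, ∀ w ∈ ball (0 : ℂ) (G.ch i p).r, (w ≠ 0 ∨ p ∉ G.S) → G.ax0 i p w ∈ G.C i
  opn : ∀ i, ∀ p ∈ G.Cb i, ∀ w ∈ ball (0 : ℂ) (G.ch i p).r, ∀ N ∈ 𝓝 w,
    G.ax0 i p '' N ∈ 𝓝[G.Cb i] (G.ax0 i p w)
  tr : ∀ i, ∀ p ∈ G.Cb i, ∀ p' ∈ G.Cb i, ∀ w ∈ ball (0 : ℂ) (G.ch i p).r,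
    ∀ w' ∈ ball (0 : ℂ) (G.ch i p').r, G.ax0 i p w = G.ax0 i p' w' →
    ∃ θ : ℂ → ℂ, AnalyticAt ℂ θ w ∧ θ w = w' ∧ deriv θ w ≠ 0 ∧
      ∀ᶠ v in 𝓝 w, G.ax0 i p v = G.ax0 i p' (θ v)

/-- The sheets. -/
structure Tu : Prop where
  lc : ∀ k, ∀ c ∈ G.C k, ∃ B' : ℝ, ∀ᶠ t in A.l, ∀ j < G.a k, ∀ w ∈ ball (0 : ℂ) (G.hr k c),
    A.LZ (G.Ts k c j) (t, w) ∧ (∀ l, ‖A.cf (G.Ts k c j) (t, w) l‖ ≤ B') ∧
      ∀ j' < G.a k, ∀ w' ∈ ball (0 : ℂ) (G.hr k c), G.Ts k c j (t, w) = G.Ts k c j' (t, w') →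
        j = j' ∧ w = w'
  lm : ∀ k, ∀ c ∈ G.C k, ∀ j < G.a k, Lm A.l (G.Ts k c j) (G.ax0 k c) (ball 0 (G.hr k c))
  cov : ∀ k, ∀ c ∈ G.C k, ∀ w ∈ ball (0 : ℂ) (G.hr k c), ∀ u, A.Out u → Cg u (G.ax0 k c w) →
    ∀ N ∈ 𝓝 w, ∀ᶠ x in (u : Filter (ℂ × M)), ∃ j < G.a k, ∃ w' ∈ N, x.2 = G.Ts k c j (x.1, w')

/-- The ports at one flag parametrise the fibre of the monomial, once. -/
structure Ar : Prop where
  cov : ∀ i, ∀ q ∈ G.Cb i, ∀ (t : ℂ) (y : C2), y.2 ≠ 0 →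
    y.1 ^ G.a i * y.2 ^ (G.ch i q).b = tau A t →
    ∃ k < G.g i q, ∃ w : ℂ, w ^ G.e i q = y.2 ∧ y.1 = rt A (G.a i) k t / w ^ G.e' i q
  sep : ∀ i q, ∀ k < G.g i q, ∀ k' < G.g i q, ∀ t w w' : ℂ, w ≠ 0 → w ^ G.e i q = w' ^ G.e i q →
    rt A (G.a i) k t / w ^ G.e' i q = rt A (G.a i) k' t / w' ^ G.e' i q → k = k' ∧ w = w'

/-- The ports in the fibres. -/
structure Pa (r₀ B : ℝ) : Prop where
  lc : ∀ r, 0 < r → ∀ᶠ t in A.l, ∀ (π : G.Prt) (w : ℂ), r ≤ ‖w‖ → ‖w‖ < r₀ →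
    A.LZ (G.P π) (t, w) ∧ (∀ l, ‖w ^ A.m * A.cf (G.P π) (t, w) l‖ ≤ B) ∧
      ∀ (π' : G.Prt) (w' : ℂ), r ≤ ‖w'‖ → ‖w'‖ < r₀ → G.P π (t, w) = G.P π' (t, w') →
        π = π' ∧ w = w'
  lm : ∀ (π : G.Prt) r, 0 < r → Lm A.l (G.P π) (G.p π) {w | r ≤ ‖w‖ ∧ ‖w‖ < r₀}
  cov : ∀ π : G.Prt, ∀ w ∈ ball (0 : ℂ) r₀ \ {0}, ∀ u, A.Out u → Cg u (G.p π w) → ∀ ε : ℝ, 0 < ε →
    ∀ᶠ x in (u : Filter (ℂ × M)), ∃ π' w', G.Fl π' π ∧ |‖w'‖ - ‖w‖| < ε ∧ x.2 = G.P π' (x.1, w')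

/-- The limits of the ports. -/
structure Pb (r₀ : ℝ) : Prop where
  pc : ∀ π : G.Prt, ContinuousOn (G.p π) (ball 0 r₀ \ {0}) ∧
    MapsTo (G.p π) (ball 0 r₀ \ {0}) (G.C π.i)
  pinj : ∀ π : G.Prt, ∀ w ∈ ball (0 : ℂ) r₀ \ {0}, ∀ᶠ w' in 𝓝[≠] w, G.p π w' ≠ G.p π w
  po : ∀ π : G.Prt, ∀ w ∈ ball (0 : ℂ) r₀ \ {0}, ∀ N ∈ 𝓝 w, G.p π '' N ∈ 𝓝[G.C π.i] (G.p π w)
  pnorm : ∀ π π' : G.Prt, ∀ w ∈ ball (0 : ℂ) r₀ \ {0}, ∀ w' ∈ ball (0 : ℂ) r₀ \ {0},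
    G.p π w = G.p π' w' → G.Fl π π' ∧ ‖w‖ = ‖w'‖
  cpt : ∀ k r, 0 < r → r ≤ r₀ → IsCompact (G.C k \ ⋃ π : G.Prt, G.p π '' (ball 0 r \ {0}))
  esc : ∀ (π : G.Prt) k, ∀ c ∈ G.C k, ∃ N ∈ 𝓝 c, ∀ᶠ w in 𝓝[≠] (0 : ℂ), G.p π w ∉ N

/-- The kind of the edge at a port. -/
def kd (π : G.Prt) : Kd :=
  if 0 < (G.ch π.i π.q).b then .neck else if (G.ch π.i π.q).c = 1 then .cusp else .disc

/-- The modulus of a neck. -/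
def md (π : G.Prt) : ℂ → ℂ := rt A (G.a π.i * G.e' π.i π.q) π.k

/-- The port at the other end of a neck. -/
structure Far (far : G.Prt → G.Prt) : Prop where
  q : ∀ π, 0 < (G.ch π.i π.q).b → (far π).q = π.q ∧ (far π).k = π.k ∧ (far π).i ≠ π.i
  nk : ∀ π, 0 < (G.ch π.i π.q).b → 0 < (G.ch (far π).i (far π).q).b ∧ far (far π) = π ∧
    G.md (far π) = G.md π ∧ ∀ t b, G.P (far π) (t, b) = G.P π (t, G.md π t / b)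

/-- The initial edges. -/
structure Ed (far : G.Prt → G.Prt) (r₀ : ℝ) : Prop where
  ise : ∀ π, IsE A (G.kd π) (G.P π) (G.md π) r₀ (G.P π) (G.P (far π))
  dj : ∀ r' < r₀, ∀ᶠ t in A.l, ∀ π π' : G.Prt, ∀ b ∈ De (G.kd π) (G.md π t) r',
    ∀ b' ∈ De (G.kd π') (G.md π' t) r', G.P π (t, b) = G.P π' (t, b') →
      π' = π ∨ (G.kd π = .neck ∧ π' = far π)

/-- Deep points of an initial edge. -/
def Dp (π : G.Prt) (u : Ultrafilter (ℂ × M)) : Prop :=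
  ∀ ρ : ℝ, 0 < ρ → ∀ᶠ x in (u : Filter (ℂ × M)),
    ∃ b ∈ De (G.kd π) (G.md π x.1) ρ, x.2 = G.P π (x.1, b)

/-- Deep points converge to special points, and conversely. -/
structure Dq : Prop where
  te : ∀ π u, A.Out u → G.Dp π u → Cg u π.q
  cov : ∀ u, A.Out u → ∀ i, ∀ q ∈ G.Cb i, q ∈ G.S → Cg u q → ∃ π, G.Dp π u

end Geo

def AxStmt : Prop := AllG fun _ _ _ G => G.Ax

def TuStmt : Prop := AllG fun _ _ _ G => G.Tu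

def ArStmt : Prop := AllG fun _ _ _ G => G.Ar

def PaStmt : Prop := AllG fun _ _ _ G => G.Ar → ∀ r₀, G.Rad r₀ → ∃ B, G.Pa r₀ B

def PbStmt : Prop := AllG fun _ _ _ G => G.Ax → ∀ r₀, G.Rad r₀ → G.Pb r₀

def FarStmt : Prop := AllG fun _ _ _ G => ∃ far, G.Far far

def EdStmt : Prop := AllG fun _ _ _ G => G.Ar → ∀ far r₀, G.Far far → G.Rad r₀ → G.Ed far r₀

def DqStmt : Prop := AllG fun _ _ _ G => G.Ar → G.Dq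

/-! ### Differentials -/

section

variable {F : Type} [Field F] [Algebra ℂ F]

/-- The function `f` in the chart at `p`. -/
def fn (G : Geo A) (i : G.ι) (pl : M → Place ℂ F) (p : M) (f : F) (w : ℂ) : ℂ :=
  ev (pl (G.ax0 i p w)) f

/-- Functions in charts. -/
structure Fn (G : Geo A) (i : G.ι) (pl : M → Place ℂ F) : Prop where
  an : ∀ p ∈ G.Cb i, ∀ w₀ ∈ ball (0 : ℂ) (G.ch i p).r, ∀ f : F, f ≠ 0 → ∃ H : ℂ → ℂ,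
    AnalyticAt ℂ H w₀ ∧ H w₀ ≠ 0 ∧
      ∀ᶠ w in 𝓝 w₀, fn G i pl p f w = (w - w₀) ^ (pl (G.ax0 i p w₀)).ord f * H w
  gen : ∀ p ∈ G.Cb i, ∀ w₀ ∈ ball (0 : ℂ) (G.ch i p).r, ∀ T : Set (Place ℂ F), T.Finite →
    ∀ᶠ w in 𝓝[≠] w₀, pl (G.ax0 i p w) ∉ T
  hom : ∀ (P : Place ℂ F) (f g : F), f ∈ P.V → g ∈ P.V → ev P (f + g) = ev P f + ev P g ∧
    ev P (f * g) = ev P f * ev P g
  con : ∀ (P : Place ℂ F) (s : ℂ), ev P (algebraMap ℂ F s) = s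
  zero : ∀ (P : Place ℂ F) (f : F), f ≠ 0 → (ev P f = 0 ↔ P.ord f ≠ 0)

/-- The chain rule. -/
def Dr (G : Geo A) (i : G.ι) (pl : M → Place ℂ F) : Prop :=
  ∀ p ∈ G.Cb i, ∀ w₀ ∈ ball (0 : ℂ) (G.ch i p).r, ∀ (δ : Derivation ℂ F F) (f g : F),
    ∀ᶠ w in 𝓝[≠] w₀, deriv (fn G i pl p f) w * fn G i pl p (δ g) w =
      deriv (fn G i pl p g) w * fn G i pl p (δ f) w

/-- The coefficients of the differentials `f / δ ^ μ` in the charts. -/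
structure Df (G : Geo A) (i : G.ι) (pl : M → Place ℂ F) (δ : Derivation ℂ F F)
    (u : Place ℂ F → F) (μ : ℕ) (η : F → M → ℂ → ℂ) : Prop where
  loc : ∀ f : F, f ≠ 0 → ∀ p ∈ G.Cb i, ∀ w₀ ∈ ball (0 : ℂ) (G.ch i p).r, ∃ H : ℂ → ℂ,
    AnalyticAt ℂ H w₀ ∧ H w₀ ≠ 0 ∧
      ∀ᶠ w in 𝓝 w₀, η f p w = (w - w₀) ^ od δ u μ f (pl (G.ax0 i p w₀)) * H w
  tr : ∀ f : F, f ≠ 0 → ∀ p ∈ G.Cb i, ∀ p' ∈ G.Cb i, ∀ w ∈ ball (0 : ℂ) (G.ch i p).r,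
    ∀ θ : ℂ → ℂ, AnalyticAt ℂ θ w → θ w ∈ ball (0 : ℂ) (G.ch i p').r → deriv θ w ≠ 0 →
    (∀ᶠ v in 𝓝 w, G.ax0 i p v = G.ax0 i p' (θ v)) → η f p w = η f p' (θ w) * deriv θ w ^ μ
  gen : ∀ f : F, f ≠ 0 → ∀ p ∈ G.Cb i, ∀ w₀ ∈ ball (0 : ℂ) (G.ch i p).r,
    ∀ᶠ w in 𝓝[≠] w₀, η f p w = fn G i pl p f w * η 1 p w

end

/-- Quantification over components with a function field. -/
def AllD (Φ : ∀ (M : Type) [MetricSpace M] (A : Amb M) (G : Geo A) (_ : G.ι) (F : Type) [Field F]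
    [Algebra ℂ F] (_ : M → Place ℂ F), Prop) : Prop :=
  AllG fun M _ A G => ∀ (i : G.ι) (F : Type) [Field F] [Algebra ℂ F] (pl : M → Place ℂ F),
    G.Ax → Dic G i F pl → Φ M A G i F pl

def FnStmt : Prop := AllD fun _ _ _ G i _ _ _ pl => Fn G i pl

def DrStmt : Prop := AllD fun _ _ _ G i _ _ _ pl => Fn G i pl → Dr G i pl

def DfStmt : Prop := AllD fun _ _ _ G i F _ _ pl => Fn G i pl → Dr G i pl →
  ∀ (δ : Derivation ℂ F F) (u : Place ℂ F → F) (μ : ℕ), δ ≠ 0 → (∀ P : Place ℂ F, P.ord (u P) = 1) →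
    ∃ η, Df G i pl δ u μ η

def DifOf : Prop := AxStmt → FnStmt → DrStmt → DfStmt → DifStmt

def SkOf : Prop :=
  AxStmt → TuStmt → ArStmt → PaStmt → PbStmt → FarStmt → EdStmt → DqStmt → SkStmt

end Pool.Agent.MP_c69980_ag.G3G
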